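import Pool.Agent.Work.MP_3d425c_gt.Nh.Rhm
import Pool.Agent.Work.MP_3d425c_gt.Sv.Line
import Pool.Agent.Work.MP_3d425c_gt.Gl.Tree
import Pool.Agent.Work.MP_3d425c_gt.Sv.Wall
import Pool.Agent.Work.MP_3d425c_gt.Cw.X

-- merged part: Pool.Agent.Work.MP_3d425c_gt.Sv.Fg
section
/-! Vertex groups of a reduced action on a tree are finitely generated. -/

namespace Pool.Agent.Work.MP_3d425c_gt.Sv
open Set MulAction Pool.Agent.Work.MP_3d425c_gt.Gl Pool.Agent.Work.MP_3d425c_gt.Bq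
  Pool.Agent.Work.MP_3d425c_gt.Md

variable {G : Type} {V : Type*} [Group G] [MulAction G V] {Γ : SimpleGraph V}

/-- a property that no generator changes is constant -/
theorem fg_const {S : Set G} (cl : Subgroup.closure S = ⊤) (P : G → Prop)
    (h : ∀ g, ∀ s ∈ S, P (g * s) ↔ P g) (a b : G) : P a ↔ P b := by
  have all : ∀ x ∈ Subgroup.closure S, ∀ g, P (g * x) ↔ P g := fun x hx => by
    induction hx using Subgroup.closure_induction with
    | mem x k => exact fun g => h g x k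
    | one => exact fun g => by rw [mul_one]
    | mul x y _ _ i j => exact fun g => by rw [← mul_assoc, j, i]
    | inv x _ i => exact fun g => by rw [← i (g * x⁻¹), inv_mul_cancel_right]
  simpa using all (b⁻¹ * a) (cl ▸ Subgroup.mem_top _) b

/-- a subgroup with an almost locally constant equivariant map -/
theorem fg_of_map (H : Subgroup G) {S R : Set G} (hS : S.Finite) (hR : R.Finite)
    (cl : Subgroup.closure S = ⊤) (q : G → V) (eq : ∀ h ∈ H, ∀ g, q (h * g) = h • q g)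
    (cr : ∀ g, ∀ s ∈ S, q (g * s) ≠ q g → ∃ h ∈ H, ∃ r ∈ R, g = h * r)
    (st : ∀ g, (H ⊓ stabilizer G (q g)).FG) : H.FG := by
  have ex : ∀ p : G × G, ∃ F : Set G, F.Finite ∧ F ⊆ H ∧
      ∀ h ∈ H, h • q p.1 = q p.2 → h ∈ Subgroup.closure F := fun p => by
    by_cases e : ∃ k ∈ H, k • q p.1 = q p.2
    · obtain ⟨k, kH, e⟩ := e
      obtain ⟨F, c, f⟩ := (Subgroup.fg_iff _).1 (st p.1)
      refine ⟨insert k F, f.insert k, insert_subset kH fun x hx =>
        (c ▸ Subgroup.subset_closure hx : x ∈ H ⊓ stabilizer G (q p.1)).1, fun h hH e' => ?_⟩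
      have m : k⁻¹ * h ∈ Subgroup.closure F := c ▸ Subgroup.mem_inf.2 ⟨mul_mem (inv_mem kH) hH, by
        rw [mem_stabilizer_iff, mul_smul, e', ← e, inv_smul_smul]⟩
      simpa using mul_mem (Subgroup.subset_closure (mem_insert k F))
        (Subgroup.closure_mono (subset_insert k F) m)
    · exact ⟨∅, finite_empty, empty_subset _, fun h a b => absurd ⟨h, a, b⟩ e⟩
  choose F f1 f2 f3 using ex
  obtain ⟨Y, eY⟩ : ∃ Y : Set G, Y = insert 1 (R ∪ image2 (· * ·) R S) := ⟨_, rfl⟩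
  have hY : Y.Finite := eY ▸ (hR.union (hR.image2 _ hS)).insert 1
  obtain ⟨K, eK⟩ : ∃ K, K = Subgroup.closure (⋃ p ∈ Y ×ˢ Y, F p) := ⟨_, rfl⟩
  have le : K ≤ H := eK ▸ (Subgroup.closure_le _).2 (iUnion₂_subset fun p _ => f2 p)
  have key : ∀ h ∈ H, ∀ y ∈ Y, (∃ k ∈ K, ∃ z ∈ Y, q (h * y) = k • q z) ↔ h ∈ K := by
    intro h hH y hy
    refine ⟨fun ⟨k, kK, z, hz, e⟩ => ?_, fun k => ⟨h, k, y, hy, eq h hH y⟩⟩
    have m : k⁻¹ * h ∈ K := eK ▸ Subgroup.closure_mono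
      (subset_iUnion₂ (s := fun p (_ : p ∈ Y ×ˢ Y) => F p) (y, z) ⟨hy, hz⟩)
      (f3 (y, z) _ (mul_mem (inv_mem (le kK)) hH) (by rw [mul_smul, ← eq h hH, e, inv_smul_smul]))
    simpa using mul_mem kK m
  have one : (1 : G) ∈ Y := eY ▸ mem_insert _ _
  have c := fg_const cl (fun g => ∃ k ∈ K, ∃ z ∈ Y, q g = k • q z) fun g s hs => by
    by_cases e : q (g * s) = q g
    · rw [e]
    · obtain ⟨h, hH, r, hr, rfl⟩ := cr g s hs e
      rw [mul_assoc, key h hH r (eY ▸ .inr (.inl hr)),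
        key h hH _ (eY ▸ .inr (.inr (mem_image2_of_mem hr hs)))]
  refine (Subgroup.fg_iff _).2 ⟨_, eK ▸ le.antisymm fun h hH => ?_,
    (hY.prod hY).biUnion fun p _ => f1 p⟩
  exact (key h hH 1 one).1 ((c _ 1).2 ⟨1, one_mem _, 1, one, (one_smul _ _).symm⟩)

/-- the group of a triangulation is finitely generated -/
theorem tri_fg {X0 X1 X2 X3 : Type} [MulAction G X0] [MulAction G X1] [MulAction G X2]
    [MulAction G X3] (T : Tri G X0 X1 X2 X3) : Group.FG G := by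
  have := T.fin
  obtain ⟨F, eF⟩ : ∃ F : Set G, F = ⋃ (q : Ob G X3) (q' : Ob G X3) (k : Fin 4) (l : Fin 4),
    {g | T.d3 q.out k = g • T.d3 q'.out l} := ⟨_, rfl⟩
  have hF : F.Finite := eF ▸ finite_iUnion fun q => finite_iUnion fun q' => finite_iUnion fun i =>
    finite_iUnion fun j => Set.Subsingleton.finite fun g hg h hh =>
      (inv_mul_eq_one.1 (T.free2 (h⁻¹ * g) _ (by
        rw [mul_smul, ← (show _ = _ from hg), (show _ = _ from hh), inv_smul_smul]))).symm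
  have st : ∀ x y i j, T.d3 x i = T.d3 y j → (∃ h ∈ Subgroup.closure F, h • (ob G x).out = x) →
      ∃ h ∈ Subgroup.closure F, h • (ob G y).out = y := by
    rintro x y i j e ⟨h, hh, eh⟩
    obtain ⟨g, eg⟩ := ob_eq_iff.1 (ob_out (ob G y)).symm
    have m : h⁻¹ * g ∈ F := eF ▸ mem_iUnion.2 ⟨ob G x, mem_iUnion.2 ⟨ob G y, mem_iUnion.2 ⟨i,
      mem_iUnion.2 ⟨j, by
        show _ = _
        rw [mul_smul, ← T.e3, eg, ← e, eq_inv_smul_iff, ← T.e3, eh]⟩⟩⟩⟩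
    exact ⟨g, by simpa using mul_mem hh (Subgroup.subset_closure m), eg⟩
  have all : ∀ x y, (∃ h ∈ Subgroup.closure F, h • (ob G x).out = x) ↔
      ∃ h ∈ Subgroup.closure F, h • (ob G y).out = y := fun x y => by
    have c := T.conn x y
    induction c with
    | rel x y k => obtain ⟨i, j, e⟩ := k; exact ⟨st x y i j e, st y x j i e.symm⟩
    | refl => rfl
    | symm _ _ _ i => exact i.symm
    | trans _ _ _ _ _ i j => exact i.trans j
  obtain ⟨x⟩ := T.ne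
  refine Group.fg_iff.2 ⟨F, top_unique fun g _ => ?_, hF⟩
  obtain ⟨h, hh, e⟩ := (all (ob G x).out (g • (ob G x).out)).1 ⟨1, one_mem _, by
    rw [ob_out, one_smul]⟩
  rw [ob_smul, ob_out] at e
  have k := T.free3 (g⁻¹ * h) _ (by rw [mul_smul, e, inv_smul_smul])
  rwa [inv_mul_eq_one.1 k]

section Tree
variable (fg : Group.FG G) (hT : Γ.IsTree)
  (act : ∀ (g : G) p q, Γ.Adj p q → Γ.Adj (g • p) (g • q))
include fg hT act

/-- finitely many orbits of oriented edges -/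
theorem dart_fin (red : ∀ u v, Γ.Adj u v → ∃ g : G, g • u = u ∧ g • v ≠ v) :
    ∃ D : Set (V × V), D.Finite ∧ ∀ a b, Γ.Adj a b → ∃ g : G, (g • a, g • b) ∈ D := by
  obtain ⟨S, cl, hS⟩ := Group.fg_iff.1 fg
  obtain ⟨v⟩ := hT.connected.nonempty
  refine ⟨_, hS.biUnion fun s _ => sep_fin hT (s • v) v, fun a b h => by_contra fun n => ?_⟩
  have c := fg_const cl (fun g => side Γ a b (g • v)) fun g s hs => by_contra fun m =>
    n ⟨g⁻¹, mem_iUnion₂.2 ⟨s, hs, fun k => m (by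
      rw [← side_iff act g, ← side_iff act g (x := v)] at k
      simpa only [smul_inv_smul, mul_smul] using k)⟩⟩
  have out : ∀ a b, Γ.Adj a b → side Γ a b v → ∃ g : G, ¬ side Γ a b (g • v) := fun a b h k => by
    obtain ⟨g, e, ne⟩ := red a b h
    have h' := act g _ _ h
    have k' := side_smul act g k
    rw [e] at h' k'
    exact ⟨g, fun m => ne (side_uniq hT h' h k' m)⟩
  by_cases k : side Γ a b v
  · obtain ⟨g, m⟩ := out a b h k
    exact m ((c g 1).2 (by rwa [one_smul]))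
  · obtain ⟨g, m⟩ := out b a h.symm ((side_compl hT h v).2 k)
    exact m ((side_compl hT h _).2 fun x => k (by simpa using (c g 1).1 x))

/-- finitely many orbits of neighbours under the vertex group -/
theorem nb_fin (red : ∀ u v, Γ.Adj u v → ∃ g : G, g • u = u ∧ g • v ≠ v) (v : V) :
    ∃ s : Finset V, (∀ w ∈ s, Γ.Adj v w) ∧ ∀ w, Γ.Adj v w → ∃ g : G, g • v = v ∧ g • w ∈ s := by
  obtain ⟨D, hD, d⟩ := dart_fin fg hT act red
  have ex : ∀ p : V × V, ∃ g : G, ∀ k : G, k • v = p.1 → g • v = p.1 := fun p => by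
    by_cases e : ∃ k : G, k • v = p.1
    · exact e.imp fun _ k _ _ => k
    · exact ⟨1, fun k m => absurd ⟨k, m⟩ e⟩
  choose γ hγ using ex
  have f : {w ∈ (fun p => (γ p)⁻¹ • p.2) '' D | Γ.Adj v w}.Finite :=
    (hD.image _).subset (sep_subset _ _)
  refine ⟨f.toFinset, fun w hw => (f.mem_toFinset.1 hw).2, fun w hw => ?_⟩
  obtain ⟨g, m⟩ := d v w hw
  have e : ((γ (g • v, g • w))⁻¹ * g) • v = v := by
    rw [mul_smul, inv_smul_eq_iff, hγ _ g rfl]
  refine ⟨_, e, f.mem_toFinset.2 ⟨⟨_, m, (mul_smul _ _ _).symm⟩, ?_⟩⟩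
  simpa only [e] using act ((γ (g • v, g • w))⁻¹ * g) _ _ hw

/-- vertex groups are finitely generated if the edge groups are -/
theorem stab_fg (v : V) (ed : ∀ w, Γ.Adj v w → (stabilizer G v ⊓ stabilizer G w).FG) :
    (stabilizer G v).FG := by
  by_cases nb : ∃ b, Γ.Adj v b
  swap
  · have e : stabilizer G v = ⊤ := top_unique fun g _ =>
      (side_ex hT v (g • v)).resolve_right fun ⟨w, k, _⟩ => nb ⟨w, k⟩
    exact e ▸ Group.fg_def.1 fg
  obtain ⟨b, hb⟩ := nb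
  obtain ⟨S, cl, hS⟩ := Group.fg_iff.1 fg
  have ex : ∀ g : G, ∃ w, Γ.Adj v w ∧ (side Γ v w (g • v) ∨ g • v = v ∧ w = g • b) := fun g => by
    rcases side_ex hT v (g • v) with e | ⟨w, k, m⟩
    · exact ⟨g • b, by simpa only [e] using act g _ _ hb, .inr ⟨e, rfl⟩⟩
    · exact ⟨w, k, .inl m⟩
  choose q q1 q2 using ex
  have un : ∀ (g : G) w, Γ.Adj v w → (side Γ v w (g • v) ∨ g • v = v ∧ w = g • b) → q g = w := by
    rintro g w k (m | ⟨e, rfl⟩) <;> rcases q2 g with n | ⟨e', n⟩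
    · exact side_uniq hT (q1 g) k n m
    · exact absurd (by rwa [e'] at m) (side_not hT k)
    · exact absurd (by rwa [e] at n) (side_not hT (q1 g))
    · exact n
  have ex : ∀ u : V, ∃ r : G, ∀ k : G, k • u = v → r • u = v := fun u => by
    by_cases e : ∃ k : G, k • u = v
    · exact e.imp fun _ k _ _ => k
    · exact ⟨1, fun k m => absurd ⟨k, m⟩ e⟩
  choose ρ hρ using ex
  have hU : (⋃ s ∈ S, insert v (insert (s • v) (Prod.fst ''
      {c : V × V | ¬ (side Γ c.1 c.2 (s • v) ↔ side Γ c.1 c.2 v)}))).Finite :=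
    hS.biUnion fun s _ => (((sep_fin hT _ _).image _).insert _).insert _
  refine fg_of_map _ hS (hU.image ρ) cl q (fun h hh g => un _ _ ?_ ?_) (fun g s hs n => ?_)
    fun g => ed _ (q1 g)
  · simpa only [show h • v = v from hh] using act h _ _ (q1 g)
  · rcases q2 g with m | ⟨e, m⟩
    · exact .inl (by simpa only [show h • v = v from hh, mul_smul] using side_smul act h m)
    · exact .inr ⟨by rw [mul_smul, e, show h • v = v from hh], by rw [mul_smul, ← m]⟩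
  · have e := hρ (g⁻¹ • v) g (smul_inv_smul _ _)
    refine ⟨g * (ρ (g⁻¹ • v))⁻¹, ?_, _, ⟨g⁻¹ • v, mem_iUnion₂.2 ⟨s, hs, ?_⟩, rfl⟩, by simp⟩
    · rw [mem_stabilizer_iff, mul_smul, (inv_smul_eq_iff.2 e.symm :), smul_inv_smul]
    rcases q2 g with m | ⟨e, -⟩
    swap
    · exact .inl (inv_smul_eq_iff.2 e.symm)
    rcases q2 (g * s) with m' | ⟨e, -⟩
    swap
    · exact .inr (.inl (by rw [inv_smul_eq_iff, ← mul_smul, e]))
    refine .inr (.inr ⟨(g⁻¹ • v, g⁻¹ • q g), fun k => n (side_uniq hT (q1 _) (q1 _) m' ?_), rfl⟩)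
    rw [← side_iff act g, ← side_iff act g (x := v)] at k
    simp only [smul_inv_smul] at k
    rw [mul_smul]
    exact k.2 m

end Tree

/-- vertex groups of a splitting along tori -/
theorem jsj_fg (fg : Group.FG G) (J : To.Top.Jsj G Γ) (v : V) : (stabilizer G v).FG :=
  stab_fg fg J.tree J.act v fun w k => by
    obtain ⟨a, b, -, -, e⟩ := J.edge v w k
    exact (Subgroup.fg_iff _).2 ⟨_, e.symm, toFinite _⟩

end Pool.Agent.Work.MP_3d425c_gt.Sv
end

-- merged part: Pool.Agent.Work.MP_3d425c_gt.Sv.BH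
section
/-! Burns-Hale with an arbitrary pairing of signs; orders that detect slopes from characters. -/

namespace Pool.Agent.Work.MP_3d425c_gt.Sv
open Set Filter Subgroup Pool.Agent.Work.MP_3d425c_gt.Gl

variable {G : Type*} [Group G]

/-- the signed generators -/
def bhGen (F : Set G) (σ : G → Prop) : Set G :=
  {y | ∃ x ∈ F, (σ x ∧ y = x) ∨ (¬ σ x ∧ y = x⁻¹)}

/-- a character of the group generated by `F` that respects the pairing `R` -/
def BhChar (R : G → G → Prop) (F : Finset G) (χ : G → ℝ) : Prop :=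
  (∀ a ∈ closure (F : Set G), ∀ b ∈ closure (F : Set G), χ (a * b) = χ a + χ b) ∧
    (∃ a ∈ F, χ a ≠ 0) ∧ ∀ a ∈ F, ∀ b ∈ F, R a b → (χ a = 0 → χ b = 0) ∧ (0 < χ a → 0 < χ b)

theorem bh_fin (H : Subgroup G) (R : G → G → Prop)
    (h : ∀ F : Finset G, (∀ x ∈ F, x ∈ H ∧ x ≠ 1) → F.Nonempty → ∃ χ, BhChar R F χ) (n : ℕ) :
    ∀ F : Finset G, F.card ≤ n → (∀ x ∈ F, x ∈ H ∧ x ≠ 1) →
      ∃ σ : G → Prop, (∀ y ∈ Subsemigroup.closure (bhGen (F : Set G) σ), y ≠ 1) ∧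
        ∀ a ∈ F, ∀ b ∈ F, R a b → σ a → σ b := by
  classical
  induction n with
  | zero =>
    intro F hF _
    refine ⟨fun _ => True, fun y hy => ?_, fun _ _ _ _ _ _ => trivial⟩
    obtain rfl : F = ∅ := Finset.card_eq_zero.1 (Nat.le_zero.1 hF)
    exfalso
    induction hy using Subsemigroup.closure_induction with
    | mem x hx => obtain ⟨x, hx, _⟩ := hx; simp at hx
    | mul a b _ _ ha _ => exact ha
  | succ n ih =>
    intro F hF hFH
    rcases F.eq_empty_or_nonempty with hF0 | ne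
    · exact ih F (by simp [hF0]) hFH
    obtain ⟨ψ, hmul, ⟨x0, hx0, hx00⟩, hp⟩ := h F hFH ne
    set E := closure (F : Set G) with hE
    have h1 : ψ 1 = 0 := by
      have := hmul 1 E.one_mem 1 E.one_mem
      rw [mul_one] at this
      linarith
    have hinv : ∀ a ∈ E, ψ a⁻¹ = - ψ a := fun a ha => by
      have := hmul a ha _ (E.inv_mem ha)
      rw [mul_inv_cancel, h1] at this
      linarith
    have hFE : ∀ x ∈ F, x ∈ E := fun x hx => subset_closure hx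
    have hcard : (F.filter fun x => ψ x = 0).card ≤ n := by
      have : (F.filter fun x => ψ x = 0).card < F.card :=
        Finset.card_lt_card (Finset.filter_ssubset.2 ⟨x0, hx0, hx00⟩)
      omega
    obtain ⟨σ0, hσ0, hσ1⟩ := ih _ hcard (fun x hx => hFH x (Finset.mem_filter.1 hx).1)
    refine ⟨fun x => if ψ x = 0 then σ0 x else 0 < ψ x, fun y hy hy1 => ?_,
      fun a ha b hb hab k => ?_⟩
    · have key : y ∈ E ∧ (0 < ψ y ∨ (ψ y = 0 ∧ y ∈ Subsemigroup.closure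
          (bhGen ((F.filter fun x => ψ x = 0 : Finset G) : Set G) σ0))) := by
        clear hy1
        induction hy using Subsemigroup.closure_induction with
        | mem y hy =>
          obtain ⟨x, hx, hy⟩ := hy
          have hxE := hFE x hx
          by_cases h0 : ψ x = 0
          · have hxf : x ∈ ((F.filter fun x => ψ x = 0 : Finset G) : Set G) :=
              Finset.mem_coe.2 (Finset.mem_filter.2 ⟨hx, h0⟩)
            simp only [if_pos h0] at hy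
            rcases hy with ⟨k, rfl⟩ | ⟨k, rfl⟩
            · exact ⟨hxE, .inr ⟨h0, Subsemigroup.subset_closure ⟨_, hxf, .inl ⟨k, rfl⟩⟩⟩⟩
            · exact ⟨E.inv_mem hxE, .inr ⟨by rw [hinv x hxE, h0, neg_zero],
                Subsemigroup.subset_closure ⟨_, hxf, .inr ⟨k, rfl⟩⟩⟩⟩
          · simp only [if_neg h0] at hy
            rcases hy with ⟨k, rfl⟩ | ⟨k, rfl⟩
            · exact ⟨hxE, .inl k⟩
            · exact ⟨E.inv_mem hxE, .inl (by
                rw [hinv x hxE]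
                exact neg_pos.2 (lt_of_le_of_ne (not_lt.1 k) h0))⟩
        | mul a b _ _ ha hb =>
          refine ⟨E.mul_mem ha.1 hb.1, ?_⟩
          rw [hmul a ha.1 b hb.1]
          rcases ha.2 with k | ⟨k, k'⟩ <;> rcases hb.2 with l | ⟨l, l'⟩
          · left; linarith
          · left; linarith
          · left; linarith
          · right; exact ⟨by linarith, Subsemigroup.mul_mem _ k' l'⟩
      rcases key.2 with k | ⟨_, k⟩
      · rw [hy1, h1] at k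
        exact lt_irrefl _ k
      · exact hσ0 y k hy1
    · obtain ⟨e1, e2⟩ := hp a ha b hb hab
      by_cases h0 : ψ a = 0
      · simp only [if_pos h0] at k
        simp only [if_pos (e1 h0)]
        exact hσ1 a (Finset.mem_filter.2 ⟨ha, h0⟩) b (Finset.mem_filter.2 ⟨hb, e1 h0⟩) hab k
      · simp only [if_neg h0] at k
        simp only [if_neg (e2 k).ne']
        exact e2 k

/-- Burns-Hale with paired signs. -/
theorem bh_rel (H : Subgroup G) (R : G → G → Prop)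
    (h : ∀ F : Finset G, (∀ x ∈ F, x ∈ H ∧ x ≠ 1) → F.Nonempty → ∃ χ, BhChar R F χ) :
    ∃ r, Lin H r ∧ Inv H H r ∧ ∀ a ∈ H, ∀ b ∈ H, b ≠ 1 → R a b → r 1 a → r 1 b := by
  classical
  choose τ hτ hτ' using fun F : Finset G => bh_fin H R h _ (F.filter fun x => x ∈ H ∧ x ≠ 1)
    le_rfl fun x hx => (Finset.mem_filter.1 hx).2
  let U : Ultrafilter (Finset G) := Ultrafilter.of atTop
  have hU : ∀ x : G, ∀ᶠ F in (U : Filter (Finset G)), x ∈ F := fun x => by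
    apply Ultrafilter.of_le
    filter_upwards [eventually_ge_atTop ({x} : Finset G)] with F hF
    exact hF (Finset.mem_singleton_self x)
  let σ : G → Prop := fun x => ∀ᶠ F in (U : Filter (Finset G)), τ F x
  let P := Subsemigroup.closure (bhGen {x | x ∈ H ∧ x ≠ 1} σ)
  have hn : ∀ a ∈ P, a ≠ 1 := by
    intro a ha
    have key : ∀ᶠ F in (U : Filter (Finset G)), a ∈ Subsemigroup.closure
        (bhGen ((F.filter fun x => x ∈ H ∧ x ≠ 1 : Finset G) : Set G) (τ F)) := by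
      induction ha using Subsemigroup.closure_induction with
      | mem y hy =>
        obtain ⟨x, hx, ⟨k, rfl⟩ | ⟨k, rfl⟩⟩ := hy
        · filter_upwards [k, hU y] with F h2 h3
          exact Subsemigroup.subset_closure ⟨y,
            Finset.mem_coe.2 (Finset.mem_filter.2 ⟨h3, hx⟩), .inl ⟨h2, rfl⟩⟩
        · have k' : ∀ᶠ F in (U : Filter (Finset G)), ¬ τ F x := Ultrafilter.eventually_not.2 k
          filter_upwards [k', hU x] with F h2 h3
          exact Subsemigroup.subset_closure ⟨x,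
            Finset.mem_coe.2 (Finset.mem_filter.2 ⟨h3, hx⟩), .inr ⟨h2, rfl⟩⟩
      | mul a b _ _ ha hb =>
        filter_upwards [ha, hb] with F h2 h3
        exact Subsemigroup.mul_mem _ h2 h3
    obtain ⟨F, hF⟩ := key.exists
    exact hτ F a hF
  have hpos : ∀ x ∈ H, x ≠ 1 → σ x → x ∈ P := fun x hx n k =>
    Subsemigroup.subset_closure ⟨x, ⟨hx, n⟩, .inl ⟨k, rfl⟩⟩
  have hneg : ∀ x ∈ H, x ≠ 1 → ¬ σ x → x⁻¹ ∈ P := fun x hx n k =>
    Subsemigroup.subset_closure ⟨x, ⟨hx, n⟩, .inr ⟨k, rfl⟩⟩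
  refine ⟨fun x y => x⁻¹ * y ∈ P, ⟨fun x _ k => hn _ k (inv_mul_cancel x),
    fun x _ y _ z _ k l => ?_, fun x hx y hy n => ?_⟩, fun g _ x _ y _ k => ?_,
    fun a ha b hb n e k => ?_⟩
  · have := P.mul_mem k l
    rwa [mul_assoc, mul_inv_cancel_left] at this
  · have m := H.mul_mem (H.inv_mem hx) hy
    have n' : x⁻¹ * y ≠ 1 := fun e => n (inv_mul_eq_one.1 e)
    by_cases k : σ (x⁻¹ * y)
    · exact .inl (hpos _ m n' k)
    · exact .inr (by simpa using hneg _ m n' k)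
  · show (g * x)⁻¹ * (g * y) ∈ P
    rwa [mul_inv_rev, mul_assoc, inv_mul_cancel_left]
  · simp only [inv_one, one_mul] at k ⊢
    have a1 := hn a k
    have h1 : σ a := by_contra fun h1 => hn _ (P.mul_mem k (hneg a ha a1 h1)) (mul_inv_cancel a)
    refine hpos b hb n ?_
    filter_upwards [h1, hU a, hU b] with F h2 h3 h4
    exact hτ' F a (Finset.mem_filter.2 ⟨h3, ha, a1⟩) b (Finset.mem_filter.2 ⟨h4, hb, n⟩) e h2

/-- An order that detects the slopes, from characters on the finitely generated subgroups. -/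
theorem ord_of_chars (A : Subgroup G) (F : Set (Subgroup G × (G → ℝ)))
    (hF : ∀ f ∈ F, f.1 ≤ A ∧ f.2 1 = 0)
    (h : ∀ E ≤ A, E.FG → E ≠ ⊥ → ∃ χ : G → ℝ, (∀ a ∈ E, ∀ b ∈ E, χ (a * b) = χ a + χ b) ∧
      (∃ a ∈ E, χ a ≠ 0) ∧ ∀ f ∈ F, ∀ y ∈ A, ∀ p ∈ f.1, ∀ q ∈ f.1, y⁻¹ * p * y ∈ E →
        y⁻¹ * q * y ∈ E → χ (y⁻¹ * p * y) * f.2 q = χ (y⁻¹ * q * y) * f.2 p) :
    ∃ r, Ord A F r := by
  obtain ⟨r, l, i, d⟩ := bh_rel A (fun a b => ∃ f ∈ F, ∃ y ∈ A, ∃ p ∈ f.1, ∃ q ∈ f.1,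
      0 < f.2 p ∧ 0 < f.2 q ∧ a = y⁻¹ * p * y ∧ b = y⁻¹ * q * y) fun S hS ⟨x, hx⟩ => by
    obtain ⟨χ, c1, ⟨a, ha, c2⟩, c3⟩ := h (closure (S : Set G))
      ((closure_le _).2 fun x hx => (hS x hx).1) ⟨S, rfl⟩ fun e =>
        (hS x hx).2 (mem_bot.1 (e ▸ subset_closure hx))
    refine ⟨χ, c1, by_contra fun n => c2 ?_, ?_⟩
    · push Not at n
      have z : χ 1 = 0 := by
        have := c1 1 (one_mem _) 1 (one_mem _)
        rw [mul_one] at this
        linarith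
      clear c2
      induction ha using closure_induction with
      | mem x hx => exact n x hx
      | one => exact z
      | mul a b ha hb h1 h2 => rw [c1 a ha b hb, h1, h2, add_zero]
      | inv a ha h1 =>
        have := c1 a ha _ (inv_mem ha)
        rw [mul_inv_cancel, z, h1] at this
        linarith
    · rintro _ ha _ hb ⟨f, hf, y, hy, p, hp, q, hq, sp, sq, rfl, rfl⟩
      have e := c3 f hf y hy p hp q hq (subset_closure ha) (subset_closure hb)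
      exact ⟨fun z => by
          rw [z, zero_mul] at e
          exact (mul_eq_zero.1 e.symm).resolve_right sp.ne',
        fun k => (mul_pos_iff_of_pos_right sp).1 (e ▸ mul_pos k sq)⟩
  refine ⟨r, l, i, fun f hf y hy p hp q hq sp sq k => ?_⟩
  have m : ∀ p ∈ f.1, y⁻¹ * p * y ∈ A := fun p hp =>
    A.mul_mem (A.mul_mem (A.inv_mem hy) ((hF f hf).1 hp)) hy
  have k1 := i y⁻¹ (A.inv_mem hy) y hy _ (A.mul_mem ((hF f hf).1 hp) hy) k
  rw [inv_mul_cancel, ← mul_assoc] at k1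
  have k2 := i y hy 1 A.one_mem _ (m q hq) (d _ (m p hp) _ (m q hq) (fun e => by
    have : q = 1 := by simpa [mul_assoc, inv_mul_eq_one] using e
    rw [this, (hF f hf).2] at sq
    exact lt_irrefl _ sq) ⟨f, hf, y, hy, p, hp, q, hq, sp, sq, rfl, rfl⟩ k1)
  simpa [mul_assoc] using k2

/-- A group all of whose finitely generated subgroups have characters is left orderable. -/
theorem lo_of_chars (A : Subgroup G)
    (h : ∀ E ≤ A, E.FG → E ≠ ⊥ → ∃ χ : G → ℝ, (∀ a ∈ E, ∀ b ∈ E, χ (a * b) = χ a + χ b) ∧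
      ∃ a ∈ E, χ a ≠ 0) : ∃ t, Lin A t ∧ Inv A A t :=
  let ⟨r, l, i, _⟩ := ord_of_chars A ∅ (fun _ k => k.elim) fun E a b c =>
    let ⟨χ, x, y⟩ := h E a b c
    ⟨χ, x, y, fun _ k => k.elim⟩
  ⟨r, l, i⟩

end Pool.Agent.Work.MP_3d425c_gt.Sv
end

-- merged part: Pool.Agent.Work.MP_3d425c_gt.Sv.Chr
section
/-! One character of a vertex group that fits the slopes gives an order that detects them. -/

namespace Pool.Agent.Work.MP_3d425c_gt.Sv
open Set MulAction Pool.Agent.Work.MP_3d425c_gt.Md Pool.Agent.Work.MP_3d425c_gt.Bq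
  Pool.Agent.Work.MP_3d425c_gt.To Pool.Agent.Work.MP_3d425c_gt.To.Top

/-- more than `k` characters: one of them satisfies `k` linear conditions -/
theorem lin_room {D : Type*} [Group D] {k : ℕ} (Λ : Fin k → (D → ℝ) →ₗ[ℝ] ℝ)
    (nd : ∀ κ : Fin k → D, ¬ Det κ) : ∃ χ : D → ℝ, (∀ a b, χ (a * b) = χ a + χ b) ∧
      (∃ a, χ a ≠ 0) ∧ ∀ i, Λ i χ = 0 := by
  let U : Submodule ℝ (D → ℝ) :=
    { carrier := {χ | ∀ a b, χ (a * b) = χ a + χ b}
      add_mem' := fun {x y} hx hy a b => by simp only [Pi.add_apply, hx a b, hy a b]; ring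
      zero_mem' := fun a b => by simp
      smul_mem' := fun t x hx a b => by simp only [Pi.smul_apply, hx a b, smul_add] }
  let L : U →ₗ[ℝ] Fin k → ℝ := LinearMap.pi fun i => Λ i ∘ₗ U.subtype
  have ni : ¬ Function.Injective L := fun inj => by
    have := Module.Finite.of_injective L inj
    obtain ⟨κ', h⟩ := gp_det (1 : D) k U
      ((LinearMap.finrank_le_finrank_of_injective inj).trans (by simp))
    refine nd κ' fun φ e => MonoidHom.ext fun x => ?_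
    exact congrFun (h (fun g => (φ g).toAdd) (fun a b => by simp) fun i => by simp [e i]) x
  rw [injective_iff_map_eq_zero] at ni
  push Not at ni
  obtain ⟨χ, h0, n0⟩ := ni
  exact ⟨χ.1, χ.2, Function.ne_iff.1 fun e => n0 (Subtype.ext e), congrFun h0⟩

section
variable {G : Type*} [Group G] {K : Subgroup G} {χ s : G → ℝ}

theorem pair_ok (c : Gr.Ad K χ) (d : Gr.Ad K s) {a b : G} (ha : a ∈ K) (hb : b ∈ K)
    (e : χ a * s b = χ b * s a) (i j m n : ℤ) :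
    χ (a ^ i * b ^ j) * s (a ^ m * b ^ n) = χ (a ^ m * b ^ n) * s (a ^ i * b ^ j) := by
  simp only [c _ (K.zpow_mem ha _) _ (K.zpow_mem hb _), d _ (K.zpow_mem ha _) _ (K.zpow_mem hb _),
    c.zpow ha, c.zpow hb, d.zpow ha, d.zpow hb, zsmul_eq_mul]
  linear_combination (i * n - j * m : ℝ) * e

theorem cyc_ok (c : Gr.Ad K χ) (d : Gr.Ad K s) (h : IsCyclic K) {p q : G} (hp : p ∈ K)
    (hq : q ∈ K) : χ p * s q = χ q * s p := by
  obtain ⟨z, hz⟩ := h.exists_zpow_surjective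
  obtain ⟨i, hi⟩ := hz ⟨p, hp⟩
  obtain ⟨j, hj⟩ := hz ⟨q, hq⟩
  have := pair_ok c d z.2 z.2 rfl i 0 j 0
  rwa [zpow_zero, mul_one, mul_one, show z.1 ^ i = p from congrArg Subtype.val hi,
    show z.1 ^ j = q from congrArg Subtype.val hj] at this

theorem ext0 {χ : K → ℝ} (c : ∀ a b, χ (a * b) = χ a + χ b) :
    ∃ ψ : G → ℝ, Gr.Ad K ψ ∧ ∀ x : K, ψ x = χ x := by
  classical
  have e : ∀ x : K, (fun y => if h : y ∈ K then χ ⟨y, h⟩ else 0) x.1 = χ x := fun x => dif_pos x.2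
  exact ⟨fun y => if h : y ∈ K then χ ⟨y, h⟩ else 0, fun a ha b hb =>
    (e (⟨a, ha⟩ * ⟨b, hb⟩)).trans ((c _ _).trans (by rw [← e, ← e])), e⟩

theorem chr_cyc (tf : ∀ a : G, a ≠ 1 → ¬ IsOfFinOrder a) (h : IsCyclic K) (n : K ≠ ⊥) :
    ∃ χ : G → ℝ, Gr.Ad K χ ∧ ∃ a ∈ K, χ a ≠ 0 := by
  obtain ⟨z, hz⟩ := h.exists_zpow_surjective
  have z1 : z.1 ≠ 1 := fun e => n ((Subgroup.eq_bot_iff_forall K).2 fun x hx => by
    obtain ⟨i, hi⟩ := hz ⟨x, hx⟩
    rw [← show z.1 ^ i = x from congrArg Subtype.val hi, e, one_zpow])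
  choose f hf using hz
  have u : ∀ x i, z ^ i = x → f x = i := fun x i e =>
    injective_zpow_iff_not_isOfFinOrder.2 (tf _ z1)
      (congrArg Subtype.val ((hf x).trans e.symm) : z.1 ^ f x = z.1 ^ i)
  obtain ⟨ψ, a, b⟩ := ext0 (χ := fun x => (f x : ℝ)) fun a b => by
    rw [u (a * b) (f a + f b) (by rw [zpow_add]; exact congrArg₂ _ (hf a) (hf b)), Int.cast_add]
  exact ⟨ψ, a, z, z.2, by rw [b, u z 1 (zpow_one z)]; simp⟩

theorem inf_of_ker {A : Subgroup G} (c : Gr.Ad A χ) (n : ∃ a ∈ A, χ a ≠ 0)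
    (z : ∀ a ∈ K, χ a = 0) : ¬ (K.subgroupOf A).FiniteIndex := fun f => by
  obtain ⟨a, ha, n⟩ := n
  obtain ⟨m, m0, -, hm⟩ := Subgroup.exists_pow_mem_of_index_ne_zero f.1 (⟨a, ha⟩ : A)
  have := z (a ^ (m : ℤ)) (by rw [zpow_natCast]; exact hm)
  rw [c.zpow ha, smul_eq_zero] at this
  exact n (this.resolve_left (by exact_mod_cast m0.ne'))

end

variable {G V : Type} [Group G] [MulAction G V] {Γ : SimpleGraph V} {v : V} {s : V → G → ℝ}

theorem room (tf : ∀ a : G, a ≠ 1 → ¬ IsOfFinOrder a) (J : Tre G Γ) (R : Rank G Γ v)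
    (S : Slp Γ v s) {E : Subgroup G} (le : E ≤ stabilizer G v) (fg : E.FG) (ne : E ≠ ⊥) {Ω : Set V}
    (inv : ∀ g ∈ E, ∀ w ∈ Ω, g • w ∈ Ω)
    (hi : ¬ (E.subgroupOf (stabilizer G v)).FiniteIndex ∨ ∃ u ∈ Ω, Γ.Adj v u) :
    ∃ χ, Cpt Γ v s E Ω χ := by
  have ad : ∀ w, Γ.Adj v w → Gr.Ad (E ⊓ stabilizer G w) (s w) := fun w a =>
    Gr.Ad.mono (S.add w a) (inf_le_inf_right _ le)
  by_cases cy : IsCyclic E
  · obtain ⟨χ, c, n⟩ := chr_cyc tf cy ne
    exact ⟨χ, c, n, fun w a _ p hp e q hq f => cyc_ok (c.mono inf_le_left) (ad w a)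
      (Subgroup.isCyclic_of_le inf_le_left) ⟨hp, e.2⟩ ⟨hq, f.2⟩⟩
  let Fm : ∀ k, (Fin k → V) → Prop := fun k w => (∀ i, Γ.Adj v (w i) ∧ w i ∉ Ω) ∧
    (∀ i j, ∀ g ∈ E, g • w i = w j → i = j) ∧
      ∀ i, ¬ IsCyclic (E ⊓ stabilizer G (w i) : Subgroup G)
  have key : ∀ k w, Fm k w → ∀ n (κ : Fin n → E), n ≤ k → ¬ Bq.Det κ := fun k w hw n κ l d =>
    cy (R E le fg k w (fun i => (hw.1 i).1) hw.2.1 hw.2.2 (hi.imp_right fun ⟨u, m, a⟩ =>
      ⟨u, a, fun i g hg e => (hw.1 i).2 (inv_smul_smul g (w i) ▸ inv _ (inv_mem hg) _ (e ▸ m))⟩)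
      n κ d l)
  obtain ⟨n, κ₀, d₀⟩ := gp_gen ((Group.fg_iff_subgroup_fg E).2 fg)
  obtain ⟨k, ⟨w, hw⟩, mx⟩ := gp_max (F := fun k => ∃ w, Fm k w) (n := n)
    ⟨Fin.elim0, fun i => i.elim0, fun i => i.elim0, fun i => i.elim0⟩
    fun ⟨w, hw⟩ => key n w hw n κ₀ le_rfl d₀
  choose a b _ _ h using fun i => d1_basis _ _ (inf_le_inf_right _ le)
    (J.iso _ _ (hw.1 i).1).some (hw.2.2 i)
  have ma := fun i => (h i (a i)).2 ⟨1, 0, by simp⟩
  have mb := fun i => (h i (b i)).2 ⟨0, 1, by simp⟩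
  obtain ⟨φ, c1, ⟨x, c2⟩, c3⟩ := lin_room (D := E) (fun i =>
    s (w i) (b i) • LinearMap.proj (⟨a i, (ma i).1⟩ : E) -
      s (w i) (a i) • LinearMap.proj (⟨b i, (mb i).1⟩ : E)) fun κ => key k w hw k κ le_rfl
  obtain ⟨χ, c, e⟩ := ext0 c1
  refine ⟨χ, c, ⟨x, x.2, by rwa [e]⟩, fun u hu o p hp fp q hq fq => ?_⟩
  by_cases nc : IsCyclic (E ⊓ stabilizer G u : Subgroup G)
  · exact cyc_ok (c.mono inf_le_left) (ad u hu) nc ⟨hp, fp.2⟩ ⟨hq, fq.2⟩
  obtain ⟨i, g, hg, f⟩ : ∃ i, ∃ g ∈ E, g • u = w i := by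
    by_contra m
    push Not at m
    refine mx ⟨Fin.cons u w, Fin.cases ⟨hu, o⟩ hw.1, fun i j g hg => ?_, Fin.cases nc hw.2.2⟩
    refine Fin.cases ?_ (fun i => ?_) i <;> refine Fin.cases ?_ (fun j => ?_) j
    · exact fun _ => rfl
    · exact fun e => absurd e (m j g hg)
    · exact fun e => absurd (inv_smul_eq_iff.2 e.symm) (m i _ (inv_mem hg))
    · exact fun e => congrArg Fin.succ (hw.2.1 i j g hg e)
  have t : ∀ p ∈ E, p ∈ Eg G v u → ∃ m n : ℤ, χ p = χ (a i ^ m * b i ^ n) ∧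
      s u p = s (w i) (a i ^ m * b i ^ n) := fun p hp fp => by
    obtain ⟨m, n, r⟩ := (h i (g * p * g⁻¹)).1 ⟨E.mul_mem (E.mul_mem hg hp) (E.inv_mem hg),
      f ▸ ((conj_Eg g).2 fp).2⟩
    exact ⟨m, n, by rw [← r, c.conj hg hp], by rw [← r, ← f, S.eqv g u (le hg) hu p fp]⟩
  obtain ⟨m, n, p1, p2⟩ := t p hp fp
  obtain ⟨m', n', q1, q2⟩ := t q hq fq
  rw [p1, p2, q1, q2]
  refine pair_ok (c.mono inf_le_left) (ad _ (hw.1 i).1) (ma i) (mb i) ?_ _ _ _ _
  have r : s (w i) (b i) * φ ⟨a i, (ma i).1⟩ - s (w i) (a i) * φ ⟨b i, (mb i).1⟩ = 0 := c3 i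
  rw [← e, ← e] at r
  linear_combination r

/-- One character of the vertex group that fits the slopes is enough. -/
theorem ord_of_chi (tf : ∀ a : G, a ≠ 1 → ¬ IsOfFinOrder a) (J : Tre G Γ) (R : Rank G Γ v)
    (S : Slp Γ v s) {χ : G → ℝ} (c : Cpt Γ v s (stabilizer G v) ∅ χ) :
    ∃ r, Gl.Ord (stabilizer G v) (Fam Γ v s) r := by
  refine ord_of_chars _ _ (by
    rintro _ ⟨w, a, rfl⟩
    exact ⟨inf_le_left, Gr.Ad.one (S.add w a)⟩) fun E hE fg ne => ?_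
  obtain ⟨ψ, d, m, f⟩ : ∃ ψ, Cpt Γ v s E ∅ ψ := by
    by_cases z : ∃ a ∈ E, χ a ≠ 0
    · exact ⟨χ, Gr.Ad.mono c.1 hE, z, fun w a o p hp e q hq f =>
        c.2.2 w a o p (hE hp) e q (hE hq) f⟩
    push Not at z
    exact room tf J R S hE fg ne (fun _ _ _ k => k) (.inl (inf_of_ker c.1 c.2.1 z))
  refine ⟨ψ, d, m, ?_⟩
  rintro _ ⟨w, a, rfl⟩ y hy p hp q hq mp mq
  have y1 : y⁻¹ • v = v := inv_mem hy
  have k := S.eqv y⁻¹ w y1 a
  have l := fun p (hp : p ∈ Eg G v w) => (conj_Eg y⁻¹).2 hp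
  simp only [inv_inv, y1] at k l
  have := f (y⁻¹ • w) (y1 ▸ J.top.act y⁻¹ v w a) id _ mp (l p hp) _ mq (l q hq)
  rwa [k p hp, k q hq] at this

end Pool.Agent.Work.MP_3d425c_gt.Sv
end

-- merged part: Pool.Agent.Work.MP_3d425c_gt.Sv.Out
section
/-! A vertex with a normal cyclic subgroup in all edge groups detects suitable slopes. -/

namespace Pool.Agent.Work.MP_3d425c_gt.Sv
open Set MulAction Subgroup Pool.Agent.Work.MP_3d425c_gt.Md Pool.Agent.Work.MP_3d425c_gt.Cy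
  Pool.Agent.Work.MP_3d425c_gt.Bg Pool.Agent.Work.MP_3d425c_gt.Gl Pool.Agent.Work.MP_3d425c_gt.Bq
  Pool.Agent.Work.MP_3d425c_gt.To Pool.Agent.Work.MP_3d425c_gt.To.Ax
  Pool.Agent.Work.MP_3d425c_gt.To.Top

variable {G X0 X1 X2 X3 V : Type} [Group G] [MulAction G X0] [MulAction G X1] [MulAction G X2]
  [MulAction G X3] [MulAction G V] {T : Tri G X0 X1 X2 X3} {Γ : SimpleGraph V}
  {X : Type*} [MulAction G X] {C : Set (ℝ → X)} {up : X → X → Prop} {v : V} {h : G}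
  {σ : V → V → G → ℝ}

/-- The kernel of a broken axis contains a fibre. -/
theorem ou_zig (H : Om G C up) (cy : Cv.Cyc G X) {A : Subgroup G} (h1 : h ≠ 1)
    (nm : ∀ g ∈ A, g * h * g⁻¹ = h ∨ g * h * g⁻¹ = h⁻¹) {P : Subgroup G} (hh : h ∈ P) {s : G → ℝ}
    (sl : Sl P s) (Z : Ph.Zig C up P s) (nt : ∃ τ ∈ P, τ ≠ 1 ∧ s τ = 0) :
    ∃ τ ∈ P, τ ≠ 1 ∧ s τ = 0 ∧ ∀ g ∈ A, g * τ * g⁻¹ ∈ zpowers τ := by
  by_cases s0 : s h = 0
  · exact ⟨h, hh, h1, s0, fun g hg => (nm g hg).elim (fun e => e.symm ▸ mem_zpowers h)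
      fun e => e.symm ▸ inv_mem (mem_zpowers h)⟩
  obtain ⟨τ, t1, t2, t3⟩ := nt
  obtain ⟨k, hk, kP, sk⟩ := Ph.line_sgn sl hh s0
  obtain ⟨m, ν, Z⟩ := Z
  have e := (Z k kP).1.1 sk
  have cj : ∀ g ∈ A, g * k * g⁻¹ = k ∨ g * k * g⁻¹ = k⁻¹ := fun g hg => by
    rcases hk with rfl | rfl
    · exact nm g hg
    · rw [show g * h⁻¹ * g⁻¹ = (g * h * g⁻¹)⁻¹ by group]
      exact (nm g hg).imp (congrArg _) (congrArg _)
  obtain ⟨z, hz⟩ := cy ν
  let K : Subgroup G := centralizer {k} ⊓ MulAction.stabilizer G ν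
  have mk : ∀ a : G, a ∈ K ↔ k * a = a * k ∧ a • ν = ν := fun a => by
    simp only [K, Subgroup.mem_inf, Subgroup.mem_centralizer_iff, mem_singleton_iff, forall_eq,
      MulAction.mem_stabilizer_iff]
  have : IsCyclic K := isCyclic_of_le (H' := zpowers z) fun a ha => hz a ((mk a).1 ha).2
  obtain ⟨⟨w, hw⟩, e1⟩ := IsCyclic.exists_generator (α := K)
  have e2 : ∀ a ∈ K, ∃ j : ℤ, w ^ j = a := fun a ha =>
    (e1 ⟨a, ha⟩).imp fun j q => congrArg Subtype.val q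
  obtain ⟨i, rfl⟩ := e2 τ ((mk τ).2 ⟨sl.comm k kP τ t1, ((Z τ t1).2.1 t3).2⟩)
  refine ⟨_, t1, t2, t3, fun g hg => ?_⟩
  obtain ⟨j, q⟩ := e2 _ ((mk _).2 (e.normal H ((mk w).1 hw).1 ((mk w).1 hw).2
    (cj _ (inv_mem hg))))
  rw [inv_inv] at q
  refine ⟨j, ?_⟩
  simp only [← conj_zpow, ← q, ← zpow_mul]
  congr 1
  ring

theorem ou_conj {χ : G → ℝ} (a : Adv (stabilizer G v) χ) {g p : G} (hg : g • v = v)
    (hp : p • v = v) : χ (g * p * g⁻¹) = χ p := by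
  have m : g * p * g⁻¹ ∈ stabilizer G v := mul_mem (mul_mem hg hp) (inv_mem hg)
  have e1 := a _ m g hg
  have e2 := a g hg p hp
  rw [inv_mul_cancel_right] at e1
  linarith

theorem ou_prp {s : V → G → ℝ} (S : Slp Γ v s) {χ : G → ℝ} (a : Adv (stabilizer G v) χ) {g : G}
    (hg : g • v = v) {w : V} (hw : Γ.Adj v w) (k : Prp (stabilizer G v) v s χ (g • w)) :
    Prp (stabilizer G v) v s χ w := fun p _ hp q _ hq => by
  have m : ∀ p ∈ Eg G v w, g * p * g⁻¹ ∈ Eg G v (g • w) := fun p hp => by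
    simpa only [hg] using (conj_Eg g).2 hp
  have := k _ (m p hp).1 (m p hp) _ (m q hq).1 (m q hq)
  rwa [ou_conj a hg hp.1, ou_conj a hg hq.1, S.eqv g w hg hw p hp, S.eqv g w hg hw q hq] at this

/-- The output at a vertex with a fibre. -/
theorem sf_fib (hM : Mfd T) (tf : ∀ a : G, a ≠ 1 → ¬ IsOfFinOrder a) (J : Tre G Γ)
    (R : Rank G Γ v) (H : Om G C up) (cy : Cv.Cyc G X) (S : Slo Γ σ)
    (N : ∀ w, Γ.Adj v w → Nt C up (Eg G v w) (σ v w)) (s : Fib G Γ v h) : SfOut Γ C up σ v := by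
  classical
  have sl : ∀ u, Γ.Adj v u → Sl (Eg G v u) (σ v u) := fun u a => ⟨J.top.comm a, S.add v u a⟩
  have adj : ∀ (g : G) w, g • v = v → Γ.Adj v w → Γ.Adj v (g • w) := fun g w e k => by
    simpa only [e] using J.top.act g _ _ k
  have P : Slp Γ v (σ v) := ⟨fun g w e a p hp => by
    simpa only [e] using S.eqv g v w a p hp, S.add v⟩
  refine ⟨fun u a z => ou_zig H cy (A := stabilizer G v) s.ne s.nm (s.mem u a) (sl u a) z.2.2
    (ker_ne J.top S a z.2.1), ?_⟩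
  obtain ⟨w₀, a₀⟩ := s.one
  have nb : stabilizer G v ≠ ⊥ := fun e => s.ne (mem_bot.1 (e ▸ (s.mem w₀ a₀).1))
  let Ω : Set V := {w | Γ.Adj v w ∧ ¬ ∃ y, Ph.Line C (Eg G v w) (σ v w) y}
  by_cases ex : ∃ χ, Cpt Γ v (σ v) (stabilizer G v) Ω χ
  · obtain ⟨χ, ad, nz, c⟩ := ex
    have cs : ∀ w, Γ.Adj v w → Sl (Eg G v w) χ := fun w a =>
      ⟨J.top.comm a, fun p hp q hq => ad p hp.1 q hq.1⟩
    let Q : V → Prop := Prp (stabilizer G v) v (σ v) χ
    have e2 : ∀ w, Γ.Adj v w → Sl (Eg G v w) (if Q w then σ v w else χ) := fun w a => by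
      split_ifs
      exacts [sl w a, cs w a]
    have P' : Slp Γ v fun w => if Q w then σ v w else χ := by
      refine ⟨fun g w e a p hp => ?_, fun w a => (e2 w a).add⟩
      have i : Q (g • w) ↔ Q w := ⟨ou_prp P ad e a, fun k =>
        ou_prp P ad (inv_smul_eq_iff.2 e.symm) (adj g w e a) (by rwa [inv_smul_smul])⟩
      by_cases k : Q w
      · rw [if_pos k, if_pos (i.2 k), P.eqv g w e a p hp]
      · rw [if_neg k, if_neg (mt i.1 k), ou_conj ad e hp.1]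
    refine ⟨_, P'.eqv, P'.add, fun w a => ?_, fun w a => ?_,
      ord_of_chi tf J R P' ⟨ad, nz, fun w a _ p hp hp' q hq hq' => ?_⟩⟩ <;> beta_reduce <;>
      split_ifs with k
    · exact S.pos v w a
    · by_contra n
      have z : ∀ p ∈ Eg G v w, χ p = 0 := fun p hp => le_antisymm (not_lt.1 fun q => n ⟨p, hp, q⟩)
        (not_lt.1 fun q => n ⟨p⁻¹, inv_mem hp, by rw [(cs w a).inv hp]; linarith⟩)
      exact k fun p _ hp q _ hq => by rw [z p hp, z q hq, zero_mul, zero_mul]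
    · exact .inl fun _ _ => rfl
    · exact .inr ⟨(N w a).resolve_left fun l => k (c w a fun m => m.2 l),
        fun p hp l l' => by_contra fun n => k fun x _ hx y _ hy =>
          ln_prop J.top a (cs w a) (sl w a) n hp l' l x hx y hy⟩
    · exact k p hp hp' q hq hq'
    · exact mul_comm _ _
  have all : ∀ w, Γ.Adj v w → ∃ y, Ph.Line C (Eg G v w) (σ v w) y := fun w a => by_contra fun n =>
    ex (room tf J R P le_rfl s.fg nb (fun g hg u b => ⟨adj g u hg b.1, fun ⟨y, L⟩ =>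
      b.2 ⟨_, line_tr H g (fun p hp => by
        have := (conj_Eg g).2 hp
        rwa [show g • v = v from hg] at this) (fun p hp => (P.eqv g u hg b.1 p hp).symm) L⟩⟩)
      (.inr ⟨w, ⟨a, n⟩, a⟩))
  obtain ⟨χ, ad, nz, -⟩ := room tf J R P le_rfl s.fg nb (Ω := univ) (fun _ _ _ _ => trivial)
    (.inr ⟨w₀, trivial, a₀⟩)
  obtain ⟨t, l, i, -⟩ := ord_of_chi tf J R (s := fun _ => χ) ⟨fun g w e _ p hp => ou_conj ad e hp.1,
    fun w _ p hp q hq => ad p hp.1 q hq.1⟩ ⟨ad, nz, fun _ _ _ _ _ _ _ _ _ => mul_comm _ _⟩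
  exact ⟨σ v, P.eqv, P.add, S.pos v, fun _ _ => .inl fun _ _ => rfl,
    ord_line hM tf J.top H cy S s ⟨t, l, i⟩ all fun χ ad c g hg => by_contra fun n =>
      ex ⟨χ, ad, ⟨g, hg, n⟩, fun w a _ p _ hp q _ hq => c w a p hp q hq⟩⟩

theorem ou_pm (tf : ∀ a : G, a ≠ 1 → ¬ IsOfFinOrder a) (h1 : h ≠ 1) {g : G}
    (a : g * h * g⁻¹ ∈ zpowers h) (b : g⁻¹ * h * g⁻¹⁻¹ ∈ zpowers h) :
    g * h * g⁻¹ = h ∨ g * h * g⁻¹ = h⁻¹ := by
  obtain ⟨m, hm⟩ := a
  obtain ⟨n, hn⟩ := b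
  simp only at hm hn
  have e : h ^ (m * n) = h ^ (1 : ℤ) := by
    rw [zpow_mul, hm, conj_zpow, hn]
    group
  rcases Int.eq_one_or_neg_one_of_mul_eq_one
    (injective_zpow_iff_not_isOfFinOrder.2 (tf h h1) e) with rfl | rfl
  · exact .inl (by rw [← hm, zpow_one])
  · exact .inr (by rw [← hm, zpow_neg_one])

theorem sf_out (hM : Mfd T) (tf : ∀ a : G, a ≠ 1 → ¬ IsOfFinOrder a)
    (hd : ∀ E : Subgroup G, ¬ E.FiniteIndex → E.FG → Bq.Dual T E) (J : Tre G Γ)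
    (H : Om G C up) (cy : Cv.Cyc G X) (S : Slo Γ σ)
    (N : ∀ v w, Γ.Adj v w → Nt C up (Eg G v w) (σ v w)) (F : Sei G Γ v) (nb : ∃ w, Γ.Adj v w) :
    SfOut Γ C up σ v := by
  obtain ⟨h, h1, h2, h3, h4⟩ := F
  obtain ⟨A, W⟩ := walls hM J v
  obtain ⟨K, -, k⟩ := nb_fin (tri_fg T) J.top.tree J.top.act J.red v
  exact sf_fib hM tf J (rank hM tf hd J W) H cy S (N v) ⟨h1, fun g e =>
    ou_pm tf h1 (h4 g e) (h4 _ (inv_smul_eq_iff.2 e.symm)), fun w a => ⟨h2, h3 w a⟩, nb,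
    fun w a => J.red w v a.symm, jsj_fg (tri_fg T) J.top v, K, K.finite_toSet, fun w a =>
      let ⟨g, e, m⟩ := k w a
      ⟨_, m, g⁻¹, inv_smul_eq_iff.2 e.symm, inv_smul_smul _ _⟩⟩

end Pool.Agent.Work.MP_3d425c_gt.Sv
end

-- merged part: Pool.Agent.Work.MP_3d425c_gt.Jw.Root
section
/-! Chords between the ends of the quotient by one element, and roots in centralisers. -/

namespace Pool.Agent.Work.MP_3d425c_gt.Jw
open Set Filter Pool.Agent.Work.MP_3d425c_gt.Md Pool.Agent.Work.MP_3d425c_gt.Cy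
  Pool.Agent.Work.MP_3d425c_gt.Bg Pool.Agent.Work.MP_3d425c_gt.Bq

variable {G X X0 X1 X2 X3 : Type} [Group G] [MulAction G X] [MulAction G X0] [MulAction G X1]
  [MulAction G X2] [MulAction G X3] {T : Tri G X0 X1 X2 X3} {a b c g : G}

/-- independent elements -/
abbrev Ind (a b : G) : Prop := ∀ m n : ℤ, a ^ m * b ^ n = 1 → m = 0 ∧ n = 0

/-- finite modulo the powers of `a` and the positive powers of `b` -/
def Hf (a b : G) (S : Set X) : Prop :=
  ∃ K : Set X, K.Finite ∧ ∀ x ∈ S, ∃ k ∈ K, ∃ (m : ℤ) (n : ℕ), x = (a ^ m * b ^ n) • k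

/-- `b` and `c` give different directions modulo `a` -/
def Dif (a b c : G) : Prop := ∀ (m : ℤ) (n j : ℕ), b ^ n = a ^ m * c ^ j → n = 0 ∧ j = 0

/-- far out in the direction of `b` the set `D` looks like `A` -/
def Lk (b : G) (D A : Set X) : Prop := ∀ x, ∀ᶠ n : ℕ in atTop, (b ^ n • x ∈ D ↔ x ∈ A)

/-- the translate of a set -/
def tr (g : G) (D : Set X) : Set X := {x | g⁻¹ • x ∈ D}

theorem Ind.one (i : Ind a b) (n : ℤ) (k : a ^ n = 1) : n = 0 :=
  (i n 0 (by rw [k, zpow_zero, one_mul])).1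

theorem Dif.symm (d : Dif a b c) : Dif a c b := fun m n j e =>
  (d (-m) j n (by rw [e, zpow_neg, inv_mul_cancel_left])).symm

theorem Ind.dif (i : Ind a b) : Dif a b b⁻¹ := fun m n j e => by
  have := (i m (-(j : ℤ) - n) (by
    rw [zpow_sub, ← mul_assoc, zpow_neg, zpow_natCast, zpow_natCast, ← inv_pow, ← e,
      mul_inv_cancel])).2
  omega

theorem Hf.mono {S S' : Set X} (h : Hf a b S) (k : S' ⊆ S) : Hf a b S' :=
  h.imp fun _ h => ⟨h.1, fun x hx => h.2 x (k hx)⟩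

theorem Hf.union {S S' : Set X} (h : Hf a b S) (h' : Hf a b S') : Hf a b (S ∪ S') := by
  obtain ⟨K, hK, k⟩ := h
  obtain ⟨K', hK', k'⟩ := h'
  refine ⟨K ∪ K', hK.union hK', ?_⟩
  rintro x (hx | hx)
  · exact (k x hx).imp fun _ q => ⟨.inl q.1, q.2⟩
  · exact (k' x hx).imp fun _ q => ⟨.inr q.1, q.2⟩

theorem Hf.of_sm {S : Set X} (h : Sm a S) : Hf a b S :=
  h.imp fun _ h => ⟨h.1, fun x hx => (h.2 x hx).imp fun _ q =>
    ⟨q.1, q.2.imp fun _ e => ⟨0, by rw [pow_zero, mul_one, e]⟩⟩⟩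

theorem Hf.pull {Y : Type} [MulAction G Y] {S : Set X} (h : Hf a b S) {d : Y → X}
    (he : ∀ (g : G) y, d (g • y) = g • d y) (hd : ∀ x, {y | d y = x}.Finite) :
    Hf a b {y | d y ∈ S} := by
  obtain ⟨K, hK, k⟩ := h
  refine ⟨⋃ x ∈ K, {y | d y = x}, hK.biUnion fun x _ => hd x, fun y hy => ?_⟩
  obtain ⟨x, hx, m, n, e⟩ := k _ hy
  exact ⟨(a ^ m * b ^ n)⁻¹ • y, mem_biUnion hx (by
    show d _ = x
    rw [he, e, inv_smul_smul]), m, n, (smul_inv_smul _ _).symm⟩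

theorem Hf.tr (h : Commute a g) {S : Set X} (hS : Hf a b S) : Hf a (g * b * g⁻¹) (tr g S) := by
  obtain ⟨K, hK, k⟩ := hS
  refine ⟨(g • ·) '' K, hK.image _, fun x hx => ?_⟩
  obtain ⟨y, hy, m, n, e⟩ := k _ hx
  refine ⟨_, ⟨y, hy, rfl⟩, m, n, ?_⟩
  show x = _ • g • y
  rw [inv_smul_eq_iff.1 e, ← mul_smul, ← mul_smul, conj_pow, ← mul_assoc,
    ← (h.zpow_left m).eq]
  congr 1
  group

theorem sm_tr (h : Commute a g) {S : Set X} (hS : Sm a S) : Sm a (tr g S) := by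
  obtain ⟨K, hK, k⟩ := hS
  refine ⟨(g • ·) '' K, hK.image _, fun x hx => ?_⟩
  obtain ⟨y, hy, m, e⟩ := k _ hx
  refine ⟨_, ⟨y, hy, rfl⟩, m, ?_⟩
  show x = _ • g • y
  rw [inv_smul_eq_iff.1 e, ← mul_smul, ← mul_smul, (h.zpow_left m).eq]

/-- a different direction is avoided -/
theorem av (hX : ∀ (g : G) (x : X), g • x = x → g = 1) (h : Commute a c) (d : Dif a b c)
    {S : Set X} (hS : Hf a c S) (e : X) : ∀ᶠ n : ℕ in atTop, b ^ n • e ∉ S := by
  classical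
  obtain ⟨K, hK, k⟩ := hS
  have : ∀ y ∈ K, ∀ᶠ n : ℕ in atTop, ¬ ∃ (m : ℤ) (j : ℕ), b ^ n • e = (a ^ m * c ^ j) • y :=
    fun y _ => by
    by_cases ex : ∃ j : ℕ, ∃ (n : ℕ) (m : ℤ), b ^ n • e = (a ^ m * c ^ j) • y
    · obtain ⟨n₁, m₁, e₁⟩ := Nat.find_spec ex
      refine (eventually_gt_atTop n₁).mono ?_
      rintro n hn ⟨m, j, e₂⟩
      obtain ⟨i, hi⟩ := Nat.exists_eq_add_of_le' (Nat.find_min' ex ⟨n, m, e₂⟩)
      obtain ⟨r, rfl⟩ := Nat.exists_eq_add_of_le' hn.le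
      rw [pow_add, mul_smul, e₁, ← mul_smul, hi] at e₂
      have q := inv_mul_eq_one.1 (hX ((a ^ m * c ^ (i + Nat.find ex))⁻¹ *
        (b ^ r * (a ^ m₁ * c ^ Nat.find ex))) y (by rw [mul_smul, e₂, inv_smul_smul]))
      rw [pow_add, ← mul_assoc, ← mul_assoc] at q
      have := (d (m - m₁) r i (by
        rw [eq_mul_inv_of_mul_eq (mul_right_cancel q).symm, zpow_sub, mul_assoc, mul_assoc,
          ((h.zpow_left m₁).pow_right i).inv_left.eq])).1
      omega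
    · exact Eventually.of_forall fun n ⟨m, j, q⟩ => ex ⟨j, n, m, q⟩
  refine ((eventually_all_finite hK).2 this).mono fun n hn q => ?_
  obtain ⟨y, hy, q⟩ := k _ q
  exact hn y hy q

theorem av_sm (hX : ∀ (g : G) (x : X), g • x = x → g = 1) (h : Commute a b) (i : Ind a b)
    {S : Set X} (hS : Sm a S) (e : X) : ∀ᶠ n : ℕ in atTop, b ^ n • e ∉ S :=
  av hX h.inv_right i.dif (Hf.of_sm hS) e

theorem inv_zp {E : Set X} (hE : ∀ x, a • x ∈ E ↔ x ∈ E) (m : ℤ) (x : X) :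
    a ^ m • x ∈ E ↔ x ∈ E := by
  induction m using Int.induction_on with
  | zero => rw [zpow_zero, one_smul]
  | succ n ih => rw [add_comm (n : ℤ), zpow_one_add, mul_smul, hE, ih]
  | pred n ih => rw [← hE, ← mul_smul, ← zpow_one_add, add_sub_cancel, ih]

theorem sm_of_av {E S : Set X} (hE : ∀ x, a • x ∈ E ↔ x ∈ E)
    (h : ∀ e, ∀ᶠ n : ℕ in atTop, b ^ n • e ∉ E) (hS : Hf a b S) : Sm a (E ∩ S) := by
  obtain ⟨K, hK, k⟩ := hS
  refine ⟨⋃ y ∈ K, (fun n : ℕ => b ^ n • y) '' {n | b ^ n • y ∈ E},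
    hK.biUnion fun y _ => Finite.image _ ?_, fun x hx => ?_⟩
  · have := h y
    rw [← Nat.cofinite_eq_atTop, eventually_cofinite] at this
    exact this.subset fun n hn q => q hn
  · obtain ⟨y, hy, m, n, e⟩ := k x hx.2
    rw [mul_smul] at e
    exact ⟨_, mem_biUnion hy ⟨n, (inv_zp hE m _).1 (e ▸ hx.1), rfl⟩, m, e⟩

theorem conn_of (hM : Mfd T) {P : Set X0} (h : ∀ e, T.d1 e 0 ∈ P ↔ T.d1 e 1 ∈ P) {x : X0}
    (hx : x ∈ P) (y : X0) : y ∈ P := by
  by_contra n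
  have := const_of hM (t := wi P) (fun e => wi_congr (h e)) x y
  rw [wi_pos hx, wi_neg n] at this
  exact one_ne_zero this

/-- the limit of a function in the direction of `b` -/
theorem lim_of (hM : Mfd T) {f l : X0 → ℝ} (hl : ∀ x, l (b • x) = l x)
    (h : ∀ e, ∀ᶠ n : ℕ in atTop,
      f (b ^ n • T.d1 e 0) - f (b ^ n • T.d1 e 1) = l (T.d1 e 0) - l (T.d1 e 1)) :
    ∃ κ : ℝ, ∀ x, ∀ᶠ n : ℕ in atTop, f (b ^ n • x) = l x + κ := by
  obtain ⟨x₃⟩ := T.ne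
  have x₀ := v3 T x₃ 0
  have r := conn_of hM (P := {y | ∀ᶠ n : ℕ in atTop, f (b ^ n • y) - f (b ^ n • x₀) = l y - l x₀})
    (fun e => ⟨fun k => ((h e).and k).mono fun n q => by linarith [q.1, q.2],
      fun k => ((h e).and k).mono fun n q => by linarith [q.1, q.2]⟩)
    (x := x₀) (Eventually.of_forall fun n => by rw [sub_self, sub_self])
  obtain ⟨N, hN⟩ := eventually_atTop.1 (r (b • x₀))
  have ct : ∀ n, N ≤ n → f (b ^ n • x₀) = f (b ^ N • x₀) := fun n hn => by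
    induction n, hn using Nat.le_induction with
    | base => rfl
    | succ n hn ih =>
      have := hN n hn
      rw [hl, sub_self, ← mul_smul, ← pow_succ] at this
      linarith
  refine ⟨f (b ^ N • x₀) - l x₀, fun x => ((eventually_ge_atTop N).and (r x)).mono fun n q => ?_⟩
  linarith [ct n q.1, q.2]

theorem lk_const (hM : Mfd T) {D : Set X0} (h : ∀ e, ∀ᶠ n : ℕ in atTop, b ^ n • e ∉ cut T D) :
    Lk b D univ ∨ Lk b D ∅ := by
  obtain ⟨κ, k⟩ := lim_of hM (b := b) (f := wi D) (l := fun _ => 0) (fun _ => rfl) fun e =>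
    (h e).mono fun n q => by
      rw [← T.e1, ← T.e1, wi_congr (not_not.1 q), sub_self, sub_self]
  by_cases e : κ = 1
  · refine .inl fun x => (k x).mono fun n q => iff_of_true (by_contra fun m => ?_) trivial
    rw [wi_neg m, e] at q
    norm_num at q
  · refine .inr fun x => (k x).mono fun n q => iff_of_false (fun m => e ?_) id
    rw [wi_pos m, zero_add] at q
    exact q.symm

theorem cut_inv {D : Set X0} (hD : ∀ x, a • x ∈ D ↔ x ∈ D) (e : X1) :
    a • e ∈ cut T D ↔ e ∈ cut T D := by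
  show ¬ _ ↔ ¬ _
  rw [T.e1, T.e1, hD, hD]

theorem drop {D C : Set X0} {S : Set X1} (hD : ∀ x, a • x ∈ D ↔ x ∈ D) (hS : Hf a b S)
    (hl : Lk b D C) (hC : ∀ x y, x ∈ C ↔ y ∈ C) : Sm a (cut T D ∩ S) :=
  sm_of_av (cut_inv hD) (fun e => ((hl (T.d1 e 0)).and (hl (T.d1 e 1))).mono fun n q k => k (by
    rw [T.e1, T.e1, q.1, q.2]
    exact hC _ _)) hS

theorem sm_of_lk (hM : Mfd T) (h : Commute a b) (i : Ind a b) {E : Set X0}
    (hE : ∀ x, a • x ∈ E ↔ x ∈ E) (hs : Sm a (cut T E)) (hl : Lk b E ∅) : Sm a E := by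
  refine (one_end hM i.one hE hs).resolve_right fun k => ?_
  obtain ⟨x₃⟩ := T.ne
  obtain ⟨n, q, q'⟩ := ((hl (v3 T x₃ 0)).and (av_sm T.free h i k (v3 T x₃ 0))).exists
  exact q' q.1

/-- half of a wall cannot be closed up -/
theorem s1 (hM : Mfd T) (h : Commute a b) (i : Ind a b) {A D : Set X0} (hA : IsWall T a b A)
    (hD : ∀ x, a • x ∈ D ↔ x ∈ D) (hc : Hf a b (cut T D)) (hl : Lk b D A) : False := by
  have hE : ∀ x, a • x ∈ {x | ¬ (x ∈ D ↔ b • x ∈ D)} ↔ x ∈ {x | ¬ (x ∈ D ↔ b • x ∈ D)} :=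
    fun x => by
      show ¬ _ ↔ ¬ _
      rw [← mul_smul, ← h.eq, mul_smul, hD, hD]
  have lE : Lk b {x | ¬ (x ∈ D ↔ b • x ∈ D)} ∅ := fun x =>
    ((hl x).and (hl (b • x))).mono fun n q => iff_of_false (fun k => k (by
      rw [← mul_smul, ← pow_succ', pow_succ, mul_smul, q.1, q.2, hA.ib])) id
  have h2 := hc.tr h.inv_right
  rw [inv_mul_cancel, one_mul, inv_inv] at h2
  obtain ⟨K, hK, k⟩ := sm_of_lk hM h i hE ((drop (T := T) hE (hc.union h2) lE
    fun _ _ => Iff.rfl).mono fun e he => ⟨he, by_contra fun n => he (by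
      have n1 : T.d1 e 0 ∈ D ↔ T.d1 e 1 ∈ D := not_not.1 fun q => n (.inl q)
      have n2 : T.d1 (b⁻¹⁻¹ • e) 0 ∈ D ↔ T.d1 (b⁻¹⁻¹ • e) 1 ∈ D := not_not.1 fun q => n (.inr q)
      rw [inv_inv, T.e1, T.e1] at n2
      show ¬ _ ↔ ¬ _
      rw [n1, n2])⟩) lE
  have ct : ∀ x, (¬ ∃ y ∈ K, ∃ m n : ℤ, x = (a ^ m * b ^ n) • y) → ∀ n : ℤ,
      (b ^ n • x ∈ D ↔ x ∈ D) := fun x hx => by
    have st : ∀ n : ℤ, (b ^ n • x ∈ D ↔ b • b ^ n • x ∈ D) := fun n => by_contra fun q => by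
      obtain ⟨y, hy, m, e⟩ := k _ q
      exact hx ⟨y, hy, m, -n, by
        rw [(h.zpow_zpow m (-n)).eq, mul_smul, ← e, zpow_neg, inv_smul_smul]⟩
    intro n
    induction n using Int.induction_on with
    | zero => rw [zpow_zero, one_smul]
    | succ n ih => rw [add_comm (n : ℤ), zpow_one_add, mul_smul, ← st, ih]
    | pred n ih => rw [st, ← mul_smul, ← zpow_one_add, add_sub_cancel, ih]
  have cmp : ∀ C, Lk b⁻¹ D C → ∀ x, (¬ ∃ y ∈ K, ∃ m n : ℤ, x = (a ^ m * b ^ n) • y) →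
      (x ∈ A ↔ x ∈ C) := fun C hC x hx => by
    obtain ⟨n, q, q'⟩ := ((hl x).and (hC x)).exists
    rw [← zpow_natCast, ct x hx] at q
    rw [inv_pow, ← zpow_natCast, ← zpow_neg, ct x hx] at q'
    rw [← q, q']
  rcases lk_const hM (av T.free1 h i.dif.symm hc) with q | q
  · exact hA.big' ⟨K, hK, fun x hx => by_contra fun n => hx ((cmp _ q x n).2 trivial)⟩
  · exact hA.big ⟨K, hK, fun x hx => by_contra fun n => (cmp _ q x n).1 hx⟩

theorem IsWall.compl {A : Set X0} (hA : IsWall T a b A) : IsWall T a b Aᶜ :=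
  ⟨fun x => not_congr (hA.ia x), fun x => not_congr (hA.ib x),
    Sm2_mono hA.fin fun _ he q => he (not_congr q), hA.big', by rw [compl_compl]; exact hA.big⟩

theorem IsWall.ne {A : Set X0} (hA : IsWall T a b A) : ∃ x, x ∈ A := by
  by_contra n
  exact hA.big ⟨∅, finite_empty, fun x hx => absurd ⟨x, hx⟩ n⟩

theorem wz_zp {A : Set X0} (h : ∀ x, g • x ∈ A ↔ x ∈ A) (n : ℕ) (e : X1) :
    wz T A (g ^ n • e) = wz T A e := by
  rw [← zpow_natCast, zb_inv (wz_inv h)]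

/-- the half of a wall -/
theorem half (h : Commute a b) (i : Ind a b) {A : Set X0} (hA : IsWall T a b A) :
    ∃ u : X1 → ℝ, Fa a (d1_c1 T u) ∧ (∀ e, u (a • e) = u e) ∧ Hf a b (Function.support u) ∧
      ∀ e, ∀ᶠ n : ℕ in atTop, u (b ^ n • e) = wz T A e := by
  classical
  obtain ⟨K, hK, k⟩ := hA.fin
  obtain ⟨P, hP⟩ : ∃ P : Set X1, ∀ x, x ∈ P ↔ ∃ y ∈ K, ∃ (m : ℤ) (n : ℕ),
    x = (a ^ m * b ^ n) • y := ⟨_, fun _ => Iff.rfl⟩
  have Pa : ∀ x, a • x ∈ P ↔ x ∈ P := fun x => by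
    rw [hP, hP]
    refine ⟨fun ⟨y, hy, m, n, e⟩ => ⟨y, hy, -1 + m, n, ?_⟩, fun ⟨y, hy, m, n, e⟩ =>
      ⟨y, hy, 1 + m, n, ?_⟩⟩
    · rw [zpow_add, mul_assoc, mul_smul, ← e, zpow_neg_one, inv_smul_smul]
    · rw [zpow_one_add, mul_assoc, mul_smul, ← e]
  have HP : Hf a b P := ⟨K, hK, fun x hx => (hP x).1 hx⟩
  obtain ⟨u, hu⟩ : ∃ u : X1 → ℝ, ∀ e, u e = if e ∈ P then wz T A e else 0 := ⟨_, fun _ => rfl⟩
  have ua : ∀ e, u (a • e) = u e := fun e => by simp only [hu, Pa, wz_inv hA.ia]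
  have us : Function.support u ⊆ P := fun e he => by_contra fun q => he (by rw [hu, if_neg q])
  have hv : Hf a b⁻¹ {e | u e ≠ wz T A e} := ⟨K, hK, fun e he => by
    have nP : e ∉ P := fun q => he (by rw [hu, if_pos q])
    obtain ⟨y, hy, m, n, q⟩ := k e (wz_ne fun q => he (by rw [hu, if_neg nP, q]))
    refine ⟨y, hy, m, (-n).toNat, ?_⟩
    have : n < 0 := by_contra fun l => nP ((hP e).2 ⟨y, hy, m, n.toNat, by
      rw [← zpow_natCast, Int.toNat_of_nonneg (not_lt.1 l), q]⟩)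
    rw [inv_pow, ← zpow_natCast, ← zpow_neg, Int.toNat_of_nonneg (by omega), neg_neg, q]⟩
  have lim : ∀ e, ∀ᶠ n : ℕ in atTop, u (b ^ n • e) = wz T A e := fun e =>
    (av T.free1 h.inv_right i.dif hv e).mono fun n q => by rw [not_not.1 q, wz_zp hA.ib]
  have da : ∀ f, d1_c1 T u (a • f) = d1_c1 T u f := fun f => by
    unfold d1_c1
    simp only [T.e2, ua]
  have p := fun j => HP.pull (d := fun f => T.d2 f j) (fun g f => T.e2 g f j) (d1_f2 T j)
  refine ⟨u, ⟨da, (sm_of_av (E := Function.support (d1_c1 T u))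
    (fun f => by simp only [Function.mem_support, da]) (fun f => ?_)
    (((p 0).union (p 1)).union (p 2))).mono fun f hf => ⟨hf, by_contra fun n => hf ?_⟩⟩, ua,
    HP.mono us, lim⟩
  · refine (((lim (T.d2 f 0)).and (lim (T.d2 f 1))).and (lim (T.d2 f 2))).mono fun n q k => k ?_
    unfold d1_c1
    rw [T.e2, T.e2, T.e2, q.1.1, q.1.2, q.2, wz_coc, sub_self]
  · have z : ∀ j, T.d2 f j ∉ P → u (T.d2 f j) = 0 := fun j q => by_contra fun l => q (us l)
    unfold d1_c1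
    rw [z 0 fun q => n (.inl (.inl q)), z 1 fun q => n (.inl (.inr q)), z 2 fun q => n (.inr q)]
    ring

theorem lvl (hM : Mfd T) (h : Commute a b) (i : Ind a b) {A B : Set X0} (hA : IsWall T a b A)
    (hB : IsWall T a c B) {f : X0 → ℝ} (fa : ∀ x, f (a • x) = f x) {S S' : Set X1}
    (hS : Hf a b S) (hS' : Hf a c S') (hc : ∀ e, f (T.d1 e 0) ≠ f (T.d1 e 1) → e ∈ S ∪ S')
    {s t κ κ' : ℝ} (s0 : s ≠ 0) (l : ∀ x, ∀ᶠ n : ℕ in atTop, f (b ^ n • x) = s * wi A x + κ)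
    (l' : ∀ x, ∀ᶠ n : ℕ in atTop, f (c ^ n • x) = t * wi B x + κ') :
    t ≠ 0 ∧ ∃ D B' : Set X0, IsWall T a c B' ∧ (∀ x, a • x ∈ D ↔ x ∈ D) ∧ cut T D ⊆ S ∪ S' ∧
      Lk b D A ∧ Lk c D B' := by
  have hD : ∀ x, a • x ∈ {x | f x = s + κ} ↔ x ∈ {x | f x = s + κ} := fun x => by
    simp only [mem_ofPred_eq, fa]
  have cD : cut T {x | f x = s + κ} ⊆ S ∪ S' := fun e he => hc e fun q => he (by
    simp only [mem_ofPred_eq, q])
  have lA : Lk b {x | f x = s + κ} A := fun x => (l x).mono fun n q => by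
    rw [mem_ofPred_eq, q]
    by_cases m : x ∈ A
    · exact iff_of_true (by rw [wi_pos m, mul_one]) m
    · exact iff_of_false (fun e => s0 (by rw [wi_neg m] at e; linarith)) m
  have lB : Lk c {x | f x = s + κ} {x | t * wi B x + κ' = s + κ} := fun x =>
    (l' x).mono fun n q => by rw [mem_ofPred_eq, q, mem_ofPred_eq]
  have nc : ¬ (t + κ' = s + κ ↔ κ' = s + κ) := fun q => by
    have v : ∀ x, t * wi B x + κ' = s + κ ↔ κ' = s + κ := fun x => by
      by_cases m : x ∈ B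
      · rw [wi_pos m, mul_one, q]
      · rw [wi_neg m, mul_zero, zero_add]
    exact s1 hM h i hA hD ((hS.union (Hf.of_sm (drop (T := T) hD hS' lB fun x y =>
      (v x).trans (v y).symm))).mono fun e he => (cD he).imp_right fun q => ⟨he, q⟩) lA
  refine ⟨fun e => nc (by rw [e, zero_add]), ?_⟩
  by_cases e : κ' = s + κ
  · refine ⟨_, Bᶜ, hB.compl, hD, cD, lA, fun x => (lB x).mono fun n q => q.trans ?_⟩
    rw [mem_ofPred_eq]
    by_cases m : x ∈ B
    · rw [wi_pos m, mul_one]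
      exact iff_of_false (fun k => nc (iff_of_true k e)) (not_not.2 m)
    · rw [wi_neg m, mul_zero, zero_add]
      exact iff_of_true e m
  · refine ⟨_, B, hB, hD, cD, lA, fun x => (lB x).mono fun n q => q.trans ?_⟩
    rw [mem_ofPred_eq]
    by_cases m : x ∈ B
    · rw [wi_pos m, mul_one]
      exact iff_of_true (by_contra fun k => nc (iff_of_false k e)) m
    · rw [wi_neg m, mul_zero, zero_add]
      exact iff_of_false e m

/-- two half walls in different directions can be joined -/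
theorem chord (hM : Mfd T) (h : Commute a b) (i : Ind a b) (h' : Commute a c) (i' : Ind a c)
    (d : Dif a b c) {A B : Set X0} (hA : IsWall T a b A) (hB : IsWall T a c B) :
    ∃ (D B' : Set X0) (S S' : Set X1), Hf a b S ∧ Hf a c S' ∧ IsWall T a c B' ∧
      (∀ x, a • x ∈ D ↔ x ∈ D) ∧ cut T D ⊆ S ∪ S' ∧ Lk b D A ∧ Lk c D B' := by
  obtain ⟨u, du, ua, us, ul⟩ := half h i hA
  obtain ⟨v, dv, va, vs, vl⟩ := half h' i' hB
  obtain ⟨s, t, st, y, hy, ey⟩ := wang2 hM i.one (d1_c21 u) du (d1_c21 v) dv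
  obtain ⟨f, ef⟩ := T.h1 (fun e => s * u e + t * v e - y e) fun f => by
    have := ey f
    unfold d1_c1 at this
    linarith
  have lim : ∀ {b c : G} {A : Set X0} {u v : X1 → ℝ} {s t : ℝ}, Commute a b → Ind a b →
      Commute a c → Dif a b c → IsWall T a b A → Hf a c (Function.support v) →
      (∀ e, ∀ᶠ n : ℕ in atTop, u (b ^ n • e) = wz T A e) →
      (∀ e, s * u e + t * v e - y e = f (T.d1 e 0) - f (T.d1 e 1)) →
      ∃ κ : ℝ, ∀ x, ∀ᶠ n : ℕ in atTop, f (b ^ n • x) = s * wi A x + κ :=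
    fun h i h' d hA vs ul ef => lim_of hM (fun x => by rw [wi_congr (hA.ib x)]) fun e =>
      (((ul e).and (av T.free1 h' d vs e)).and (av_sm T.free1 h i hy.sm e)).mono fun n q => by
        rw [← T.e1, ← T.e1, ← ef, q.1.1, not_not.1 q.1.2, not_not.1 q.2]
        unfold wz
        ring
  obtain ⟨κ, l⟩ := lim h i h' d hA vs ul ef
  obtain ⟨κ', l'⟩ := lim (s := t) (t := s) h' i' h d.symm hB us vl fun e => by
    rw [add_comm, ef]
  have fa : ∀ x, f (a • x) = f x := fun x => by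
    obtain ⟨n, q, q'⟩ := ((l x).and (l (a • x))).exists
    have := const_of hM (t := fun x => f (a • x) - f x) (fun e => by
      have k1 := ef e
      have k2 := ef (a • e)
      simp only [T.e1, ua, va, hy.inv] at k2
      linarith) x (b ^ n • x)
    rw [wi_congr (hA.ia x), ← mul_smul, ← (h.pow_right n).eq, mul_smul] at q'
    simp only [q, q'] at this
    linarith
  have hc : ∀ e, f (T.d1 e 0) ≠ f (T.d1 e 1) → u e ≠ 0 ∨ v e ≠ 0 ∨ y e ≠ 0 := fun e q => by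
    by_contra n
    push Not at n
    have := ef e
    simp only [n.1, n.2.1, n.2.2] at this
    exact q (by linarith)
  have s0 : s ≠ 0 := st.elim id fun t0 => (lvl hM h' i' hB hA fa vs (us.union (Hf.of_sm hy.sm))
    (fun e q => by
      rcases hc e q with k | k | k
      exacts [.inr (.inl k), .inl k, .inr (.inr k)]) t0 l' l).1
  obtain ⟨-, D, B', k⟩ := lvl hM h i hA hB fa us (vs.union (Hf.of_sm hy.sm))
    (fun e q => hc e q) s0 l l'
  exact ⟨D, B', _, _, us, vs.union (Hf.of_sm hy.sm), k⟩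

theorem cyc_sm {k : ℕ} (hk : 0 < k) {D : Set X} (hD : ∀ x, c ^ k • x ∈ D ↔ x ∈ D)
    (hs : Sm (c ^ k) (D \ tr c D)) : Sm (c ^ k) (tr c D \ D) := by
  have : ∀ j : ℕ, Sm (c ^ k) (tr c D \ tr (c ^ (j + 1)) D) := fun j => by
    induction j with
    | zero => exact ⟨∅, finite_empty, fun x hx => (hx.2 (by rw [zero_add, pow_one]; exact hx.1)).elim⟩
    | succ j ih =>
      refine (ih.union (sm_tr (g := c ^ (j + 1)) (Commute.pow_pow_self c _ _) hs)).mono
        fun x hx => by_contra fun n => hx.2 ?_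
      have n1 : (c ^ (j + 1))⁻¹ • x ∈ D := by_contra fun q => n (.inl ⟨hx.1, q⟩)
      have n2 : c⁻¹ • (c ^ (j + 1))⁻¹ • x ∈ D := by_contra fun q => n (.inr ⟨n1, q⟩)
      show _ • x ∈ D
      rwa [pow_succ, mul_inv_rev, mul_smul]
  obtain ⟨j, rfl⟩ := Nat.exists_eq_add_of_le' hk
  refine (this j).mono fun x hx => ⟨hx.1, fun q => hx.2 ?_⟩
  have := (hD _).2 q
  rwa [smul_inv_smul] at this

theorem cut_tr (g : G) (D : Set X0) : cut T (tr g D) = tr g (cut T D) := by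
  ext e
  show ¬ _ ↔ ¬ _
  rw [T.e1, T.e1]
  rfl

theorem cmp (hM : Mfd T) {p q : G} {k : ℕ} (hk : 0 < k) (hp : Commute c p)
    (ip : Ind (c ^ k) p) (hq : Commute (c ^ k) q) (iq : Ind (c ^ k) q) {A B D : Set X0}
    {S S' : Set X1} (Ac : ∀ x, c • x ∈ A ↔ x ∈ A) (hB : IsWall T (c ^ k) q B)
    (hD : ∀ x, c ^ k • x ∈ D ↔ x ∈ D) (hS : Hf (c ^ k) p S) (hS' : Hf (c ^ k) q S')
    (cD : cut T D ⊆ S ∪ S') (lA : Lk p D A) (lB : Lk q D B)
    (l1 : Lk (c * q * c⁻¹) D ∅) (l2 : Lk q (tr c D) univ ∨ Lk q (tr c D) ∅) : False := by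
  have cc : Commute (c ^ k) c := Commute.pow_self c k
  have hE : ∀ x, c ^ k • x ∈ D \ tr c D ↔ x ∈ D \ tr c D := fun x => by
    show _ ∧ ¬ c⁻¹ • _ ∈ D ↔ _ ∧ ¬ c⁻¹ • _ ∈ D
    rw [← mul_smul, ← cc.inv_right.eq, mul_smul, hD, hD]
  have t1 := hS.tr cc
  rw [hp.eq, mul_inv_cancel_right] at t1
  have lp : Lk p (D \ tr c D) ∅ := fun x => ((lA x).and (lA (c⁻¹ • x))).mono fun n r =>
    iff_of_false (fun m => m.2 (by
      show c⁻¹ • _ ∈ D
      rw [← mul_smul, (hp.inv_left.pow_right n).eq, mul_smul, r.2, ← Ac, smul_inv_smul, ← r.1]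
      exact m.1)) id
  have lq : Lk (c * q * c⁻¹) (D \ tr c D) ∅ := fun x => (l1 x).mono fun n r =>
    iff_of_false (fun m => r.1 m.1) id
  have sm := (drop (T := T) hE (hS.union t1) lp fun _ _ => Iff.rfl).union
    (drop (T := T) hE (hS'.tr cc) lq fun _ _ => Iff.rfl)
  have cE : ∀ e ∈ cut T (D \ tr c D), e ∈ S' ∨ e ∈ cut T (D \ tr c D) ∩ (S ∪ tr c S) ∪
      cut T (D \ tr c D) ∩ tr c S' := fun e he => by
    by_cases m : e ∈ cut T D
    · exact (cD m).symm.imp_right fun r => .inl ⟨he, .inl r⟩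
    · have : e ∈ cut T (tr c D) := fun r => he (and_congr (not_not.1 m) (not_congr r))
      rw [cut_tr] at this
      exact .inr ((cD this).imp (fun r => ⟨he, .inr r⟩) fun r => ⟨he, r⟩)
  rcases l2 with l2 | l2
  · have s := cyc_sm hk hD (sm_of_lk hM (hp.pow_left k) ip hE (((drop (T := T) hE hS'
      (fun x => (l2 x).mono fun n r => iff_of_false (fun m => m.2 (r.2 trivial)) id)
      (C := ∅) fun _ _ => Iff.rfl).union sm).mono fun e he =>
        (cE e he).imp_left fun r => ⟨he, r⟩) lp)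
    obtain ⟨x, hx⟩ := hB.compl.ne
    obtain ⟨n, ⟨r1, r2⟩, r3⟩ := (((l2 x).and (lB x)).and (av_sm T.free hq iq s x)).exists
    exact r3 ⟨r1.2 trivial, fun m => hx (r2.1 m)⟩
  · exact s1 hM hq iq hB hE ((hS'.union (Hf.of_sm sm)).mono cE) fun x =>
      ((l2 x).and (lB x)).mono fun n r => ⟨fun m => r.2.1 m.1, fun m => ⟨r.2.2 m, r.1.1⟩⟩

theorem root_alg {q : G} {k : ℕ} (hk : 0 < k) (hq : Commute (c ^ k) q) (iq : Ind (c ^ k) q)
    {m : ℤ} {n j : ℕ} (e : q ^ n = (c ^ k) ^ m * (c * q * c⁻¹) ^ j) :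
    n = j ∧ Commute c (q ^ n) := by
  obtain ⟨a, ha⟩ : ∃ a, a = c ^ k := ⟨_, rfl⟩
  rw [← ha] at hq iq e
  have fa : ∀ i : ℕ, MulAut.conj (c ^ i) a = a := fun i => by
    rw [MulAut.conj_apply, ha, (Commute.pow_pow_self c i k).eq, mul_inv_cancel_right]
  have sc : ∀ (i : ℕ) x, MulAut.conj (c ^ (i + 1)) x = MulAut.conj (c ^ i) (c * x * c⁻¹) :=
    fun i x => by rw [pow_succ, map_mul, MulAut.mul_apply, MulAut.conj_apply c]
  have cm : ∀ i : ℕ, Commute a (MulAut.conj (c ^ i) q) := fun i => by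
    have := hq.map (MulAut.conj (c ^ i))
    rwa [fa] at this
  have fk : ∀ l : ℕ, MulAut.conj (c ^ k) (q ^ l) = q ^ l := fun l => by
    rw [MulAut.conj_apply, ← ha, (hq.pow_right l).eq, mul_inv_cancel_right]
  have st : ∀ i : ℕ, MulAut.conj (c ^ i) q ^ n = a ^ m * MulAut.conj (c ^ (i + 1)) q ^ j :=
    fun i => by rw [← map_pow, e, map_mul, map_zpow, fa, map_pow, sc]
  have it : ∀ i : ℕ, ∃ s : ℤ, q ^ n ^ i = a ^ s * MulAut.conj (c ^ i) q ^ j ^ i := fun i => by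
    induction i with
    | zero => exact ⟨0, by simp⟩
    | succ i ih =>
      obtain ⟨s, ih⟩ := ih
      refine ⟨s * n + m * (j ^ i : ℕ), ?_⟩
      rw [pow_succ n, pow_mul, ih, (((cm i).zpow_left s).pow_right _).mul_pow, ← pow_mul,
        mul_comm (j ^ i), pow_mul, st, (((cm _).zpow_left m).pow_right _).mul_pow, ← pow_mul,
        ← pow_succ', ← mul_assoc, zpow_add, zpow_mul, zpow_mul, zpow_natCast, zpow_natCast]
  obtain ⟨s, es⟩ := it k
  rw [← map_pow, fk] at es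
  have nj : n = j := by
    have := (iq s ((j ^ k : ℕ) - (n ^ k : ℕ)) (by
      rw [zpow_sub, ← mul_assoc, zpow_natCast, zpow_natCast, ← es, mul_inv_cancel])).2
    exact Nat.pow_left_injective hk.ne' (show n ^ k = j ^ k by omega)
  subst nj
  have it2 : ∀ i : ℕ, q ^ n = a ^ (m * i) * MulAut.conj (c ^ i) q ^ n := fun i => by
    induction i with
    | zero => simp
    | succ i ih => rw [ih, st, ← mul_assoc, ← zpow_add, Nat.cast_succ, mul_add_one]
  have := it2 k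
  rw [← map_pow, fk] at this
  have m0 := (mul_eq_zero.1 (iq.one _ (right_eq_mul.1 this))).resolve_right
    (Int.natCast_ne_zero.2 hk.ne')
  rw [m0, zpow_zero, one_mul, conj_pow, eq_mul_inv_iff_mul_eq] at e
  exact ⟨rfl, e.symm⟩

/-- an element commuting with a power of a member of a rank two lattice has a power that commutes
with the member itself -/
theorem root (hM : Mfd T) (h0 : NoHom G) {p q : G} {k : ℕ} (hk : 0 < k) (hp : Commute c p)
    (ip : ∀ m n : ℤ, c ^ m * p ^ n = 1 → m = 0 ∧ n = 0) (hq : Commute (c ^ k) q)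
    (iq : ∀ m n : ℤ, (c ^ k) ^ m * q ^ n = 1 → m = 0 ∧ n = 0) :
    ∃ n : ℕ, 0 < n ∧ Commute c (q ^ n) := by
  by_contra no
  have no' : ∀ n : ℕ, Commute c (q ^ n) → n = 0 := fun n h => by_contra fun l =>
    no ⟨n, Nat.pos_of_ne_zero l, h⟩
  have cc : Commute (c ^ k) c := Commute.pow_self c k
  have k0 : (k : ℤ) ≠ 0 := Int.natCast_ne_zero.2 hk.ne'
  have ip' : Ind (c ^ k) p := fun m n e => by
    rw [← zpow_natCast, ← zpow_mul] at e
    exact (ip _ _ e).imp_left fun r => (mul_eq_zero.1 r).resolve_left k0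
  have h1 : Commute (c ^ k) (c * q * c⁻¹) := (cc.mul_right hq).mul_right cc.inv_right
  have cp : ∀ (m : ℤ) (j : ℕ), Commute c ((c ^ k) ^ m * p ^ j) := fun m j =>
    (cc.zpow_left m).symm.mul_right (hp.pow_right j)
  have dqp : Dif (c ^ k) q p := fun m n j e => by
    have := no' n (e ▸ cp m j)
    subst this
    have := (ip' m j (by rw [zpow_natCast, ← e, pow_zero])).2
    omega
  have d1p : Dif (c ^ k) (c * q * c⁻¹) p := fun m n j e => dqp m n j (by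
    rw [conj_pow, mul_inv_eq_iff_eq_mul, ← (cp m j).eq] at e
    exact mul_left_cancel e)
  have dq1 : Dif (c ^ k) q (c * q * c⁻¹) := fun m n j e => by
    obtain ⟨r1, r2⟩ := root_alg hk hq iq e
    have := no' n r2
    omega
  obtain ⟨A, hA⟩ := exists_wall hM h0 hp ip
  obtain ⟨B, hB⟩ := exists_wall hM h0 hq iq
  have up : ∀ S : Set X0, Sm2 (c ^ k) p S → Sm2 c p S := fun S h => h.imp fun K h =>
    ⟨h.1, fun x hx => (h.2 x hx).imp fun y r => ⟨r.1, by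
      obtain ⟨m, n, e⟩ := r.2
      exact ⟨k * m, n, by rw [e, zpow_mul, zpow_natCast]⟩⟩⟩
  have hA' : IsWall T (c ^ k) p A := ⟨fun x => by rw [← zpow_natCast, inv_zp hA.ia], hA.ib, by
    obtain ⟨K, hK, r⟩ := hA.fin
    refine ⟨⋃ y ∈ K, (fun i : ℤ => c ^ i • y) '' Icc 0 k,
      hK.biUnion fun y _ => (finite_Icc _ _).image _, fun e he => ?_⟩
    obtain ⟨y, hy, m, n, rfl⟩ := r e he
    refine ⟨_, mem_biUnion hy ⟨m % k, ⟨Int.emod_nonneg m k0,
      (Int.emod_lt_of_pos m (by omega)).le⟩, rfl⟩, m / k, n, ?_⟩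
    show _ = _ • c ^ (m % k) • y
    rw [← mul_smul, mul_assoc, ← (hp.zpow_zpow _ _).eq, ← mul_assoc, ← zpow_natCast, ← zpow_mul,
      ← zpow_add, Int.mul_ediv_add_emod],
    fun h => hA.big (up _ h), fun h => hA.big' (up _ h)⟩
  obtain ⟨D, B', S, S', hS, hS', hB', hD, cD, lA, lB⟩ :=
    chord hM (hp.pow_left k) ip' hq iq dqp.symm hA' hB
  have t1 := hS.tr cc
  rw [hp.eq, mul_inv_cancel_right] at t1
  have l2 : Lk q (tr c D) univ ∨ Lk q (tr c D) ∅ := lk_const hM fun e =>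
    ((av T.free1 (hp.pow_left k) dqp t1 e).and (av T.free1 h1 dq1 (hS'.tr cc) e)).mono
      fun n r m => by
        rw [cut_tr] at m
        exact (cD m).elim r.1 r.2
  rcases lk_const hM (b := c * q * c⁻¹) (D := D) fun e =>
    ((av T.free1 (hp.pow_left k) d1p hS e).and (av T.free1 hq dq1.symm hS' e)).mono
      fun n r m => (cD m).elim r.1 r.2 with l1 | l1
  · exact cmp hM hk hp ip' hq iq (A := Aᶜ) (D := Dᶜ) (fun x => not_congr (hA.ia x)) hB'.compl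
      (fun x => not_congr (hD x)) hS hS' (fun e he => cD fun r => he (not_congr r))
      (fun x => (lA x).mono fun n r => not_congr r) (fun x => (lB x).mono fun n r => not_congr r)
      (fun x => (l1 x).mono fun n r => iff_of_false (fun m => m (r.2 trivial)) id)
      (l2.symm.imp (fun l x => (l x).mono fun n r => iff_of_true r.1 trivial)
        fun l x => (l x).mono fun n r => iff_of_false (fun m => m (r.2 trivial)) id)
  · exact cmp hM hk hp ip' hq iq hA.ia hB' hD hS hS' cD lA lB l1 l2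

end Pool.Agent.Work.MP_3d425c_gt.Jw
end

-- merged part: Pool.Agent.Work.MP_3d425c_gt.Fl.Wall
section
/-! The union of a periodic chain of crossing walls is a wall. -/

namespace Pool.Agent.Work.MP_3d425c_gt.Cw
open Set Relation MulAction Filter Pool.Agent.Work.MP_3d425c_gt.Md Pool.Agent.Work.MP_3d425c_gt.Bg
  Pool.Agent.Work.MP_3d425c_gt.Jw Pool.Agent.Work.MP_3d425c_gt.Bq
open scoped Pointwise

section
variable {G X : Type} [Group G] [MulAction G X] {a b : G}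

theorem fw_chain {Y : Type} {r : Y → Y → Prop} {L : Set Y} {A B : Y} (a : A ∈ L)
    (k : ReflTransGen (fun U V => V ∈ L ∧ r U V) A B) : ∃ P : Set Y, P.Finite ∧ P ⊆ L ∧ A ∈ P ∧
      B ∈ P ∧ ∀ C ∈ P, ReflTransGen (fun U V => U ∈ P ∧ V ∈ P ∧ r U V) A C := by
  induction k with
  | refl =>
    refine ⟨{A}, finite_singleton _, singleton_subset_iff.2 a, rfl, rfl, ?_⟩
    rintro _ rfl
    exact .refl
  | @tail U V _ q ih =>
    obtain ⟨P, f, s, p, u, c⟩ := ih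
    have m : ∀ C ∈ P, ReflTransGen (fun U W => U ∈ insert V P ∧ W ∈ insert V P ∧ r U W) A C :=
      fun C hC => ReflTransGen.mono (fun _ _ e => ⟨.inr e.1, .inr e.2.1, e.2.2⟩) _ _ (c C hC)
    refine ⟨insert V P, f.insert _, insert_subset q.1 s, .inr p, .inl rfl, ?_⟩
    rintro C (rfl | hC)
    · exact (m U u).tail ⟨.inr u, .inl rfl, q.2⟩
    · exact m C hC

theorem fw_two {E S : Set X} (hE : ∀ x, a • x ∈ E ↔ x ∈ E)
    (h : ∀ e, ∀ᶠ n : ℕ in atTop, b ^ n • e ∉ E) (h' : ∀ e, ∀ᶠ n : ℕ in atTop, b⁻¹ ^ n • e ∉ E)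
    (hS : Sm2 a b S) : Sm a (E ∩ S) := by
  obtain ⟨K, hK, k⟩ := hS
  have p : Hf a b {x | ∃ y ∈ K, ∃ (m : ℤ) (n : ℕ), x = (a ^ m * b ^ n) • y} := ⟨K, hK, fun _ q => q⟩
  have q : Hf a b⁻¹ {x | ∃ y ∈ K, ∃ (m : ℤ) (n : ℕ), x = (a ^ m * b⁻¹ ^ n) • y} :=
    ⟨K, hK, fun _ q => q⟩
  refine smP_zpowers.1 (((smP_zpowers.2 (sm_of_av hE h p)).union
    (smP_zpowers.2 (sm_of_av hE h' q))).mono fun x hx => ?_)
  obtain ⟨y, hy, m, n, e⟩ := k x hx.2
  obtain ⟨j, rfl | rfl⟩ := Int.eq_nat_or_neg n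
  · exact .inl ⟨hx.1, y, hy, m, j, by rw [e, zpow_natCast]⟩
  · exact .inr ⟨hx.1, y, hy, m, j, by rw [e, zpow_neg, zpow_natCast, inv_pow]⟩

theorem fw_dep (c : Commute a b) {m n : ℤ} (e : a ^ m * b ^ n = 1) (n0 : n ≠ 0) {S : Set X}
    (hS : Sm2 a b S) : Sm a S := by
  obtain ⟨K, hK, k⟩ := hS
  refine ⟨⋃ r ∈ Finset.Ico (0 : ℤ) |n|, (fun y => b ^ r • y) '' K,
    (Finset.finite_toSet _).biUnion fun _ _ => hK.image _, fun x hx => ?_⟩
  obtain ⟨y, hy, i, j, rfl⟩ := k x hx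
  have e' : b ^ n = a ^ (-m) := by rw [zpow_neg]; exact eq_inv_of_mul_eq_one_right e
  refine ⟨b ^ (j % n) • y, mem_biUnion (Finset.mem_coe.2 (Finset.mem_Ico.2
    ⟨Int.emod_nonneg _ n0, Int.emod_lt_abs _ n0⟩)) ⟨y, hy, rfl⟩, i + -m * (j / n), ?_⟩
  rw [← mul_smul, zpow_add, zpow_mul, ← e', ← zpow_mul, mul_assoc, ← zpow_add,
    Int.mul_ediv_add_emod]

theorem fw_zp {A : Set X} (h : a • A = A) (x : X) : a • x ∈ A ↔ x ∈ A := by
  conv_lhs => rw [← h]
  exact smul_mem_smul_set_iff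

end

variable {G X0 X1 X2 X3 : Type} [Group G] [MulAction G X0] [MulAction G X1] [MulAction G X2]
  [MulAction G X3] {T : Tri G X0 X1 X2 X3} {A B C F : Set X0} {a b h s : G}

theorem fw_big (hM : Mfd T) (k : Can T A) (z : Z2 a b) : ¬ SmP (pp a b) A := fun n => by
  obtain ⟨c, d, z', w, l, -, -⟩ := k.idx hM
  exact w.big ((sm2_iff z').2 (cn_fi n (cn_rk z z'
    (cn_orb T.free n l.mn.inv (cn_ne' w.big)))))

theorem fw_ne (k : Can T A) : A.Nonempty := let ⟨_, _, _, w, _⟩ := k; cn_ne' w.big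

theorem fw_pow (S : Std T) (h1 : h ≠ 1) {m : ℤ} (e : h ^ m = 1) : m = 0 := by
  by_contra n
  exact S.tf h h1 (isOfFinOrder_iff_zpow_eq_one.2 ⟨m, n, e⟩)

theorem fw_ray (S : Std T) (k : Can T A) (h1 : h ≠ 1) (fx : h • A = A) :
    ∃ t, Z2 h t ∧ t • A = A := by
  obtain ⟨a, b, z, -, -, le, -⟩ := k.idx S.mfd
  obtain ⟨i⟩ := k.z2 S
  have cm : ∀ t ∈ stabilizer G A, Commute h t := fun t ht => by
    have : (⟨h, fx⟩ : stabilizer G A) * ⟨t, ht⟩ = ⟨t, ht⟩ * ⟨h, fx⟩ :=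
      i.injective (by rw [map_mul, map_mul, mul_comm])
    exact congrArg Subtype.val this
  have ha := le (cn_ma a b)
  have hb := le (cn_mb a b)
  by_contra n
  have dp : ∀ t ∈ stabilizer G A, ∃ m n : ℤ, n ≠ 0 ∧ t ^ n = h ^ m := fun t ht => by
    by_contra q
    refine n ⟨t, ⟨cm t ht, fun i j e => ?_⟩, ht⟩
    have j0 : j = 0 := by
      by_contra j0
      exact q ⟨-i, j, j0, by rw [zpow_neg]; exact eq_inv_of_mul_eq_one_right e⟩
    rw [j0, zpow_zero, mul_one] at e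
    exact ⟨fw_pow S h1 e, j0⟩
  obtain ⟨i, m, m0, e⟩ := dp a ha
  obtain ⟨j, l, l0, e'⟩ := dp b hb
  have q := z.2 (m * j) (l * -i) (by
    rw [zpow_mul, zpow_mul, e, e', ← zpow_mul, ← zpow_mul, ← zpow_add,
      show i * j + j * -i = 0 by ring, zpow_zero])
  have i0 : i = 0 := by
    rcases mul_eq_zero.1 q.2 with k | k <;> omega
  exact m0 (z.2 m 0 (by rw [e, i0, zpow_zero, zpow_zero, mul_one])).1

theorem fw_symm (S : Std T) (k : Can T A) (l : Can T B) (n : Nst T A B) : Nst T B A := by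
  rcases n with n | n | n | n
  · exact .inr (.inr (.inr n))
  · exact .inr (.inl (by simpa only [l.st_st S] using k.st_anti S (l.star S) n))
  · exact .inr (.inr (.inl (by simpa only [k.st_st S] using (k.star S).st_anti S l n)))
  · exact .inl n

theorem fw_smul (S : Std T) (k : Can T A) (l : Can T B) (g : G) (n : Nst T (g • A) (g • B)) :
    Nst T A B := by
  unfold Nst at n ⊢
  rw [k.st_smul S, l.st_smul S] at n
  simpa only [smul_set_subset_smul_set_iff] using n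

/-- every end of a member of a periodic chain lies in another member -/
def Cvr (T : Tri G X0 X1 X2 X3) : Prop :=
  ∀ (h s : G) (P : Set (Set X0)), h ≠ 1 → Commute h s → (∀ A ∈ P, Can T A) →
    (∀ A ∈ P, h • A = A) → (∀ A, s • A ∈ P ↔ A ∈ P) → (∀ A ∈ P, st T A ∉ P) →
    (∀ A ∈ P, s • A ≠ A) →
    (∀ A ∈ P, ∀ B ∈ P, ReflTransGen (fun U V => U ∈ P ∧ V ∈ P ∧ ¬ Nst T U V) A B) →
    ∀ A ∈ P, ∀ t, Z2 h t → t • A = A → ∃ J ∈ P, ∀ x, ∀ᶠ n : ℕ in atTop, t ^ n • x ∈ J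

/-- the sides that miss `F`, with a translation `s` -/
structure Fd (T : Tri G X0 X1 X2 X3) (h s : G) (L : Set (Set X0)) (F : Set X0) : Prop where
  ne : h ≠ 1
  cm : Commute h s
  can : ∀ A ∈ L, Can T A
  fx : ∀ A ∈ L, h • A = A
  inv : ∀ A, s • A ∈ L ↔ A ∈ L
  cF : Can T F
  sub : ∀ A ∈ L, F ⊆ st T A
  mv : ∀ A ∈ L, s • A ≠ A
  con : ∀ A ∈ L, ∀ B ∈ L, ReflTransGen (fun U V => V ∈ L ∧ ¬ Nst T U V) A B
  ex : L.Nonempty

namespace Fd
variable {L : Set (Set X0)}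

theorem zp (d : Fd T h s L F) (n : ℤ) (A : Set X0) : s ^ n • A ∈ L ↔ A ∈ L := inv_zp d.inv n A

theorem out (S : Std T) (d : Fd T h s L F) (a : A ∈ L) : F ⊆ Aᶜ :=
  (d.sub A a).trans ((d.can A a).st_sub S)

/-- a periodic chain -/
theorem chain (S : Std T) (d : Fd T h s L F) : ∃ P Q : Set (Set X0), Q.Finite ∧ Q ⊆ P ∧
    P ⊆ L ∧ P.Nonempty ∧ (∀ A ∈ P, ∃ n : ℤ, ∃ B ∈ Q, A = s ^ n • B) ∧ (∀ A, s • A ∈ P ↔ A ∈ P) ∧
    ∀ A ∈ P, ∀ B ∈ P, ReflTransGen (fun U V => U ∈ P ∧ V ∈ P ∧ ¬ Nst T U V) A B := by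
  obtain ⟨A₀, a₀⟩ := d.ex
  obtain ⟨Q, f, sb, p, q, c⟩ := fw_chain a₀ (d.con A₀ a₀ _ ((d.inv A₀).2 a₀))
  let P : Set (Set X0) := {A | ∃ n : ℤ, ∃ B ∈ Q, A = s ^ n • B}
  have qp : Q ⊆ P := fun B b => ⟨0, B, b, by rw [zpow_zero, one_smul]⟩
  have pl : P ⊆ L := by
    rintro _ ⟨n, B, b, rfl⟩
    exact (d.zp n B).2 (sb b)
  have tp : ∀ (m : ℤ), ∀ A ∈ P, s ^ m • A ∈ P := by
    rintro m _ ⟨n, B, b, rfl⟩
    exact ⟨m + n, B, b, by rw [zpow_add, mul_smul]⟩
  let r : Set X0 → Set X0 → Prop := fun U V => U ∈ P ∧ V ∈ P ∧ ¬ Nst T U V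
  have sy : ∀ {A B}, ReflTransGen r A B → ReflTransGen r B A := fun k => by
    induction k with
    | refl => exact .refl
    | tail _ e ih =>
      exact .head ⟨e.2.1, e.1, fun n => e.2.2
        (fw_symm S (d.can _ (pl e.2.1)) (d.can _ (pl e.1)) n)⟩ ih
  have tr : ∀ (m : ℤ) {A B}, ReflTransGen r A B → ReflTransGen r (s ^ m • A) (s ^ m • B) :=
    fun m A B k => by
      induction k with
      | refl => exact .refl
      | tail _ e ih =>
        exact ih.tail ⟨tp m _ e.1, tp m _ e.2.1, fun n => e.2.2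
          (fw_smul S (d.can _ (pl e.1)) (d.can _ (pl e.2.1)) _ n)⟩
  have c' : ∀ C ∈ Q, ReflTransGen r A₀ C := fun C hC =>
    ReflTransGen.mono (fun _ _ e => ⟨qp e.1, qp e.2.1, e.2.2⟩) _ _ (c C hC)
  have s1 : ∀ n : ℤ, ReflTransGen r (s ^ n • A₀) (s ^ (n + 1) • A₀) := fun n => by
    rw [zpow_add_one, mul_smul]
    exact tr n (c' _ q)
  have sn : ∀ n : ℤ, ReflTransGen r A₀ (s ^ n • A₀) := fun n => by
    induction n using Int.induction_on with
    | zero => rw [zpow_zero, one_smul]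
    | succ i ih => exact ih.trans (s1 i)
    | pred i ih =>
      have := sy (s1 (-i - 1))
      rw [sub_add_cancel] at this
      exact ih.trans this
  have al : ∀ A ∈ P, ReflTransGen r A₀ A := by
    rintro _ ⟨n, B, b, rfl⟩
    exact (sn n).trans (tr n (c' B b))
  refine ⟨P, Q, f, qp, pl, ⟨A₀, qp p⟩, fun _ a => a, fun A => ⟨fun a => ?_, fun a => ?_⟩,
    fun A a B b => (sy (al A a)).trans (al B b)⟩
  · simpa only [zpow_neg, zpow_one, inv_smul_smul] using tp (-1) _ a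
  · simpa only [zpow_one] using tp 1 _ a

/-- the frontier wall -/
theorem wall (S : Std T) (cv : Cvr T) (xo : ∀ (A B : Set X0) (a b : G) (x : X0), Can T A →
    Can T B → Z2 a b → a • A = A → b • A = A →
    ((∀ q ∈ pp a b, q • x ∈ B) ∨ ∀ q ∈ pp a b, q • x ∉ B) → Nst T A B)
    (d : Fd T h s L F) : ∃ B, Can T B ∧ Z2 h s ∧ h • B = B ∧
    s • B = B ∧ F ⊆ st T B ∧ (∃ A ∈ L, A ⊆ B) ∧ (∀ A ∈ L, Nst T B A) ∧
    ∀ C, Can T C → ¬ Nst T B C → ∃ A ∈ L, ¬ Nst T C A := by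
  have hM := S.mfd
  obtain ⟨P, Q, f, qp, pl, ⟨A₀, a₀⟩, pq, ip, cn⟩ := d.chain S
  obtain ⟨x₀, hx₀⟩ := fw_ne d.cF
  have cP : ∀ A ∈ P, Can T A := fun A a => d.can A (pl a)
  have cov := cv h s P d.ne d.cm cP (fun A a => d.fx A (pl a)) ip
    (fun A a k => d.out S (pl a) hx₀ (by
      simpa only [(cP A a).st_st S] using d.sub _ (pl k) hx₀))
    (fun A a => d.mv A (pl a)) cn
  let Y : Set X0 := ⋃₀ P
  have Yh : ∀ x, h • x ∈ Y ↔ x ∈ Y := fun x =>
    ⟨fun ⟨A, a, k⟩ => ⟨A, a, (fw_zp (d.fx A (pl a)) x).1 k⟩,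
      fun ⟨A, a, k⟩ => ⟨A, a, (fw_zp (d.fx A (pl a)) x).2 k⟩⟩
  have Ys : ∀ x, s • x ∈ Y ↔ x ∈ Y := fun x =>
    ⟨fun ⟨A, a, k⟩ => ⟨s⁻¹ • A, (ip _).1 (by rwa [smul_inv_smul]), mem_inv_smul_set_iff.2 k⟩,
      fun ⟨A, a, k⟩ => ⟨s • A, (ip A).2 a, smul_mem_smul_set k⟩⟩
  have FY : F ⊆ Yᶜ := fun x hx ⟨A, a, k⟩ => d.out S (pl a) hx k
  have AY : ∀ A ∈ P, A ⊆ Y := fun A a => subset_sUnion_of_mem a
  have c1 : ∀ A ∈ P, Sm h (cut T Y ∩ cut T A) := fun A a => by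
    obtain ⟨t, z, ft⟩ := fw_ray S (cP A a) d.ne (d.fx A (pl a))
    have av : ∀ t, Z2 h t → t • A = A → ∀ e, ∀ᶠ n : ℕ in atTop, t ^ n • e ∉ cut T Y :=
      fun t z ft e => by
        obtain ⟨J, j, k⟩ := cov A a t z ft
        exact ((k (T.d1 e 0)).and (k (T.d1 e 1))).mono fun n q c => c (by
          rw [T.e1, T.e1]
          exact iff_of_true (AY J j q.1) (AY J j q.2))
    refine fw_two (cut_inv Yh) (av t z ft) (av t⁻¹ ⟨z.1.inv_right, fun m n e => ?_⟩ ?_)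
      (cn_fix hM (cP A a) z (d.fx A (pl a)) ft).1.fin
    · have := z.2 m (-n) (by rwa [zpow_neg, ← inv_zpow])
      omega
    · rw [inv_smul_eq_iff, ft]
  have c2 : Sm2 h s (cut T Y) := by
    choose! K hK k using c1
    refine ⟨⋃ A ∈ Q, K A, f.biUnion fun A a => hK A (qp a), fun e he => ?_⟩
    obtain ⟨A, a, m⟩ : ∃ A ∈ P, e ∈ cut T A := by
      by_cases c : T.d1 e 0 ∈ Y
      · obtain ⟨A, a, m⟩ := id c
        exact ⟨A, a, fun q => he (iff_of_true c (AY A a (q.1 m)))⟩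
      · have c' : T.d1 e 1 ∈ Y := by
          by_contra c'
          exact he (iff_of_false c c')
        obtain ⟨A, a, m⟩ := c'
        exact ⟨A, a, fun q => c (AY A a (q.2 m))⟩
    obtain ⟨n, B, b, rfl⟩ := pq A a
    rw [cn_cut, mem_smul_set_iff_inv_smul_mem, ← zpow_neg] at m
    obtain ⟨y, hy, i, q⟩ := k B (qp b) _ ⟨(inv_zp (cut_inv Ys) (-n) e).2 he, m⟩
    refine ⟨y, mem_biUnion b hy, i, n, ?_⟩
    rw [(d.cm.zpow_zpow i n).eq, mul_smul, ← q, zpow_neg, smul_inv_smul]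
  obtain ⟨t₀, z₀, -⟩ := fw_ray S (cP A₀ a₀) d.ne (d.fx A₀ (pl a₀))
  have nb : ∀ {C}, Can T C → ¬ Sm h C := fun k n => fw_big hM k z₀
    ((smP_zpowers.2 n).le ((Subgroup.zpowers_le_of_mem (cn_ma h t₀))))
  have z : Z2 h s := ⟨d.cm, fun m n e => by
    have n0 : n = 0 := by
      by_contra n0
      rcases one_end hM (fun n => fw_pow S d.ne) Yh (fw_dep d.cm e n0 c2) with k | k
      · exact nb (cP A₀ a₀) (smP_zpowers.1 ((smP_zpowers.2 k).mono (AY A₀ a₀)))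
      · exact nb d.cF (smP_zpowers.1 ((smP_zpowers.2 k).mono FY))
    rw [n0, zpow_zero, mul_one] at e
    exact ⟨fw_pow S d.ne e, n0⟩⟩
  have w : IsWall T h s Y := ⟨Yh, Ys, c2,
    fun k => fw_big hM (cP A₀ a₀) z (((sm2_iff z).1 k).mono (AY A₀ a₀)),
    fun k => fw_big hM d.cF z (((sm2_iff z).1 k).mono FY)⟩
  have iY : Inv (pp h s) Y := fun p hp x => by
    obtain ⟨m, n, rfl⟩ := (mem_pp d.cm p).1 hp
    rw [mul_smul, inv_zp Yh, inv_zp Ys]
  obtain ⟨B, cB, iB, nr⟩ := cn_ex S z w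
  have le := cn_le iB
  have nY : Y.Nonempty := (fw_ne (cP A₀ a₀)).mono (AY A₀ a₀)
  have hB : h • B = B := le (cn_ma h s)
  have sB : s • B = B := le (cn_mb h s)
  have AB : ∀ A ∈ P, A ⊆ B := fun A a => (cP A a).sub hM cB
    (((cn_nr hM (A := A) (B := Yᶜ) (by rw [compl_compl]; exact AY A a) ⟨x₀, FY hx₀⟩ iY.compl
      (cP A a).fin (cn_diff nr)).le (inf_le_inf_left _ le)).mono fun x hx =>
        ⟨hx.1, AY A a hx.1, hx.2⟩)
  refine ⟨B, cB, z, hB, sB, d.cF.sub_st S cB (cn_sub hM d.cF cB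
    (((cn_nr hM FY nY iY d.cF.fin (cn_diff (cn_symm nr))).le (inf_le_inf_left _ le)).mono
      fun x hx => ⟨hx.1, hx.2, FY hx.1⟩)), ⟨A₀, pl a₀, AB A₀ a₀⟩, fun A a => ?_, fun C cC n => ?_⟩
  · refine xo B A h s x₀ cB (d.can A a) z hB sB (.inr fun q hq k => ?_)
    obtain ⟨m, n, rfl⟩ := (mem_pp d.cm q).1 hq
    rw [mul_smul, inv_zp (fw_zp (d.fx A a)), ← mem_inv_smul_set_iff, ← zpow_neg] at k
    exact d.out S ((d.zp (-n) A).2 a) hx₀ k
  · by_contra al
    have ns : ∀ A ∈ P, A ⊆ C ∨ A ⊆ st T C := fun A a => by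
      have : Nst T C A := by
        by_contra q
        exact al ⟨A, pl a, q⟩
      rcases fw_symm S cC (cP A a) this with k | k | k | k
      · exact .inl k
      · exact .inr k
      · refine (n (.inr (.inr (.inl ?_)))).elim
        exact ((cP A a).st_anti S cB (AB A a)).trans k
      · exact (n (.inr (.inr (.inr (k.trans (AB A a)))))).elim
    have key : ∀ D, Can T D → (∀ A ∈ P, A ⊆ D ∨ A ⊆ st T D) → A₀ ⊆ D → B ⊆ D := fun D cD o k => by
      have all : ∀ A ∈ P, A ⊆ D := fun A a => by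
        have p := cn A₀ a₀ A a
        induction p with
        | refl => exact k
        | @tail U V _ e ih =>
          refine (o V e.2.1).resolve_right fun q => e.2.2 (.inr (.inl ?_))
          exact (cP U e.1).sub_st S (cP V e.2.1) fun x hx m => cD.st_sub S (q m) (ih e.1 hx)
      have YD : Dᶜ ⊆ Yᶜ := compl_subset_compl.2 (sUnion_subset all)
      refine cB.sub hM cD ?_
      rw [inf_comm]
      exact ((cn_nr hM YD nY iY (by rw [cn_cut_compl]; exact cD.fin)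
        (cn_diff (cn_symm nr))).le (inf_le_inf_left _ le)).mono fun x hx => ⟨hx.2, hx.1, YD hx.2⟩
    rcases ns A₀ a₀ with k | k
    · exact n (.inl (key C cC ns k))
    · refine n (.inr (.inl (key _ (cC.star S) (fun A a => ?_) k)))
      rw [cC.st_st S]
      exact (ns A a).symm

end Fd

end Pool.Agent.Work.MP_3d425c_gt.Cw
end

-- merged part: Pool.Agent.Work.MP_3d425c_gt.Fr.E5
section
/-! The oriented chord between an end of a wall and a translate of it. -/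

namespace Pool.Agent.Work.MP_3d425c_gt.Jw
open Set Filter Pool.Agent.Work.MP_3d425c_gt.Md Pool.Agent.Work.MP_3d425c_gt.Cy
  Pool.Agent.Work.MP_3d425c_gt.Bg Pool.Agent.Work.MP_3d425c_gt.Bq

variable {G X X0 X1 X2 X3 : Type} [Group G] [MulAction G X] [MulAction G X0] [MulAction G X1]
  [MulAction G X2] [MulAction G X3] {T : Tri G X0 X1 X2 X3} {a b c s : G}

theorem e5_fa (h : Commute a s) {y : X → ℝ} (hy : Fa a y) : Fa a fun x => y (s⁻¹ • x) :=
  ⟨fun x => by rw [← mul_smul, ← h.inv_right.eq, mul_smul, hy.inv], sm_tr h hy.sm⟩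

theorem e5_lv (hM : Mfd T) (h : Commute a b) (i : Ind a b) {A B : Set X0} (hA : IsWall T a b A)
    {f : X0 → ℝ} (fa : ∀ x, f (a • x) = f x) {S S' : Set X1}
    (hS : Hf a b S) (hS' : Hf a c S') (hc : ∀ e, f (T.d1 e 0) ≠ f (T.d1 e 1) → e ∈ S ∪ S')
    {t κ r : ℝ} (l : Lk b {x | f x = r} A)
    (l' : ∀ x, ∀ᶠ n : ℕ in atTop, f (c ^ n • x) = t * wi B x + κ) : r = t + κ ∨ r = κ := by
  by_contra n
  rw [not_or] at n
  have hD : ∀ x, a • x ∈ {x | f x = r} ↔ x ∈ {x | f x = r} := fun x => by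
    simp only [mem_ofPred_eq, fa]
  have lB : Lk c {x | f x = r} ∅ := fun x => (l' x).mono fun k q => iff_of_false (fun e => by
    rw [mem_ofPred_eq, q] at e
    by_cases m : x ∈ B
    · rw [wi_pos m, mul_one] at e
      exact n.1 e.symm
    · rw [wi_neg m, mul_zero, zero_add] at e
      exact n.2 e.symm) id
  exact s1 hM h i hA hD ((hS.union (Hf.of_sm (drop (T := T) hD hS' lB fun _ _ => Iff.rfl))).mono
    fun e he => (hc e fun q => he (by simp only [mem_ofPred_eq, q])).imp_right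
      fun q => ⟨he, q⟩) l

/-- the oriented chord -/
theorem e5 (hM : Mfd T) (h0 : NoHom G) (h : Commute a b) (i : Ind a b) (hs : Commute a s)
    (d : Dif a b (s * b * s⁻¹)) {A : Set X0} (hA : IsWall T a b A) :
    ∃ (D : Set X0) (S S' : Set X1), Hf a b S ∧ Hf a (s * b * s⁻¹) S' ∧
      (∀ x, a • x ∈ D ↔ x ∈ D) ∧ cut T D ⊆ S ∪ S' ∧ Lk b D A ∧
      Lk (s * b * s⁻¹) D (tr s A)ᶜ := by
  have h' : Commute a (s * b * s⁻¹) := (hs.mul_right h).mul_right hs.inv_right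
  have i' : Ind a (s * b * s⁻¹) := fun m n e => i m n (by
    rw [conj_zpow, ← mul_assoc, ← mul_assoc, (hs.zpow_left m).eq, mul_assoc s,
      mul_inv_eq_one, mul_eq_left] at e
    exact e)
  have sh : ∀ {Y : Type} [MulAction G Y] (n : ℕ) (y : Y),
      s⁻¹ • (s * b * s⁻¹) ^ n • y = b ^ n • s⁻¹ • y := fun n y => by
    rw [conj_pow, mul_smul, mul_smul, inv_smul_smul]
  obtain ⟨u, du, ua, us, ul⟩ := half h i hA
  obtain ⟨w, hw, wc, mv, nt⟩ := we_two hM h0 i.one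
  obtain ⟨p, q, pq, t, ht, et⟩ := wang2 hM i.one (d1_c21 u) du wc hw
  have p0 : p ≠ 0 := fun e => by
    have q0 : q ≠ 0 := pq.resolve_left (not_not.2 e)
    refine nt _ (ht.lin ht q⁻¹ 0) fun f => ?_
    have := et f
    unfold d1_c1 at this ⊢
    rw [e] at this
    field_simp
    linarith
  obtain ⟨t', ht', et'⟩ := mv s⁻¹ hs.inv_right
  have hy := ((Fa_sub ht (e5_fa hs ht)).lin ht' p⁻¹ (-(q / p)))
  obtain ⟨y, ey⟩ : ∃ y : X1 → ℝ, y = fun e => p⁻¹ * (t e - t (s⁻¹ • e)) + -(q / p) * t' e :=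
    ⟨_, rfl⟩
  rw [← ey] at hy
  obtain ⟨f, ef⟩ := T.h1 (fun e => u e - u (s⁻¹ • e) - y e) fun f => by
    have k1 := et f
    have k2 := et (s⁻¹ • f)
    have k3 := et' f
    unfold d1_c1 at k1 k2 k3
    simp only [T.e2] at k2
    simp only [ey]
    field_simp
    linear_combination k2 - k1 - q * k3
  have vs : Hf a (s * b * s⁻¹) (tr s (Function.support u)) := us.tr hs
  obtain ⟨κ, l⟩ := lim_of hM (b := b) (f := f) (l := fun x => 1 * wi A x)
    (fun x => by rw [wi_congr (hA.ib x)]) fun e =>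
      (((ul e).and (av T.free1 h' d vs e)).and (av_sm T.free1 h i hy.sm e)).mono fun n k => by
        have k2 : u (s⁻¹ • b ^ n • e) = 0 := not_not.1 k.1.2
        rw [← T.e1, ← T.e1, ← ef, k.1.1, k2, not_not.1 k.2]
        unfold wz
        ring
  obtain ⟨κ', l'⟩ := lim_of hM (b := s * b * s⁻¹) (f := f) (l := fun x => -1 * wi (tr s A) x)
    (fun x => by
      have : (s * b * s⁻¹) • x ∈ tr s A ↔ x ∈ tr s A := by
        show s⁻¹ • _ ∈ A ↔ s⁻¹ • _ ∈ A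
        rw [mul_smul, mul_smul, inv_smul_smul, hA.ib]
      rw [wi_congr this]) fun e =>
      (((ul (s⁻¹ • e)).and (av T.free1 h d.symm us e)).and (av_sm T.free1 h' i' hy.sm e)).mono
        fun n k => by
        rw [← T.e1, ← T.e1, ← ef, sh, k.1.1, not_not.1 k.1.2, not_not.1 k.2]
        have e0 : wi A (T.d1 (s⁻¹ • e) 0) = wi (tr s A) (T.d1 e 0) :=
          wi_congr (by rw [T.e1]; rfl)
        have e1 : wi A (T.d1 (s⁻¹ • e) 1) = wi (tr s A) (T.d1 e 1) :=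
          wi_congr (by rw [T.e1]; rfl)
        unfold wz
        rw [e0, e1]
        ring
  have fa : ∀ x, f (a • x) = f x := fun x => by
    obtain ⟨n, q, q'⟩ := ((l x).and (l (a • x))).exists
    have := const_of hM (t := fun x => f (a • x) - f x) (fun e => by
      have k1 := ef e
      have k2 := ef (a • e)
      rw [← mul_smul, ← hs.inv_right.eq, mul_smul] at k2
      simp only [T.e1, ua, hy.inv] at k2
      linarith) x (b ^ n • x)
    rw [wi_congr (hA.ia x), ← mul_smul, ← (h.pow_right n).eq, mul_smul] at q'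
    simp only [q, q'] at this
    linarith
  have hc : ∀ e, f (T.d1 e 0) ≠ f (T.d1 e 1) → e ∈ Function.support u ∪
      (tr s (Function.support u) ∪ Function.support y) := fun e q => by
    by_contra n
    have n1 : u e = 0 := by_contra fun k => n (.inl k)
    have n2 : u (s⁻¹ • e) = 0 := by_contra fun k => n (.inr (.inl k))
    have n3 : y e = 0 := by_contra fun k => n (.inr (.inr k))
    have := ef e
    simp only [n1, n2, n3] at this
    exact q (by linarith)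
  have v2 := vs.union (Hf.of_sm hy.sm)
  have lA : Lk b {x | f x = 1 + κ} A := fun x => (l x).mono fun n q => by
    rw [mem_ofPred_eq, q]
    by_cases m : x ∈ A
    · exact iff_of_true (by rw [wi_pos m, mul_one]) m
    · exact iff_of_false (fun e => by rw [wi_neg m] at e; linarith) m
  have lA' : Lk b {x | f x = κ} Aᶜ := fun x => (l x).mono fun n q => by
    rw [mem_ofPred_eq, q]
    by_cases m : x ∈ A
    · exact iff_of_false (fun e => by rw [wi_pos m] at e; linarith) (not_not.2 m)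
    · exact iff_of_true (by rw [wi_neg m, mul_zero, zero_add]) m
  have r1 := e5_lv hM h i hA fa us v2 hc lA l'
  have r2 := e5_lv hM h i hA.compl fa us v2 hc lA' l'
  have r : κ' = 1 + κ := by
    rcases r1 with r1 | r1 <;> rcases r2 with r2 | r2 <;> linarith
  refine ⟨{x | f x = 1 + κ}, _, _, us, v2, fun x => by simp only [mem_ofPred_eq, fa],
    fun e he => hc e fun q => he (by simp only [mem_ofPred_eq, q]), lA,
    fun x => (l' x).mono fun n q => ?_⟩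
  rw [mem_ofPred_eq, q, r]
  by_cases m : x ∈ tr s A
  · exact iff_of_false (fun e => by rw [wi_pos m] at e; linarith) (not_not.2 m)
  · exact iff_of_true (by rw [wi_neg m, mul_zero, zero_add]) m

end Pool.Agent.Work.MP_3d425c_gt.Jw
end

-- merged part: Pool.Agent.Work.MP_3d425c_gt.Fl.Cover
section
/-! An invariant chain of crossing walls covers all its ends. -/

namespace Pool.Agent.Work.MP_3d425c_gt.Fr
open Set Filter MulAction Pool.Agent.Work.MP_3d425c_gt.Md Pool.Agent.Work.MP_3d425c_gt.Bg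
  Pool.Agent.Work.MP_3d425c_gt.Bq Pool.Agent.Work.MP_3d425c_gt.Jw Pool.Agent.Work.MP_3d425c_gt.Cw
open scoped Pointwise

variable {G X0 X1 X2 X3 : Type} [Group G] [MulAction G X0] [MulAction G X1] [MulAction G X2]
  [MulAction G X3] {T : Tri G X0 X1 X2 X3} {a b c l s : G} {A B D J : Set X0} {U U' : Set X1}

theorem cv_inv (h : a • A = A) (x : X0) : a • x ∈ A ↔ x ∈ A := by
  nth_rewrite 1 [← h]
  exact smul_mem_smul_set_iff

theorem cv_ind (z : Ind a b) : Ind a b⁻¹ := fun m n e => by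
  rw [inv_zpow'] at e
  exact (z m _ e).imp_right neg_eq_zero.1

/-- the two halves of a wall -/
theorem cv_half (hA : IsWall T a b A) :
    ∃ U U' : Set X1, Hf a b U ∧ Hf a b⁻¹ U' ∧ cut T A ⊆ U ∪ U' := by
  obtain ⟨K, hK, k⟩ := hA.fin
  refine ⟨{x | ∃ k ∈ K, ∃ (m : ℤ) (n : ℕ), x = (a ^ m * b ^ n) • k},
    {x | ∃ k ∈ K, ∃ (m : ℤ) (n : ℕ), x = (a ^ m * b⁻¹ ^ n) • k}, ⟨K, hK, fun _ h => h⟩,
    ⟨K, hK, fun _ h => h⟩, fun e he => ?_⟩
  obtain ⟨y, hy, m, n, q⟩ := k e he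
  obtain ⟨n, rfl | rfl⟩ := n.eq_nat_or_neg
  · exact .inl ⟨y, hy, m, n, by rw [q, zpow_natCast]⟩
  · exact .inr ⟨y, hy, m, n, by rw [q, zpow_neg, zpow_natCast, inv_pow]⟩

theorem cv_pow (h : ∀ x, b • x ∈ A ↔ x ∈ A) (n : ℕ) (x : X0) : b ^ n • x ∈ A ↔ x ∈ A := by
  rw [← zpow_natCast]
  exact inv_zp h n x

theorem cv_cut (A D : Set X0) : cut T (A ∩ D) ⊆ cut T A ∪ cut T D := fun e he => by
  by_contra n
  have h1 : T.d1 e 0 ∈ A ↔ T.d1 e 1 ∈ A := by_contra fun k => n (.inl k)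
  have h2 : T.d1 e 0 ∈ D ↔ T.d1 e 1 ∈ D := by_contra fun k => n (.inr k)
  exact he (and_congr h1 h2)

theorem cv_cutc (D : Set X0) : cut T Dᶜ = cut T D := Set.ext fun _ => not_congr not_iff_not

theorem cv_lkc (h : Lk b D A) : Lk b Dᶜ Aᶜ := fun x => (h x).mono fun _ => not_congr

theorem cv_lk0 (h : Lk b A ∅) (D : Set X0) : Lk b (A ∩ D) ∅ := fun x =>
  (h x).mono fun _ q => iff_of_false (fun k => q.1 k.1) id

theorem cv_lk1 (h : Lk b D ∅) (A : Set X0) : Lk b (A ∩ D) ∅ := fun x =>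
  (h x).mono fun _ q => iff_of_false (fun k => q.1 k.2) id

theorem cv_drop {E : Set X0} (hE : ∀ x, a • x ∈ E ↔ x ∈ E) (hU : Hf a b U) (hl : Lk b E ∅) :
    Sm a (cut T E ∩ U) := drop hE hU hl fun _ _ => Iff.rfl

/-- A wall whose reversed end and the two ends of `D` give nothing meets `D` in a small set, or
`D` is constant and empty there. -/
theorem cv_one (hM : Mfd T) (h : Commute a l) (i : Ind a l) (hJ : IsWall T a l J)
    (hD : ∀ x, a • x ∈ D ↔ x ∈ D) (hU : Sm a (cut T (J ∩ D) ∩ cut T D)) (l2 : Lk l⁻¹ D ∅) :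
    ¬ Lk l D univ ∧ (Lk l (J ∩ D) ∅ → Sm a (J ∩ D)) := by
  obtain ⟨V, V', v, v', k⟩ := cv_half hJ
  have hE : ∀ x, a • x ∈ J ∩ D ↔ x ∈ J ∩ D := fun x => and_congr (hJ.ia x) (hD x)
  have s2 := (cv_drop (T := T) hE v' (cv_lk1 l2 J)).union hU
  have sub : cut T (J ∩ D) ⊆ cut T (J ∩ D) ∩ V ∪
      (cut T (J ∩ D) ∩ V' ∪ cut T (J ∩ D) ∩ cut T D) := fun e he =>
    (cv_cut J D he).elim (fun q => (k q).elim (fun r => .inl ⟨he, r⟩) fun r => .inr (.inl ⟨he, r⟩))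
      fun q => .inr (.inr ⟨he, q⟩)
  refine ⟨fun l1 => s1 hM h i hJ hE (((v.mono inter_subset_right).union (Hf.of_sm s2)).mono sub)
    fun x => (l1 x).mono fun n q => ?_,
    fun l1 => sm_of_lk hM h i hE (((cv_drop hE v l1).union s2).mono sub) l1⟩
  exact ⟨fun r => (cv_pow hJ.ib n x).1 r.1, fun r => ⟨(cv_pow hJ.ib n x).2 r, q.2 trivial⟩⟩

theorem cv_const (hM : Mfd T) (hb : Commute a b) (hc : Commute a c) (hU : Hf a b U)
    (hU' : Hf a c U') (cD : cut T D ⊆ U ∪ U') (d : Dif a l b) (d' : Dif a l c) :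
    Lk l D univ ∨ Lk l D ∅ :=
  lk_const hM fun e => ((av T.free1 hb d hU e).and (av T.free1 hc d' hU' e)).mono
    fun _ q k => (cD k).elim q.1 q.2

/-- A wall that misses both ends of a chord lies on one side of the chord. -/
theorem side (hM : Mfd T) (hb : Commute a b) (hc : Commute a c) (hD : ∀ x, a • x ∈ D ↔ x ∈ D)
    (hU : Hf a b U) (hU' : Hf a c U') (cD : cut T D ⊆ U ∪ U') (h : Commute a l) (i : Ind a l)
    (hJ : IsWall T a l J) (d1 : Dif a l b) (d2 : Dif a l c) (d3 : Dif a l⁻¹ b) (d4 : Dif a l⁻¹ c)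
    (lb : Lk b J ∅) (lc : Lk c J ∅) : Sm a (J ∩ Dᶜ) ∨ Sm a (J ∩ D) := by
  have key : ∀ E : Set X0, (∀ x, a • x ∈ E ↔ x ∈ E) → cut T E = cut T D →
      Sm a (cut T (J ∩ E) ∩ cut T E) := fun E hE e => by
    have hE' : ∀ x, a • x ∈ J ∩ E ↔ x ∈ J ∩ E := fun x => and_congr (hJ.ia x) (hE x)
    exact ((cv_drop (T := T) hE' hU (cv_lk0 lb E)).union (cv_drop hE' hU' (cv_lk0 lc E))).mono
      fun x hx => (cD (e ▸ hx.2)).imp (fun q => ⟨hx.1, q⟩) fun q => ⟨hx.1, q⟩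
  have hD' : ∀ x, a • x ∈ Dᶜ ↔ x ∈ Dᶜ := fun x => not_congr (hD x)
  have k1 := key D hD rfl
  have k2 := key Dᶜ hD' (cv_cutc D)
  rcases cv_const hM hb hc hU hU' cD d3 d4 with q | q
  · have r := cv_one hM h i hJ hD' k2 (compl_univ (α := X0) ▸ cv_lkc q)
    rcases cv_const hM hb hc hU hU' cD d1 d2 with p | p
    · exact .inl (r.2 (cv_lk1 (compl_univ (α := X0) ▸ cv_lkc p) J))
    · exact (r.1 (compl_empty (α := X0) ▸ cv_lkc p)).elim
  · have r := cv_one hM h i hJ hD k1 q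
    exact .inr (r.2 (cv_lk1 ((cv_const hM hb hc hU hU' cD d1 d2).resolve_left r.1) J))

/-- The wall at an end of a chord. -/
theorem own (hM : Mfd T) (hb : Commute a b) (i : Ind a b) (hc : Commute a c)
    (hD : ∀ x, a • x ∈ D ↔ x ∈ D) (hU : Hf a b U) (hU' : Hf a c U') (cD : cut T D ⊆ U ∪ U')
    (hA : IsWall T a b A) (d : Dif a b⁻¹ c) (lb : Lk b D A) (lc : Lk c A ∅) : Sm a (A ∩ Dᶜ) := by
  obtain ⟨V, V', v, v', k⟩ := cv_half hA
  have sub : ∀ E : Set X0, cut T E = cut T D → cut T (A ∩ E) ⊆ cut T (A ∩ E) ∩ (V ∪ U) ∪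
      (cut T (A ∩ E) ∩ V' ∪ cut T (A ∩ E) ∩ U') := fun E q e he =>
    (cv_cut A E he).elim
      (fun p => (k p).elim (fun r => .inl ⟨he, .inl r⟩) fun r => .inr (.inl ⟨he, r⟩))
      fun p => (cD (q ▸ p)).elim (fun r => .inl ⟨he, .inr r⟩) fun r => .inr (.inr ⟨he, r⟩)
  rcases cv_const hM hb hc hU hU' cD i.dif.symm d with q | q
  · have hE : ∀ x, a • x ∈ A ∩ Dᶜ ↔ x ∈ A ∩ Dᶜ := fun x => and_congr (hA.ia x) (not_congr (hD x))
    have l1 : Lk b (A ∩ Dᶜ) ∅ := fun x => (lb x).mono fun n p =>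
      iff_of_false (fun r => r.2 (p.2 ((cv_pow hA.ib n x).1 r.1))) id
    exact sm_of_lk hM hb i hE (((cv_drop hE (v.union hU) l1).union
      ((cv_drop hE v' (cv_lk1 (compl_univ (α := X0) ▸ cv_lkc q) A)).union
        (cv_drop hE hU' (cv_lk0 lc _)))).mono (sub _ (cv_cutc D))) l1
  · have hE : ∀ x, a • x ∈ A ∩ D ↔ x ∈ A ∩ D := fun x => and_congr (hA.ia x) (hD x)
    exact (s1 hM hb i hA hE ((((v.union hU).mono inter_subset_right).union (Hf.of_sm
      ((cv_drop hE v' (cv_lk1 q A)).union (cv_drop hE hU' (cv_lk0 lc _))))).mono (sub _ rfl))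
      fun x => (lb x).mono fun n p => ⟨fun r => (cv_pow hA.ib n x).1 r.1,
        fun r => ⟨(cv_pow hA.ib n x).2 r, p.2 r⟩⟩).elim

theorem cv_nc (z : Z2 a b) : ¬ IsCyclic (pp a b) := fun k => by
  obtain ⟨g, hg⟩ := k.exists_zpow_surjective
  obtain ⟨m, hm⟩ := hg ⟨a, Subgroup.subset_closure (.inl rfl)⟩
  obtain ⟨n, hn⟩ := hg ⟨b, Subgroup.subset_closure (.inr rfl)⟩
  have e1 : g.1 ^ m = a := congrArg Subtype.val hm
  have e2 : g.1 ^ n = b := congrArg Subtype.val hn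
  generalize g.1 = u at e1 e2
  have := z.2 n (-m) (by rw [← e1, ← e2, ← zpow_mul, ← zpow_mul, ← zpow_add]; simp [mul_comm])
  exact one_ne_zero (z.2 0 1 (by rw [← e2, this.1]; simp)).2

/-- A canonical wall is a wall of every lattice that fixes it. -/
theorem cv_wall (S : Std T) (hA : Can T A) (z : Z2 a b) (ha : a • A = A) (hb : b • A = A) :
    IsWall T a b A := by
  have le : pp a b ≤ stabilizer G A := (Subgroup.closure_le _).2 (by
    rintro _ (rfl | rfl)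
    exacts [ha, hb])
  obtain ⟨e⟩ := hA.z2 S
  exact ⟨cv_inv ha, cv_inv hb, (sm2_iff z).2 (wl_fi hA.fin (wl_rank le e (cv_nc z))),
    fun k => hA.big S.mfd (((sm2_iff z).1 k).le le),
    fun k => hA.big' S.mfd (((sm2_iff z).1 k).le le)⟩

theorem cv_comm (S : Std T) (hA : Can T A) (ha : a • A = A) (hb : b • A = A) : Commute a b := by
  obtain ⟨e⟩ := hA.z2 S
  exact congrArg Subtype.val (e.injective (a₁ := ⟨a, ha⟩ * ⟨b, hb⟩) (a₂ := ⟨b, hb⟩ * ⟨a, ha⟩)
    (by rw [map_mul, map_mul, mul_comm]))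

/-- A canonical wall has a ray. -/
theorem cv_ray (S : Std T) (hA : Can T A) (a1 : a ≠ 1) (ha : a • A = A) :
    ∃ l, l • A = A ∧ Z2 a l := by
  obtain ⟨p, q, z, -, -, le, -⟩ := hA.idx S.mfd
  have hp : p • A = A := le (Subgroup.subset_closure (.inl rfl))
  have hq : q • A = A := le (Subgroup.subset_closure (.inr rfl))
  have one : ∀ m : ℤ, a ^ m = 1 → m = 0 := fun m e => by_contra fun n =>
    S.tf a a1 (isOfFinOrder_iff_zpow_eq_one.2 ⟨m, n, e⟩)
  by_contra no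
  have k : ∀ r : G, r • A = A → ∃ m n : ℤ, n ≠ 0 ∧ r ^ n = a ^ m := fun r hr => by
    by_contra k
    refine no ⟨r, hr, cv_comm S hA ha hr, fun m n e => ?_⟩
    have n0 : n = 0 := by_contra fun d =>
      k ⟨-m, n, d, by rw [zpow_neg]; exact eq_inv_of_mul_eq_one_right e⟩
    exact ⟨one m (by simpa [n0] using e), n0⟩
  obtain ⟨m, n, n0, e⟩ := k p hp
  obtain ⟨m', n', n0', e'⟩ := k q hq
  have := z.2 (n * m') (-(n' * m)) (by
    rw [zpow_neg, zpow_mul, zpow_mul, e, e', ← zpow_mul, ← zpow_mul, mul_comm m, mul_inv_cancel])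
  have m0 : m' = 0 := (mul_eq_zero.1 this.1).resolve_left n0
  exact n0' (z.2 0 n' (by rw [e', m0]; simp)).2

/-- Ends of different canonical walls are different. -/
theorem cv_dif (S : Std T) (hA : Can T A) (hB : Can T B) (n1 : B ≠ A) (n2 : B ≠ st T A)
    (aA : a • A = A) (aB : a • B = B) (bA : b • A = A) (cB : c • B = B) (zb : Z2 a b)
    (zc : Z2 a c) : Dif a b c := fun m n j e => by
  have n0 : n = 0 := by_contra fun d => by
    have f : b ^ n • B = B := e ▸ mul_mem (zpow_mem (show a ∈ stabilizer G B from aB) m)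
      (pow_mem (show c ∈ stabilizer G B from cB) j)
    refine (hA.comm S hB (a := a) (b := b ^ n) ⟨zb.1.pow_right n, fun p q r => ?_⟩ aA
      (pow_mem (show b ∈ stabilizer G A from bA) n) aB f).elim n1 n2
    rw [← zpow_natCast, ← zpow_mul] at r
    exact (zb.2 _ _ r).imp_right fun t => (mul_eq_zero.1 t).resolve_left (by exact_mod_cast d)
  rw [n0, pow_zero, ← zpow_natCast] at e
  exact ⟨n0, by exact_mod_cast (zc.2 _ _ e.symm).2⟩

theorem cv_fix (h : b • A = A) : b⁻¹ • A = A := inv_mem (show b ∈ stabilizer G A from h)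

theorem cv_z2 (z : Z2 a b) : Z2 a b⁻¹ := ⟨z.1.inv_right, cv_ind z.2⟩

/-- An end of a canonical wall lies inside or outside another canonical wall. -/
theorem cv_or (S : Std T) (hA : Can T A) (hB : Can T B) (n1 : B ≠ A) (n2 : B ≠ st T A)
    (aA : a • A = A) (aB : a • B = B) (bA : b • A = A) (zb : Z2 a b) :
    Lk b B univ ∨ Lk b B ∅ := by
  obtain ⟨l, hl, z⟩ := cv_ray S hB (fun e => one_ne_zero (zb.2 1 0 (by simp [e])).1) aB
  obtain ⟨V, V', v, v', k⟩ := cv_half (cv_wall S hB z aB hl)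
  exact cv_const S.mfd z.1 z.1.inv_right v v' k (cv_dif S hA hB n1 n2 aA aB bA hl zb z)
    (cv_dif S hA hB n1 n2 aA aB bA (cv_fix hl) zb (cv_z2 z))

/-- Every end of an invariant chain of crossing walls is covered. -/
theorem cover (S : Std T) (hs : Commute a s) {Ψ : Set (Set X0)} (can : ∀ A ∈ Ψ, Can T A)
    (fx : ∀ A ∈ Ψ, a • A = A) (sΨ : ∀ A, s • A ∈ Ψ ↔ A ∈ Ψ) (ns : ∀ A ∈ Ψ, st T A ∉ Ψ)
    (hA : A ∈ Ψ) (mv : s • A ≠ A)
    (ch : Relation.ReflTransGen (fun B C => C ∈ Ψ ∧ ¬ Nst T B C) A (s • A))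
    (z : Z2 a b) (hb : b • A = A) : ∃ J ∈ Ψ, Lk b J univ := by
  by_contra no
  have hM := S.mfd
  have a1 : a ≠ 1 := fun e => one_ne_zero (z.2 1 0 (by simp [e])).1
  have hA' := (sΨ A).2 hA
  have ne : ∀ B ∈ Ψ, ∀ C ∈ Ψ, C ≠ st T B := fun B hB C hC e => ns B hB (e ▸ hC)
  have z' : Z2 a (s * b * s⁻¹) := ⟨(hs.mul_right z.1).mul_right hs.inv_right, fun m n e => by
    refine z.2 m n ?_
    rw [conj_zpow, ← mul_assoc, ← mul_assoc, (hs.zpow_left m).eq, mul_inv_eq_one, mul_assoc] at e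
    exact mul_left_cancel (e.trans (mul_one s).symm)⟩
  have hb' : (s * b * s⁻¹) • s • A = s • A := by rw [mul_smul, mul_smul, inv_smul_smul, hb]
  have l1 : ∀ J ∈ Ψ, J ≠ A → Lk b J ∅ := fun J hJ n =>
    (cv_or S (can A hA) (can J hJ) n (ne A hA J hJ) (fx A hA) (fx J hJ) hb z).resolve_left
      fun k => no ⟨J, hJ, k⟩
  have l2 : ∀ J ∈ Ψ, J ≠ s • A → Lk (s * b * s⁻¹) J ∅ := fun J hJ n x =>
    (l1 (s⁻¹ • J) ((sΨ _).1 (by rwa [smul_inv_smul])) (fun e => n (by rw [← e, smul_inv_smul]))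
      (s⁻¹ • x)).mono fun k q => iff_of_false (fun r => q.1 (by
        rwa [conj_pow, mul_smul, mul_smul, ← mem_inv_smul_set_iff] at r)) id
  have df : ∀ {B C p q}, B ∈ Ψ → C ∈ Ψ → C ≠ B → p • B = B → q • C = C → Z2 a p → Z2 a q →
      Dif a p q := fun hB hC n hp hq zp zq =>
    cv_dif S (can _ hB) (can _ hC) n (ne _ hB _ hC) (fx _ hB) (fx _ hC) hp hq zp zq
  have w1 := cv_wall S (can A hA) z (fx A hA) hb
  have w2 := cv_wall S (can _ hA') z' (fx _ hA') hb'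
  obtain ⟨D, U, U', hU, hU', hD, cD, lb, lc⟩ := e5 hM S.nh z.1 z.2 hs (df hA hA' mv hb hb' z z') w1
  rw [show tr s A = s • A from Set.ext fun _ => mem_smul_set_iff_inv_smul_mem.symm] at lc
  have bf := own hM z.1 z.2 z'.1 hD hU hU' cD w1 (df hA hA' mv (cv_fix hb) hb' (cv_z2 z) z') lb
    (l2 A hA mv.symm)
  have af : Sm a (s • A ∩ D) := compl_compl D ▸ own hM z'.1 z'.2 z.1 (fun x => not_congr (hD x))
    hU' hU (by rw [cv_cutc, union_comm]; exact cD) w2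
    (df hA' hA mv.symm (cv_fix hb') hb (cv_z2 z') z) (compl_compl (s • A) ▸ cv_lkc lc)
    (l1 _ hA' mv)
  have all : ∀ J ∈ Ψ, Sm a (J ∩ Dᶜ) ∨ Sm a (J ∩ D) := fun J hJ => by
    by_cases n1 : J = A
    · exact .inl (n1 ▸ bf)
    by_cases n2 : J = s • A
    · exact .inr (n2 ▸ af)
    obtain ⟨l, hl, y⟩ := cv_ray S (can J hJ) a1 (fx J hJ)
    exact side hM z.1 z'.1 hD hU hU' cD y.1 y.2 (cv_wall S (can J hJ) y (fx J hJ) hl)
      (df hJ hA (Ne.symm n1) hl hb y z) (df hJ hA' (Ne.symm n2) hl hb' y z')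
      (df hJ hA (Ne.symm n1) (cv_fix hl) hb (cv_z2 y) z)
      (df hJ hA' (Ne.symm n2) (cv_fix hl) hb' (cv_z2 y) z') (l1 J hJ n1) (l2 J hJ n2)
  have two : ∀ B C : Set X0, Sm a (B ∩ Dᶜ) → Sm a (C ∩ D) → SmP (Subgroup.zpowers a) (B ∩ C) :=
    fun B C p q => smP_zpowers.2 ((p.union q).mono fun x hx => by
      by_cases m : x ∈ D
      exacts [.inr ⟨hx.2, m⟩, .inl ⟨hx.1, m⟩])
  have fin : ∀ C, Relation.ReflTransGen (fun B C => C ∈ Ψ ∧ ¬ Nst T B C) A C →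
      C ∈ Ψ ∧ Sm a (C ∩ Dᶜ) := fun C h => by
    induction h with
    | refl => exact ⟨hA, bf⟩
    | @tail B C _ k ih =>
      refine ⟨k.1, (all C k.1).resolve_right fun q => k.2 ((can B ih.1).nst S (can C k.1)
        (.inr (.inl ((two B C ih.2 q).le ?_))))⟩
      exact Subgroup.zpowers_le.2 ⟨fx B ih.1, fx C k.1⟩
  exact (can _ hA').big hM (((two _ _ (fin _ ch).2 af).le
    (Subgroup.zpowers_le.2 (fx _ hA'))).mono fun x hx => ⟨hx, hx⟩)

/-- The same, for a family in which any two members are joined by a chain. -/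
theorem cov (S : Std T) : ∀ (h s : G) (P : Set (Set X0)), h ≠ 1 → Commute h s →
    (∀ A ∈ P, Can T A) → (∀ A ∈ P, h • A = A) → (∀ A, s • A ∈ P ↔ A ∈ P) →
    (∀ A ∈ P, st T A ∉ P) → (∀ A ∈ P, s • A ≠ A) →
    (∀ A ∈ P, ∀ B ∈ P, Relation.ReflTransGen (fun U V => U ∈ P ∧ V ∈ P ∧ ¬ Nst T U V) A B) →
    ∀ A ∈ P, ∀ t, Z2 h t → t • A = A → ∃ J ∈ P, ∀ x, ∀ᶠ n : ℕ in atTop, t ^ n • x ∈ J :=
  fun _ _ _ _ hs can fx sP ns mv ch A hA _ z ht =>
    (cover S hs can fx sP ns hA (mv A hA)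
      (Relation.ReflTransGen.mono (fun _ _ (k : _ ∧ _ ∧ _) => k.2) _ _ (ch A hA _ ((sP A).2 hA)))
      z ht).imp fun _ k => ⟨k.1, fun x => (k.2 x).mono fun _ q => q.2 trivial⟩

end Pool.Agent.Work.MP_3d425c_gt.Fr
end
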