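import Pool.Agent.Work.MP_3d425c_gt.Cw.X
import Pool.Agent.Work.MP_3d425c_gt.Fl.Cover
import Pool.Agent.Work.MP_3d425c_gt.Cw.Crs
import Pool.Agent.Work.MP_3d425c_gt.Sv.Wall
import Pool.Agent.Work.MP_3d425c_gt.Nh.Tree

-- merged part: Pool.Agent.Work.MP_3d425c_gt.Cw.Goal
section
/-! The two statements that remain, and the decomposition they give. -/

namespace Pool.Agent.Work.MP_3d425c_gt.Cw
open Set MulAction Pool.Agent.Work.MP_3d425c_gt.Md Pool.Agent.Work.MP_3d425c_gt.Bg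
open scoped Pointwise

variable {G X0 X1 X2 X3 : Type} [Group G] [MulAction G X0] [MulAction G X1] [MulAction G X2]
  [MulAction G X3] {T : Tri G X0 X1 X2 X3}

/-- a nontrivial finitely generated abelian normal subgroup -/
def Ab (G : Type) [Group G] : Prop :=
  ∃ Y : Subgroup G, Y ≠ ⊥ ∧ Y.Normal ∧ Y.FG ∧ ∀ x ∈ Y, ∀ y ∈ Y, x * y = y * x

/-- first goal: a vertex that is not simple has a fibre -/
def GoalV (T : Tri G X0 X1 X2 X3) : Prop :=
  ∀ (S : Std T), Nv.Disc T → ¬ Ab G → ∀ (V : Type) [MulAction G V] (Γ : SimpleGraph V)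
    (hd tl : S.cf.U → V), Jw0 S Γ hd tl → ∀ v : V, S1 T v ∨ S2 G Γ v → Sv.Sei G Γ v

/-- second goal: there is an uncrossed wall -/
def GoalU (T : Tri G X0 X1 X2 X3) : Prop :=
  Std T → Nv.Disc T → ¬ Ab G → ∀ a b : G, Z2 a b → ∃ A, Unc T A

theorem ab_or_geo (gv : GoalV T) (gu : GoalU T) (hM : Mfd T) (hD : Nv.Disc T)
    (tf : ∀ a : G, a ≠ 1 → ¬ IsOfFinOrder a) (h0 : NoHom G) : Ab G ∨ Sv.Geo G := by
  by_cases ab : Ab G
  · exact .inl ab
  have S : Std T := ⟨hM, tf, h0, fun l => ab (line_ab hM l)⟩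
  by_cases z : ∀ f : Multiplicative (ℤ × ℤ) →* G, ¬ Function.Injective f
  · exact .inr (.inl z)
  obtain ⟨f, hf⟩ : ∃ f : Multiplicative (ℤ × ℤ) →* G, Function.Injective f := by
    by_contra n
    exact z fun f k => n ⟨f, k⟩
  obtain ⟨V, _, Γ, hd, tl, J⟩ := exists_jw0 S (bound hM tf) (gu S hD ab _ _ (z2_of_hom f hf).1)
  exact .inr (.inr (.inr ⟨V, _, Γ, J.tr.tree, J.tr.act, J.tr.ninv, J.edge, J.red, J.min,
    fun v => (J.vert v).imp_right (gv S hD ab V Γ hd tl J v)⟩))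

end Pool.Agent.Work.MP_3d425c_gt.Cw
end

-- merged part: Pool.Agent.Work.MP_3d425c_gt.Fr.Max
section
/-! A maximal family of crossing walls: its frontier walls are uncrossed. -/

namespace Pool.Agent.Work.MP_3d425c_gt.Cw
open Set Relation MulAction Pool.Agent.Work.MP_3d425c_gt.Md Pool.Agent.Work.MP_3d425c_gt.Bg
  Pool.Agent.Work.MP_3d425c_gt.Bq Pool.Agent.Work.MP_3d425c_gt.Jw Pool.Agent.Work.MP_3d425c_gt.Nh
open scoped Pointwise

variable {G X0 X1 X2 X3 : Type} [Group G] [MulAction G X0] [MulAction G X1] [MulAction G X2]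
  [MulAction G X3] {T : Tri G X0 X1 X2 X3}

/-- one step in a family: a crossing or the passage to the other side -/
def Stp (T : Tri G X0 X1 X2 X3) (L : Set (Set X0)) (C D : Set X0) : Prop :=
  C ∈ L ∧ D ∈ L ∧ (¬ Nst T C D ∨ D = st T C)

/-- a class of crossing walls -/
structure Cls (T : Tri G X0 X1 X2 X3) (L : Set (Set X0)) : Prop where
  can : ∀ A ∈ L, Can T A
  star : ∀ A ∈ L, st T A ∈ L
  conn : ∀ A ∈ L, ∀ B ∈ L, ReflTransGen (Stp T L) A B
  crs : ∀ A ∈ L, ∃ B ∈ L, ¬ Nst T A B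
  blk : ∀ (g : G), ∀ A ∈ L, g • A ∈ L → g • L = L
  fin : SmP (stabilizer G L) L
  clo : ∀ (g : G), ∀ A ∈ L, ∀ B ∈ L, ¬ Nst T B (g • A) → g • A ∈ L

/-- the translates of the members of `P` and of their other sides -/
def gs (T : Tri G X0 X1 X2 X3) (P : Set (Set X0)) : Set (Set X0) :=
  {A | ∃ g : G, ∃ B ∈ P, A = g • B ∨ A = g • st T B}

theorem gs_self {P : Set (Set X0)} {A : Set X0} (a : A ∈ P) : A ∈ gs T P :=
  ⟨1, A, a, .inl (one_smul G A).symm⟩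

theorem gs_mono {P Q : Set (Set X0)} (k : P ⊆ Q) : gs T P ⊆ gs T Q :=
  fun _ ⟨g, B, b, e⟩ => ⟨g, B, k b, e⟩

theorem gs_smul {P : Set (Set X0)} (g : G) {A : Set X0} (a : A ∈ gs T P) : g • A ∈ gs T P :=
  let ⟨k, B, b, e⟩ := a
  ⟨g * k, B, b, e.imp (fun q => by rw [q, mul_smul]) fun q => by rw [q, mul_smul]⟩

theorem gs_fin {P : Set (Set X0)} (f : P.Finite) : SmP (⊤ : Subgroup G) (gs T P) :=
  ⟨P ∪ st T '' P, f.union (f.image _), fun _ ⟨g, B, b, e⟩ => e.elim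
    (fun q => ⟨B, .inl b, g, trivial, q⟩) fun q => ⟨_, .inr ⟨B, b, rfl⟩, g, trivial, q⟩⟩

theorem mx_last {F : ℕ → Prop} (h0 : F 0) {n : ℕ} (hn : ¬ F n) : ∃ k, F k ∧ ¬ F (k + 1) := by
  by_contra c
  refine hn (Nat.rec h0 (fun k a => by_contra fun b => c ⟨k, a, b⟩) n)

namespace Cf
variable (h : Cf T) {P : Set (Set X0)}
include h

theorem gs_can (c : ∀ A ∈ P, Can T A) {A : Set X0} (a : A ∈ gs T P) : Can T A := by
  obtain ⟨g, B, b, rfl | rfl⟩ := a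
  exacts [h.smul g _ (c B b), h.smul g _ (h.mst B (c B b))]

theorem gs_st (c : ∀ A ∈ P, Can T A) {A : Set X0} (a : A ∈ gs T P) : st T A ∈ gs T P := by
  obtain ⟨g, B, b, rfl | rfl⟩ := a
  · exact ⟨g, B, b, .inr (h.ast g B (c B b))⟩
  · exact ⟨g, B, b, .inl (by rw [h.ast g _ (h.mst B (c B b)), h.inv B (c B b)])⟩

theorem nst_st_iff {A B : Set X0} (hA : Can T A) (hB : Can T B) :
    Nst T (st T A) B ↔ Nst T A B :=
  ⟨fun k => h.inv A hA ▸ h.nst_st (h.mst A hA) hB k, h.nst_st hA hB⟩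

theorem nst_smul_iff (g : G) {A B : Set X0} (hA : Can T A) (hB : Can T B) :
    Nst T (g • A) (g • B) ↔ Nst T A B :=
  ⟨fun k => by simpa only [inv_smul_smul] using h.nst_smul g⁻¹ (h.smul g A hA) (h.smul g B hB) k,
    h.nst_smul g hA hB⟩

theorem stp_symm {L : Set (Set X0)} (c : ∀ A ∈ L, Can T A) {C D : Set X0} (k : Stp T L C D) :
    Stp T L D C :=
  ⟨k.2.1, k.1, k.2.2.imp (fun n q => n (h.nst_symm (c _ k.2.1) (c _ k.1) q)) fun q => by
    rw [q, h.inv C (c C k.1)]⟩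

/-- a wall that is nested with `P` is nested with all translates of `P` after translation -/
theorem nst_gs (c : ∀ A ∈ P, Can T A) {B : Set X0} (hB : Can T B)
    (n : ∀ A ∈ gs T P, Nst T B A) {C : Set X0} (hC : C ∈ gs T {B}) : ∀ A ∈ gs T P, Nst T C A := by
  have k : ∀ g : G, ∀ A ∈ gs T P, Nst T (g • B) A := fun g A a => by
    simpa only [smul_inv_smul] using
      h.nst_smul g hB (h.gs_can c (gs_smul g⁻¹ a)) (n _ (gs_smul g⁻¹ a))
  obtain ⟨g, _, rfl, rfl | rfl⟩ := hC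
  · exact k g
  · intro A a
    rw [← h.ast g _ hB]
    exact h.nst_st (h.smul g _ hB) (h.gs_can c a) (k g A a)

/-- the class of a crossed wall among the translates of a finite family -/
theorem cls (c : ∀ A ∈ P, Can T A) (f : P.Finite) {A₀ B₀ : Set X0} (a₀ : A₀ ∈ P) (b₀ : B₀ ∈ P)
    (n₀ : ¬ Nst T A₀ B₀) : ∃ L, Cls T L ∧ A₀ ∈ L ∧ L ⊆ gs T P ∧
      ∀ A ∈ L, ∀ B ∈ gs T P, ¬ Nst T A B → B ∈ L := by
  let L : Set (Set X0) := {A | ReflTransGen (Stp T (gs T P)) A₀ A}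
  have cg : ∀ A ∈ gs T P, Can T A := fun A a => h.gs_can c a
  have sub : L ⊆ gs T P := fun A a => by
    induction a with
    | refl => exact gs_self a₀
    | tail _ k _ => exact k.2.1
  have cl : ∀ A ∈ L, ∀ B ∈ gs T P, ¬ Nst T A B → B ∈ L := fun A a B b n =>
    ReflTransGen.tail a ⟨sub a, b, .inl n⟩
  have sl : ∀ A ∈ L, st T A ∈ L := fun A a =>
    ReflTransGen.tail a ⟨sub a, h.gs_st c (sub a), .inr rfl⟩
  have up : ∀ A ∈ L, ReflTransGen (Stp T L) A₀ A := fun A a => by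
    induction a with
    | refl => exact .refl
    | tail p k ih => exact ih.tail ⟨p, ReflTransGen.tail p k, k.2.2⟩
  have sy : ∀ {A B}, ReflTransGen (Stp T (gs T P)) A B → ReflTransGen (Stp T (gs T P)) B A :=
    fun k => Gl.rsymm k fun _ _ q => h.stp_symm cg q
  have tr : ∀ (g : G) {A B}, ReflTransGen (Stp T (gs T P)) A B →
      ReflTransGen (Stp T (gs T P)) (g • A) (g • B) := fun g A B k => by
    induction k with
    | refl => exact .refl
    | tail _ q ih =>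
      exact ih.tail ⟨gs_smul g q.1, gs_smul g q.2.1, q.2.2.imp
        (fun n m => n ((h.nst_smul_iff g (cg _ q.1) (cg _ q.2.1)).1 m)) fun e => by
          rw [e, h.ast g _ (cg _ q.1)]⟩
  have b1 : ∀ (g : G), ∀ A ∈ L, g • A ∈ L → ∀ B ∈ L, g • B ∈ L := fun g A a k B b =>
    ReflTransGen.trans k (tr g ((sy a).trans b))
  have blk : ∀ (g : G), ∀ A ∈ L, g • A ∈ L → g • L = L := fun g A a k => by
    refine Subset.antisymm ?_ fun B b => ?_
    · rintro _ ⟨B, b, rfl⟩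
      exact b1 g A a k B b
    · exact ⟨g⁻¹ • B, b1 g⁻¹ _ k (by rwa [inv_smul_smul]) B b, smul_inv_smul g B⟩
  refine ⟨L, ⟨fun A a => cg A (sub a), sl, fun A a B b => (Gl.rsymm (up A a) fun _ _ q =>
    h.stp_symm (fun A a => cg A (sub a)) q).trans (up B b), fun A a => ?_, blk, ?_,
    fun g A a B b n => cl B b _ (gs_smul g (sub a)) n⟩, .refl, sub, cl⟩
  · induction a with
    | refl => exact ⟨B₀, cl _ .refl _ (gs_self b₀) n₀, n₀⟩
    | @tail C D p k ih =>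
      rcases k.2.2 with n | rfl
      · exact ⟨C, p, fun q => n (h.nst_symm (cg _ k.2.1) (cg _ k.1) q)⟩
      · obtain ⟨B, b, n⟩ := ih
        exact ⟨B, b, fun q => n ((h.nst_st_iff (cg _ k.1) (cg _ (sub b))).1 q)⟩
  · obtain ⟨K, hK, k⟩ := gs_fin (T := T) f
    have ch : ∀ B : Set X0, ∃ C, (∃ g : G, g • B ∈ L) → C ∈ L ∧ ∃ g : G, C = g • B := fun B => by
      by_cases e : ∃ g : G, g • B ∈ L
      · exact e.elim fun g q => ⟨_, fun _ => ⟨q, g, rfl⟩⟩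
      · exact ⟨B, fun q => absurd q e⟩
    choose r hr using ch
    refine ⟨r '' K, hK.image _, fun A a => ?_⟩
    obtain ⟨B, b, g, -, rfl⟩ := k A (sub a)
    obtain ⟨m, p, e⟩ := hr B ⟨g, a⟩
    have q : (g * p⁻¹) • r B = g • B := by rw [e, mul_smul, inv_smul_smul]
    exact ⟨_, ⟨B, b, rfl⟩, g * p⁻¹, blk _ _ m (q ▸ a), q.symm⟩

/-- a nested family meets a bounded number of orbits -/
theorem nst_bound (hM : Mfd T) (hb : Bound T) : ∃ N : ℕ, ∀ R : Set (Set X0), R.Finite →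
    (∀ A ∈ R, Can T A) → (∀ A ∈ gs T R, ∀ B ∈ gs T R, Nst T A B) → (ob G '' R).ncard ≤ N := by
  obtain ⟨N, hN⟩ := hb
  refine ⟨N, fun R f c n => ?_⟩
  rcases R.eq_empty_or_nonempty with rfl | ⟨A, a⟩
  · simp
  let F : SubMulAction G (Set X0) := ⟨gs T R, fun g _ a => gs_smul g a⟩
  have : Nonempty F := ⟨⟨A, gs_self a⟩⟩
  obtain ⟨K, hK, cK, k⟩ := hN F _ _ _
    (h.sy0 hM F (fun _ a => h.gs_can c a) n (fun _ a => h.gs_st c a) (gs_fin f))
  refine ((ncard_le_ncard (t := (fun e : F => ob G e.1) '' K) ?_ (hK.image _)).trans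
    (ncard_image_le hK)).trans cK
  rintro _ ⟨B, b, rfl⟩
  obtain ⟨x, hx, g, e⟩ := k ⟨B, gs_self b⟩
  exact ⟨x, hx, by rw [show B = g • x.1 from congrArg Subtype.val e, ob_smul]⟩

/-- MAXIMAL: a crossed wall lies in a class whose frontier walls are uncrossed -/
theorem exists_cls (hM : Mfd T) (hb : Bound T) {A₀ : Set X0} (c₀ : Can T A₀) (u : ¬ Unc T A₀) :
    ∃ L, Cls T L ∧ A₀ ∈ L ∧ ∀ B, Can T B → (∀ A ∈ L, Nst T B A) →
      (∀ C, Can T C → ¬ Nst T B C → C ∈ L ∨ ∃ A ∈ L, ¬ Nst T C A) → Unc T B := by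
  classical
  obtain ⟨B₀, d₀, n₀⟩ : ∃ B, Can T B ∧ ¬ Nst T A₀ B := by
    by_contra n
    exact u ⟨c₀, fun B b => by_contra fun q => n ⟨B, b, q⟩⟩
  obtain ⟨N, hN⟩ := h.nst_bound hM hb
  let Ok : ℕ → Prop := fun n => ∃ P R : Set (Set X0), P.Finite ∧ R ⊆ P ∧ (∀ A ∈ P, Can T A) ∧
    A₀ ∈ P ∧ B₀ ∈ P ∧ (∀ A ∈ gs T R, ∀ B ∈ gs T R, Nst T A B) ∧
    (∀ A ∈ R, ∃ B ∈ gs T P, ¬ Nst T A B) ∧ (ob G '' R).ncard = n
  have o0 : Ok 0 := ⟨{A₀, B₀}, ∅, toFinite _, empty_subset _, by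
    rintro _ (rfl | rfl) <;> assumption, .inl rfl, .inr rfl, fun _ ⟨_, _, a, _⟩ => a.elim,
    fun _ a => a.elim, by simp⟩
  obtain ⟨n, ⟨P, R, f, s, c, a₀, b₀, ns, cr, e⟩, mx⟩ := mx_last (F := Ok) o0 (n := N + 1)
    fun ⟨P, R, f, s, c, _, _, ns, _, e⟩ => by
      have := hN R (f.subset s) (fun A a => c A (s a)) ns
      omega
  obtain ⟨L, hL, l₀, sub, cl⟩ := h.cls c f a₀ b₀ n₀
  refine ⟨L, hL, l₀, fun B hB nL fr => ⟨hB, fun Q hQ => by_contra fun nQ => mx ?_⟩⟩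
  have cB : ∀ A ∈ ({B} : Set (Set X0)), Can T A := fun A a => a ▸ hB
  have s1 : ∀ A ∈ gs T P, Nst T B A := fun A a => by_contra fun q => q (nL A
    ((fr A (h.gs_can c a) q).elim id fun ⟨C, l, k⟩ => cl C l A a fun m =>
      k (h.nst_symm (hL.can C l) (h.gs_can c a) m)))
  have s2 : ∀ A ∈ gs T {B}, Nst T B A := fun A a => by_contra fun q => by
    have k := h.nst_gs c hB s1 a
    rcases fr A (h.gs_can cB a) q with l | ⟨C, l, m⟩
    · obtain ⟨C, l, m⟩ := hL.crs A l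
      exact m (k C (sub l))
    · exact m (k C (sub l))
  have sp : ∀ A ∈ gs T (insert B R), A ∈ gs T {B} ∨ A ∈ gs T R := by
    rintro A ⟨g, C, rfl | m, q⟩
    exacts [.inl ⟨g, _, rfl, q⟩, .inr ⟨g, C, m, q⟩]
  have cR : ∀ A ∈ R, Can T A := fun A a => c A (s a)
  refine ⟨insert B (insert Q P), insert B R, (f.insert _).insert _,
    insert_subset_insert (s.trans (subset_insert _ _)), ?_, .inr (.inr a₀), .inr (.inr b₀),
    fun A a C m => ?_, ?_, ?_⟩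
  · rintro A (rfl | rfl | a)
    exacts [hB, hQ, c A a]
  · rcases sp A a with a | a <;> rcases sp C m with m | m
    · exact h.nst_gs cB hB s2 a C m
    · exact h.nst_gs c hB s1 a C (gs_mono s m)
    · exact h.nst_symm (h.gs_can cB m) (h.gs_can cR a) (h.nst_gs c hB s1 m A (gs_mono s a))
    · exact ns A a C m
  · rintro A (rfl | a)
    · exact ⟨Q, gs_self (.inr (.inl rfl)), nQ⟩
    · obtain ⟨C, m, k⟩ := cr A a
      exact ⟨C, gs_mono ((subset_insert _ _).trans (subset_insert _ _)) m, k⟩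
  · rw [image_insert_eq, ncard_insert_of_notMem ?_ ((f.subset s).image _), e]
    rintro ⟨A, a, q⟩
    obtain ⟨g, rfl⟩ := ob_eq_iff.1 q
    obtain ⟨C, m, k⟩ := cr _ a
    exact k (h.nst_gs c hB s1 ⟨g, B, rfl, .inl rfl⟩ C m)

end Cf

/-- a translate of a class is the class, or is nested with it and disjoint from it -/
theorem Cls.or {L : Set (Set X0)} (c : Cls T L) (g : G) :
    g • L = L ∨ ∀ A ∈ L, g • A ∉ L ∧ ∀ B ∈ L, Nst T B (g • A) := by
  by_cases e : g • L = L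
  · exact .inl e
  · exact .inr fun A a => ⟨fun k => e (c.blk g A a k), fun B b => by_contra fun n =>
      e (c.blk g A a (c.clo g A a B b n))⟩

theorem Cls.le {L : Set (Set X0)} (c : Cls T L) {A : Set X0} (a : A ∈ L) :
    stabilizer G A ≤ stabilizer G L := fun g k =>
  c.blk g A a ((mem_stabilizer_iff.1 k).symm ▸ a)

/-- a wall that is nested with a class and lies on one side of one member lies on one side of
every member -/
theorem Cls.side {L : Set (Set X0)} (c : Cls T L) (h : Cf T) {F A₀ : Set X0} (hF : Can T F)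
    (a₀ : A₀ ∈ L) (n : ∀ B ∈ L, Nst T B F) (s : F ⊆ A₀ ∨ F ⊆ st T A₀) :
    ∀ A ∈ L, F ⊆ A ∨ F ⊆ st T A := fun A a => by
  have k := c.conn A₀ a₀ A a
  clear a
  induction k with
  | refl => exact s
  | @tail C D _ q ih =>
    have cC := c.can C q.1
    have cD := c.can D q.2.1
    rcases q.2.2 with m | rfl
    · have m' : ¬ Nst T D C := fun r => m (h.nst_symm cD cC r)
      rcases n D q.2.1 with r | r | r | r
      · exact (m' (ih.elim (fun t => .inl (r.trans t)) fun t => .inr (.inl (r.trans t)))).elim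
      · exact .inr (h.inv F hF ▸ h.anti _ _ cD (h.mst F hF) r)
      · refine (m' ((h.nst_st_iff cD cC).1 ?_)).elim
        exact ih.elim (fun t => .inl (r.trans t)) fun t => .inr (.inl (r.trans t))
      · exact .inl r
    · rw [h.inv C cC]
      exact ih.symm

/-- a wall that is nested with a class lies, up to its side, on one side of every member -/
theorem Cls.far {L : Set (Set X0)} (c : Cls T L) (h : Cf T) {D A₀ : Set X0} (hD : Can T D)
    (a₀ : A₀ ∈ L) (n : ∀ B ∈ L, Nst T B D) :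
    ∃ F, (F = D ∨ F = st T D) ∧ ∀ A ∈ L, F ⊆ A ∨ F ⊆ st T A := by
  have cA := c.can A₀ a₀
  have cS := h.mst D hD
  have n' : ∀ B ∈ L, Nst T B (st T D) := fun B b =>
    h.nst_symm cS (c.can B b) (h.nst_st hD (c.can B b) (h.nst_symm (c.can B b) hD (n B b)))
  rcases n A₀ a₀ with r | r | r | r
  · exact ⟨_, .inr rfl, c.side h cS a₀ n' (.inr (h.anti _ _ cA hD r))⟩
  · exact ⟨_, .inl rfl, c.side h hD a₀ n (.inr (h.inv D hD ▸ h.anti _ _ cA cS r))⟩
  · exact ⟨_, .inr rfl, c.side h cS a₀ n' (.inl (h.inv A₀ cA ▸ h.anti _ _ (h.mst _ cA) hD r))⟩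
  · exact ⟨_, .inl rfl, c.side h hD a₀ n (.inl r)⟩

end Pool.Agent.Work.MP_3d425c_gt.Cw
end

-- merged part: Pool.Agent.Work.MP_3d425c_gt.Fl.Cell
section
/-! The cell cut out by a choice of sides of a family of walls. -/

namespace Pool.Agent.Work.MP_3d425c_gt.Cw
open Set MulAction Pool.Agent.Work.MP_3d425c_gt.Md Pool.Agent.Work.MP_3d425c_gt.Bg
  Pool.Agent.Work.MP_3d425c_gt.Bq Pool.Agent.Work.MP_3d425c_gt.Jw
open scoped Pointwise

variable {G X0 X1 X2 X3 : Type} [Group G] [MulAction G X0] [MulAction G X1] [MulAction G X2]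
  [MulAction G X3] {T : Tri G X0 X1 X2 X3}

theorem cl_orb {X Y : Type} [MulAction G X] [MulAction G Y] {H : Subgroup G} {D : Set X}
    (hD : SmP H D) {R : X → Y → Prop} (inv : ∀ g ∈ H, ∀ x y, R x y → R (g • x) (g • y))
    (fin : ∀ x, {y | R x y}.Finite) (y : Y) : SmP (H ⊓ stabilizer G y) {x | x ∈ D ∧ R x y} := by
  have c : ∀ y' : Y, ∃ γ ∈ H, (∃ g ∈ H, g • y' = y) → γ • y' = y := fun y' => by
    by_cases h : ∃ g ∈ H, g • y' = y
    · exact ⟨h.choose, h.choose_spec.1, fun _ => h.choose_spec.2⟩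
    · exact ⟨1, one_mem _, fun k => (h k).elim⟩
  choose γ mγ hγ using c
  obtain ⟨K, hK, k⟩ := hD
  refine ⟨⋃ o ∈ K, (fun y' => γ y' • o) '' {y' | R o y'}, hK.biUnion fun o _ => (fin _).image _,
    fun x hx => ?_⟩
  obtain ⟨o, ho, h, mh, rfl⟩ := k x hx.1
  have r : R o (h⁻¹ • y) := by simpa only [inv_smul_smul] using inv h⁻¹ (inv_mem mh) _ _ hx.2
  have e := hγ (h⁻¹ • y) ⟨h, mh, smul_inv_smul _ _⟩
  refine ⟨_, mem_biUnion ho ⟨_, r, rfl⟩, h * (γ (h⁻¹ • y))⁻¹,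
    ⟨H.mul_mem mh (H.inv_mem (mγ _)), ?_⟩, ?_⟩
  · show (h * (γ (h⁻¹ • y))⁻¹) • y = y
    rw [mul_smul, inv_smul_eq_iff.2 e.symm, smul_inv_smul]
  · rw [mul_smul, inv_smul_smul]

theorem cl_loc {X E : Type} [MulAction G X] [MulAction G E] {L : Set E}
    (hL : SmP (⊤ : Subgroup G) L) (fr : ∀ (g : G) (x : X), g • x = x → g = 1) {R : X → E → Prop}
    (inv : ∀ (g : G) x y, R x y → R (g • x) (g • y))
    (fin : ∀ e ∈ L, SmP (stabilizer G e) {x | R x e}) (x : X) : {e | e ∈ L ∧ R x e}.Finite := by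
  obtain ⟨K, hK, k⟩ := hL
  refine (hK.biUnion (t := fun o => {e | e ∈ L ∧ R x e ∧ ∃ g : G, e = g • o})
    fun o _ => ?_).subset fun e he => ?_
  · rcases eq_empty_or_nonempty {e | e ∈ L ∧ R x e ∧ ∃ g : G, e = g • o} with
      h | ⟨e0, h0, -, g0, q0⟩
    · rw [h]
      exact finite_empty
    obtain ⟨M, hM, m⟩ := fin e0 h0
    refine (hM.biUnion (t := fun c => {e | ∃ g : G, g • c = x ∧ e = g • e0}) fun c _ =>
      Set.Subsingleton.finite ?_).subset ?_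
    · rintro _ ⟨g, a, rfl⟩ _ ⟨g', a', rfl⟩
      rw [inv_mul_eq_one.1 (fr (g⁻¹ * g') c (by rw [mul_smul, a', ← a, inv_smul_smul]))]
    · rintro _ ⟨-, r, g, rfl⟩
      have a : g • o = (g * g0⁻¹) • e0 := by rw [q0, mul_smul, inv_smul_smul]
      rw [a] at r ⊢
      obtain ⟨c, hc, p, hp, b⟩ := m ((g * g0⁻¹)⁻¹ • x)
        (show R _ _ by simpa only [inv_smul_smul] using inv (g * g0⁻¹)⁻¹ _ _ r)
      refine mem_biUnion hc ⟨g * g0⁻¹ * p, ?_, ?_⟩
      · rw [mul_smul, ← b, smul_inv_smul]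
      · rw [mul_smul _ p, mem_stabilizer_iff.1 hp]
  · obtain ⟨o, ho, g, -, q⟩ := k e he.1
    exact mem_biUnion ho ⟨he.1, he.2, g, q⟩

theorem cl_union {X E : Type} [MulAction G X] [MulAction G E] {H : Subgroup G} {L : Set E}
    (hL : SmP H L) {R : X → E → Prop} (inv : ∀ g ∈ H, ∀ x y, R x y → R (g • x) (g • y))
    (hH : ∀ g ∈ H, ∀ e ∈ L, g • e ∈ L) (fin : ∀ e ∈ L, SmP H {x | R x e}) :
    SmP H {x | ∃ e ∈ L, R x e} := by
  obtain ⟨K, hK, k⟩ := hL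
  choose! M hM m using fin
  refine ⟨⋃ o ∈ K ∩ L, M o, (hK.inter_of_left L).biUnion fun o ho => hM o ho.2, ?_⟩
  rintro x ⟨e, he, r⟩
  obtain ⟨o, ho, g, mg, rfl⟩ := k e he
  have oL : o ∈ L := by simpa only [inv_smul_smul] using hH g⁻¹ (inv_mem mg) _ he
  obtain ⟨c, hc, p, hp, b⟩ := m o oL (g⁻¹ • x)
    (show R _ _ by simpa only [inv_smul_smul] using inv g⁻¹ (inv_mem mg) _ _ r)
  exact ⟨c, mem_biUnion (x := o) ⟨ho, oL⟩ hc, g * p, mul_mem mg hp,
    by rw [mul_smul, ← b, smul_inv_smul]⟩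

/-- the orbit of a lattice is not finite modulo a cyclic group -/
theorem cl_thick {X : Type} [MulAction G X] (fr : ∀ (g : G) (x : X), g • x = x → g = 1) {a b : G}
    (z : Z2 a b) {A : Set X} {x : X} (ha : ∀ n : ℕ, a ^ n • x ∈ A) (hb : ∀ n : ℕ, b ^ n • x ∈ A)
    (h : G) : ¬ Sm h A := by
  rintro ⟨K, hK, k⟩
  have one : ∀ c : G, (∀ n : ℕ, c ^ n • x ∈ A) → ∃ m p : ℤ, m ≠ 0 ∧ c ^ m = h ^ p := fun c hc => by
    choose f hf n e using fun n => k _ (hc n)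
    obtain ⟨i, j, ne, q⟩ := hK.exists_lt_map_eq_of_forall_mem hf
    have u : (c ^ i)⁻¹ * (h ^ n i * (h ^ n j)⁻¹) * c ^ j = 1 := fr _ x (by
      rw [mul_smul, mul_smul, mul_smul, e j, inv_smul_smul, ← q, ← e i, inv_smul_smul])
    refine ⟨(i : ℤ) - j, n i - n j, by omega, ?_⟩
    rw [zpow_sub, zpow_sub, zpow_natCast, zpow_natCast, mul_inv_eq_iff_eq_mul,
      ← inv_mul_eq_one.1 ((mul_assoc _ _ _).symm.trans u)]
  obtain ⟨m, p, m0, e1⟩ := one a ha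
  obtain ⟨n, q, n0, e2⟩ := one b hb
  have := z.2 (m * q) (-(n * p)) (by
    rw [zpow_neg, zpow_mul, zpow_mul, e1, e2, ← zpow_mul, ← zpow_mul, mul_comm, mul_inv_cancel])
  have p0 : p = 0 := (mul_eq_zero.1 (neg_eq_zero.1 this.2)).resolve_left n0
  exact m0 (z.2 m 0 (by rw [e1, p0, zpow_zero, zpow_zero, one_mul])).1

theorem Can.thick (hM : Mfd T) {A : Set X0} (k : Can T A) (h : G) : ¬ Sm h A := by
  obtain ⟨x, hx⟩ : A.Nonempty := nonempty_iff_ne_empty.2 fun e => k.big hM (e ▸ SmP.empty)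
  obtain ⟨a, b, z, w, -⟩ := k
  refine cl_thick T.free z (x := x) (fun n => ?_) (fun n => ?_) h
  · induction n with
    | zero => rwa [pow_zero, one_smul]
    | succ n ih => rwa [pow_succ', mul_smul, w.ia]
  · induction n with
    | zero => rwa [pow_zero, one_smul]
    | succ n ih => rwa [pow_succ', mul_smul, w.ib]

/-- a choice of one side of every wall of `L` -/
def Ori (T : Tri G X0 X1 X2 X3) (L σ : Set (Set X0)) : Prop :=
  σ ⊆ L ∧ ∀ A ∈ L, (A ∈ σ ↔ st T A ∉ σ)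

/-- the coboundary of a cell is finite modulo the group of the cell -/
theorem cell_cut (S : Std T) {L σ : Set (Set X0)} {H : Subgroup G} (hL : ∀ A ∈ L, Can T A)
    (hH : ∀ g ∈ H, ∀ A ∈ L, g • A ∈ L) (ho : SmP H L)
    (hc : ∀ A ∈ L, SmP H (cut T A)) (hσ : Ori T L σ) :
    SmP (H ⊓ stabilizer G σ) (cut T (⋃₀ σ)) := by
  have ci : ∀ (g : G) ε (A : Set X0), ε ∈ cut T A → g • ε ∈ cut T (g • A) :=
    fun g ε A h => (un_cut g A ε).2 h
  have gap : ∀ y : X0, {A | A ∈ L ∧ y ∉ A ∧ y ∉ st T A}.Finite := fun y => by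
    refine (cl_loc (R := fun y A => Can T A ∧ y ∉ A ∧ y ∉ st T A) (ho.le le_top) T.free
      (fun g x A h => ⟨h.1.smul g, fun k => h.2.1 (smul_mem_smul_set_iff.1 k), fun k => h.2.2 ?_⟩)
      (fun A hA => SmP.mono ((hL A hA).st_near S) fun x hx k => hx.2.2 (k.2 hx.2.1)) y).subset
      fun A hA => ⟨hA.1, hL A hA.1, hA.2⟩
    rwa [h.1.st_smul S, smul_mem_smul_set_iff] at k
  have fin : ∀ y : X0, {τ | Ori T L τ ∧ y ∉ ⋃₀ τ}.Finite := fun y => by
    refine Set.Finite.of_injOn (f := fun τ => τ ∩ {A | A ∈ L ∧ y ∉ A ∧ y ∉ st T A})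
      (fun τ _ => inter_subset_right) ?_ (gap y).finite_subsets
    have key : ∀ τ τ', Ori T L τ ∧ y ∉ ⋃₀ τ → Ori T L τ' ∧ y ∉ ⋃₀ τ' →
        τ ∩ {A | A ∈ L ∧ y ∉ A ∧ y ∉ st T A} = τ' ∩ {A | A ∈ L ∧ y ∉ A ∧ y ∉ st T A} → τ ⊆ τ' :=
      fun τ τ' a b e A hA => by
        have l := a.1.1 hA
        by_cases c : y ∈ st T A
        · exact (b.1.2 A l).2 fun d => b.2 ⟨_, d, c⟩
        · exact (e.subset ⟨hA, l, fun d => a.2 ⟨A, hA, d⟩, c⟩).1
    exact fun τ a τ' b e => (key τ τ' a b e).antisymm (key τ' τ b a e.symm)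
  have oi : ∀ g ∈ H, ∀ τ, Ori T L τ → Ori T L (g • τ) := fun g hg τ h => by
    refine ⟨?_, fun A hA => ?_⟩
    · rintro _ ⟨A, hA, rfl⟩
      exact hH g hg A (h.1 hA)
    · have l := hH g⁻¹ (inv_mem hg) A hA
      rw [mem_smul_set_iff_inv_smul_mem, mem_smul_set_iff_inv_smul_mem, h.2 _ l,
        (hL A hA).st_smul S]
  have ui : ∀ (g : G) (y : X0) (τ : Set (Set X0)), y ∉ ⋃₀ τ → g • y ∉ ⋃₀ (g • τ) := by
    rintro g y τ h ⟨_, ⟨A, hA, rfl⟩, k⟩
    exact h ⟨A, hA, smul_mem_smul_set_iff.1 k⟩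
  refine (cl_orb (cl_union ho (R := fun ε A => ε ∈ cut T A) (fun g _ => ci g) hH hc)
    (R := fun ε τ => Ori T L τ ∧ (T.d1 ε 0 ∉ ⋃₀ τ ∨ T.d1 ε 1 ∉ ⋃₀ τ))
    (fun g hg ε τ h => ⟨oi g hg τ h.1, ?_⟩)
    (fun ε => ((fin (T.d1 ε 0)).union (fin (T.d1 ε 1))).subset fun τ h =>
      h.2.imp (fun k => ⟨h.1, k⟩) fun k => ⟨h.1, k⟩) σ).mono fun ε h => ?_
  · rw [T.e1, T.e1]
    exact h.2.imp (ui g _ τ) (ui g _ τ)
  · have h : ¬ (T.d1 ε 0 ∈ ⋃₀ σ ↔ T.d1 ε 1 ∈ ⋃₀ σ) := h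
    by_cases a : T.d1 ε 0 ∈ ⋃₀ σ
    · have b : T.d1 ε 1 ∉ ⋃₀ σ := fun b => h (iff_of_true a b)
      obtain ⟨A, hA, c⟩ := a
      exact ⟨⟨A, hσ.1 hA, fun k => b ⟨A, hA, k.1 c⟩⟩, hσ, .inr b⟩
    · obtain ⟨A, hA, c⟩ : T.d1 ε 1 ∈ ⋃₀ σ := not_not.1 fun b => h (iff_of_false a b)
      exact ⟨⟨A, hσ.1 hA, fun k => a ⟨A, hA, k.2 c⟩⟩, hσ, .inl a⟩

/-- the group of a cell that is not finite modulo `h` has a new element that commutes with `h` -/
theorem cell_elt (S : Std T) {L σ : Set (Set X0)} {H : Subgroup G} (hL : ∀ A ∈ L, Can T A)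
    (hH : ∀ g ∈ H, ∀ A ∈ L, g • A ∈ L) (ho : SmP H L) (hc : ∀ A ∈ L, SmP H (cut T A))
    (hσ : Ori T L σ) (ne : σ.Nonempty) {h : G} (h1 : h ≠ 1) (hf : ∀ A ∈ L, h • A = A)
    (nm : ∀ g ∈ H, g * h * g⁻¹ = h ∨ g * h * g⁻¹ = h⁻¹) (big : ¬ Sm h (⋃₀ σ)ᶜ) :
    ∃ s ∈ H, s • σ = σ ∧ Commute h s ∧ s ∉ Subgroup.zpowers h := by
  by_contra n
  have n' : ∀ s ∈ H, s • σ = σ → s * h * s⁻¹ = h → s ∈ Subgroup.zpowers h := fun s a b c =>
    not_not.1 fun d => n ⟨s, a, b, (mul_inv_eq_iff_eq_mul.1 c).symm, d⟩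
  have sm : Sm h (cut T (⋃₀ σ)) := by
    obtain ⟨K, hK, k⟩ := cell_cut S hL hH ho hc hσ
    rw [← smP_zpowers]
    by_cases r : ∃ r ∈ H, r • σ = σ ∧ r * h * r⁻¹ = h⁻¹
    · obtain ⟨r, r1, r2, r3⟩ := r
      refine ⟨K ∪ (fun x => r • x) '' K, hK.union (hK.image _), fun x hx => ?_⟩
      obtain ⟨c, hc, p, hp, rfl⟩ := k x hx
      have p2 : p • σ = σ := hp.2
      rcases nm p hp.1 with e | e
      · exact ⟨c, .inl hc, p, n' p hp.1 p2 e, rfl⟩
      · refine ⟨r • c, .inr ⟨c, hc, rfl⟩, p * r⁻¹, n' _ (H.mul_mem hp.1 (H.inv_mem r1)) ?_ ?_,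
          by rw [mul_smul, inv_smul_smul]⟩
        · rw [mul_smul, inv_smul_eq_iff.2 r2.symm, p2]
        · have a : r⁻¹ * h * r = h⁻¹ := by
            have : h = r * h⁻¹ * r⁻¹ := (inv_inv h).symm.trans ((congrArg _ r3.symm).trans (by group))
            calc r⁻¹ * h * r = r⁻¹ * (r * h⁻¹ * r⁻¹) * r := by rw [← this]
              _ = h⁻¹ := by group
          calc p * r⁻¹ * h * (p * r⁻¹)⁻¹ = p * (r⁻¹ * h * r) * p⁻¹ := by group
            _ = (p * h * p⁻¹)⁻¹ := by rw [a]; group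
            _ = h := by rw [e, inv_inv]
    · refine ⟨K, hK, fun x hx => ?_⟩
      obtain ⟨c, hc, p, hp, rfl⟩ := k x hx
      exact ⟨c, hc, p, n' p hp.1 hp.2 ((nm p hp.1).resolve_right fun e => r ⟨p, hp.1, hp.2, e⟩),
        rfl⟩
  have := one_end S.mfd (a := h) (fun m k => by
      by_contra hm
      exact S.tf h h1 (isOfFinOrder_iff_zpow_eq_one.2 ⟨m, hm, k⟩)) (A := ⋃₀ σ)
    (fun x => exists_congr fun A => and_congr_right fun hA => by
      conv_lhs => rw [← hf A (hσ.1 hA), smul_mem_smul_set_iff]) sm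
  obtain ⟨A, hA⟩ := ne
  exact (hL A (hσ.1 hA)).thick S.mfd h
    ((this.resolve_right big).imp fun _ k => ⟨k.1, fun x hx => k.2 x ⟨A, hA, hx⟩⟩)

/-- an orbit of a lattice of one wall on one side of another wall makes the walls nested -/
def OneSide (T : Tri G X0 X1 X2 X3) : Prop := ∀ (A B : Set X0) (a b : G) (x : X0), Can T A →
  Can T B → Z2 a b → a • A = A → b • A = A →
  ((∀ q ∈ pp a b, q • x ∈ B) ∨ ∀ q ∈ pp a b, q • x ∉ B) → Nst T A B

/-- an element of the group of a nonempty cell outside the common group moves every wall -/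
theorem cell_move (S : Std T) (x0 : OneSide T) {L σ : Set (Set X0)} (hL : ∀ A ∈ L, Can T A)
    (hs : ∀ A ∈ L, st T A ∈ L) (cr : ∀ A ∈ L, ∃ B ∈ L, ¬ Nst T A B) (hσ : Ori T L σ) {x : X0}
    (hx : x ∉ ⋃₀ σ) {h s : G} (h1 : h ≠ 1) (hf : ∀ A ∈ L, h • A = A)
    (rt : ∀ A ∈ L, ∀ (s : G) (k : ℤ), s • A = A → k ≠ 0 → s ^ k ∈ Subgroup.zpowers h →
      s ∈ Subgroup.zpowers h)
    (sσ : s • σ = σ) (cm : Commute h s) (ns : s ∉ Subgroup.zpowers h) {A : Set X0} (hA : A ∈ L) :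
    s • A ≠ A := by
  intro e
  have z : Z2 h s := by
    refine ⟨cm, fun m n k => ?_⟩
    have n0 : n = 0 := by
      by_contra n0
      exact ns (rt A hA s n e n0 ⟨-m, by
        show h ^ (-m) = s ^ n
        rw [zpow_neg, inv_eq_iff_mul_eq_one, k]⟩)
    rw [n0, zpow_zero, mul_one] at k
    refine ⟨?_, n0⟩
    by_contra hm
    exact S.tf h h1 (isOfFinOrder_iff_zpow_eq_one.2 ⟨m, hm, k⟩)
  have inv : ∀ q ∈ pp h s, q • σ = σ := fun q hq => by
    have : pp h s ≤ stabilizer G σ := (Subgroup.closure_le _).2 (by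
      rintro _ (rfl | rfl)
      · refine Set.ext fun B => ⟨?_, fun k => ⟨B, k, hf B (hσ.1 k)⟩⟩
        rintro ⟨C, hC, rfl⟩
        exact (congrArg (· ∈ σ) (hf C (hσ.1 hC))).mpr hC
      · exact sσ)
    exact this hq
  have out : ∀ B ∈ σ, ∀ q ∈ pp h s, q • x ∉ B := fun B hB q hq k => by
    refine hx ⟨q⁻¹ • B, ?_, mem_inv_smul_set_iff.2 k⟩
    rw [← mem_smul_set_iff_inv_smul_mem, inv q hq]
    exact hB
  obtain ⟨B, hB, nB⟩ := cr A hA
  by_cases m : B ∈ σ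
  · exact nB (x0 A B h s x (hL A hA) (hL B hB) z (hf A hA) e (.inr (out B m)))
  · have m' : st T B ∈ σ := not_not.1 fun k => m ((hσ.2 B hB).2 k)
    have a := hL A hA
    have b := hL B hB
    rcases x0 A _ h s x a (hL _ (hs B hB)) z (hf A hA) e (.inr (out _ m')) with k | k | k | k
    · exact nB (.inr (.inl k))
    · exact nB (.inl (b.st_st S ▸ k))
    · have := (a.star S).st_anti S (b.star S) k
      rw [a.st_st S, b.st_st S] at this
      exact nB (.inr (.inr (.inr this)))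
    · have := (b.star S).st_anti S a k
      rw [b.st_st S] at this
      exact nB (.inr (.inr (.inl this)))

/-- the sides of the walls of `L` that miss `F` -/
def sig (T : Tri G X0 X1 X2 X3) (L : Set (Set X0)) (F : Set X0) : Set (Set X0) :=
  {A | A ∈ L ∧ F ⊆ st T A}

theorem sig_ori (S : Std T) {L : Set (Set X0)} (hL : ∀ A ∈ L, Can T A) (hs : ∀ A ∈ L, st T A ∈ L)
    {F : Set X0} (ne : F.Nonempty) (hF : ∀ A ∈ L, F ⊆ A ∨ F ⊆ st T A) : Ori T L (sig T L F) := by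
  obtain ⟨x, hx⟩ := ne
  refine ⟨fun A h => h.1, fun A hA => ⟨fun h k => ?_, fun h => ⟨hA, ?_⟩⟩⟩
  · have := k.2 hx
    rw [(hL A hA).st_st S] at this
    exact (hL A hA).st_sub S (h.2 hx) this
  · exact (hF A hA).resolve_left fun k => h ⟨hs A hA, by rwa [(hL A hA).st_st S]⟩

theorem sig_out (S : Std T) {L : Set (Set X0)} (hL : ∀ A ∈ L, Can T A) {F : Set X0} :
    F ⊆ (⋃₀ sig T L F)ᶜ := fun _ hx ⟨A, hA, k⟩ => (hL A hA.1).st_sub S (hA.2 hx) k

/-- the cell of a wall that lies on one side of all walls of `L` -/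
theorem frontier_bc (S : Std T) (x0 : OneSide T) {L : Set (Set X0)} {H : Subgroup G}
    (hL : ∀ A ∈ L, Can T A) (hs : ∀ A ∈ L, st T A ∈ L) (cr : ∀ A ∈ L, ∃ B ∈ L, ¬ Nst T A B)
    (ne : L.Nonempty) (hH : ∀ g ∈ H, ∀ A ∈ L, g • A ∈ L) (ho : SmP H L)
    (le : ∀ A ∈ L, stabilizer G A ≤ H) {h : G} (h1 : h ≠ 1) (hf : ∀ A ∈ L, h • A = A)
    (nm : ∀ g ∈ H, g * h * g⁻¹ = h ∨ g * h * g⁻¹ = h⁻¹)
    (rt : ∀ A ∈ L, ∀ (s : G) (k : ℤ), s • A = A → k ≠ 0 → s ^ k ∈ Subgroup.zpowers h →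
      s ∈ Subgroup.zpowers h)
    {F : Set X0} (cF : Can T F) (hF : ∀ A ∈ L, F ⊆ A ∨ F ⊆ st T A) :
    ∃ s ∈ H, s • sig T L F = sig T L F ∧ Commute h s ∧ s ∉ Subgroup.zpowers h ∧
      ∀ A ∈ L, s • A ≠ A := by
  obtain ⟨x, hx⟩ : F.Nonempty :=
    nonempty_iff_ne_empty.2 fun e => cF.big S.mfd (e ▸ SmP.empty)
  have o := sig_ori S hL hs ⟨x, hx⟩ hF
  obtain ⟨A, hA⟩ := ne
  have n : (sig T L F).Nonempty := by
    by_cases m : A ∈ sig T L F
    · exact ⟨A, m⟩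
    · exact ⟨_, not_not.1 fun k => m ((o.2 A hA).2 k)⟩
  obtain ⟨s, a, b, c, d⟩ := cell_elt S hL hH ho (fun A hA => (hL A hA).fin.le (le A hA)) o n h1 hf
    nm fun k => cF.thick S.mfd h (k.imp fun _ k => ⟨k.1, fun y hy => k.2 y (sig_out S hL hy)⟩)
  exact ⟨s, a, b, c, d, fun A hA => cell_move S x0 hL hs cr o (sig_out S hL hx) h1 hf rt b c d hA⟩

theorem Cls.bc {L : Set (Set X0)} (C : Cls T L) (S : Std T) (x0 : OneSide T) (ne : L.Nonempty)
    {h : G} (h1 : h ≠ 1) (hf : ∀ A ∈ L, h • A = A)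
    (nm : ∀ g : G, g • L = L → g * h * g⁻¹ = h ∨ g * h * g⁻¹ = h⁻¹)
    (rt : ∀ A ∈ L, ∀ (s : G) (k : ℤ), s • A = A → k ≠ 0 → s ^ k ∈ Subgroup.zpowers h →
      s ∈ Subgroup.zpowers h)
    {F : Set X0} (cF : Can T F) (hF : ∀ A ∈ L, F ⊆ A ∨ F ⊆ st T A) :
    ∃ s : G, s • L = L ∧ s • sig T L F = sig T L F ∧ Commute h s ∧ s ∉ Subgroup.zpowers h ∧
      ∀ A ∈ L, s • A ≠ A :=
  frontier_bc S x0 (H := stabilizer G L) C.can C.star C.crs ne
    (fun _ hg _ hA => mem_stabilizer_iff.1 hg ▸ smul_mem_smul_set hA) C.fin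
    (fun A hA g hg => C.blk g A hA (by rwa [mem_stabilizer_iff.1 hg])) h1 hf nm rt cF hF

end Pool.Agent.Work.MP_3d425c_gt.Cw
end

-- merged part: Pool.Agent.Work.MP_3d425c_gt.Fl.DefsA
section
/-! Ends of sets that are invariant under one element, crossing families of walls: definitions. -/

namespace Pool.Agent.Work.MP_3d425c_gt.Fr
open Set Relation MulAction Filter Pool.Agent.Work.MP_3d425c_gt.Md Pool.Agent.Work.MP_3d425c_gt.Bg
  Pool.Agent.Work.MP_3d425c_gt.Jw Pool.Agent.Work.MP_3d425c_gt.Cw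
open scoped Pointwise

section
variable {G X : Type} [Group G] [MulAction G X]

/-- the positive powers of `t` carry every point into `C` -/
def In (t : G) (C : Set X) : Prop := ∀ x : X, ∀ᶠ n : ℕ in atTop, t ^ n • x ∈ C

/-- the two sets agree along `t` -/
def Ag (t : G) (C D : Set X) : Prop := In t {x | x ∈ C ↔ x ∈ D}

/-- a ray of the wall `A` -/
def Ry (h : G) (A : Set X) (t : G) : Prop := Z2 h t ∧ t • A = A

/-- the fibre of a family -/
structure Fib (L : Set (Set X)) (h : G) : Prop where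
  ne : h ≠ 1
  fix : ∀ A ∈ L, h • A = A
  nm : ∀ g : G, g • L = L → g * h * g⁻¹ = h ∨ g * h * g⁻¹ = h⁻¹
  rt : ∀ A ∈ L, ∀ s : G, s • A = A → Z2 h s ∨ s ∈ Subgroup.zpowers h

end

variable {G X0 X1 X2 X3 : Type} [Group G] [MulAction G X0] [MulAction G X1] [MulAction G X2]
  [MulAction G X3] (T : Tri G X0 X1 X2 X3)

/-- `C` is invariant under `h`, and its boundary runs along the rays in `L` -/
def En (h : G) (C : Set X0) (L : Set G) : Prop :=
  (∀ x, h • x ∈ C ↔ x ∈ C) ∧ ∃ K : Set X1, K.Finite ∧ ∀ e ∈ cut T C, ∃ c ∈ K, ∃ m : ℤ,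
    e = h ^ m • c ∨ ∃ t ∈ L, ∃ k : ℕ, e = (h ^ m * t ^ k) • c

/-- along `t` the set `C` is the side of a wall -/
def Wl (h t : G) (C : Set X0) : Prop := ∃ A, IsWall T h t A ∧ Ag t C A

/-- two members that are not nested -/
def Cr (L : Set (Set X0)) (A B : Set X0) : Prop := A ∈ L ∧ B ∈ L ∧ ¬ Nst T A B

/-- one side of each wall -/
structure Sel (L σ : Set (Set X0)) : Prop where
  sub : σ ⊆ L
  one : ∀ A ∈ L, A ∈ σ ↔ st T A ∉ σ

/-- a wall that bounds the family -/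
structure Bd (L : Set (Set X0)) (B : Set X0) : Prop where
  can : Can T B
  nst : ∀ A ∈ L, Nst T B A
  crs : ∀ C, Can T C → ¬ Nst T B C → ∃ A ∈ L, ¬ Nst T C A

/-- the far sides of the walls at a vertex with group `Λ` -/
structure Far (Λ : Subgroup G) (Φ : Set (Set X0)) : Prop where
  unc : ∀ F ∈ Φ, Unc T F
  dis : ∀ F ∈ Φ, ∀ F' ∈ Φ, F ≠ F' → F ⊆ st T F'
  nst : ∀ F ∈ Φ, st T F ∉ Φ
  inv : ∀ g ∈ Λ, ∀ F ∈ Φ, g • F ∈ Φ
  stab : ∀ F ∈ Φ, ∀ g : G, g • F = F → g ∈ Λ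
  max : ∀ B, Unc T B → ∃ F ∈ Φ, B ⊆ F ∨ st T B ⊆ F
  two : ∃ F ∈ Φ, ∃ F' ∈ Φ, F ≠ F'

/-- a gap between two disjoint walls -/
structure Gap (h : G) (F₁ F₂ : Set X0) (t₁ t₂ : G) (D : Set X0) : Prop where
  r1 : Ry h F₁ t₁
  r2 : Ry h F₂ t₂
  d1 : D ⊆ F₁ᶜ
  d2 : D ⊆ F₂ᶜ
  en : En T h D {t₁, t₂}
  a1 : Ag t₁ D F₁ᶜ
  a2 : Ag t₂ D F₂ᶜ

end Pool.Agent.Work.MP_3d425c_gt.Fr
end

-- merged part: Pool.Agent.Work.MP_3d425c_gt.Fl.Front
section
/-! The frontier wall of a class of crossing walls. -/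

namespace Pool.Agent.Work.MP_3d425c_gt.Fr
open Set Relation MulAction Filter Pool.Agent.Work.MP_3d425c_gt.Md Pool.Agent.Work.MP_3d425c_gt.Bg
  Pool.Agent.Work.MP_3d425c_gt.Jw Pool.Agent.Work.MP_3d425c_gt.Bq Pool.Agent.Work.MP_3d425c_gt.Cw
open scoped Pointwise

variable {G X0 X1 X2 X3 : Type} [Group G] [MulAction G X0] [MulAction G X1] [MulAction G X2]
  [MulAction G X3] {T : Tri G X0 X1 X2 X3} {h : G} {L : Set (Set X0)} {F : Set X0}

theorem ft_cov (S : Std T) : Cvr T := fun h s P _ c can fx i ns mv ch A a t z ft => by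
  obtain ⟨J, j, k⟩ := cover S c can fx i ns a (mv A a)
    (ReflTransGen.mono (fun _ _ e => ⟨e.2.1, e.2.2⟩) _ _ (ch A a _ ((i A).2 a))) z ft
  exact ⟨J, j, fun x => (k x).mono fun _ q => q.2 trivial⟩

theorem ft_one (S : Std T) : OneSide T := fun A B a b x hA hB z h1 h2 c =>
  nst_of_orbit S hA hB (fun p hp => by
    obtain ⟨n, n0, -, k⟩ := Subgroup.exists_pow_mem_of_relIndex_ne_zero
      (cn_fix S.mfd hA z h1 h2).2 hp
    exact ⟨n, n0, (Subgroup.mem_inf.1 k).1⟩) x c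

theorem ft_conn (S : Std T) (C : Cls T L) (ne : F.Nonempty)
    (hF : ∀ A ∈ L, F ⊆ A ∨ F ⊆ st T A) : ∀ A ∈ sig T L F, ∀ B ∈ sig T L F,
      ReflTransGen (fun U V => V ∈ sig T L F ∧ ¬ Nst T U V) A B := by
  have o := sig_ori S C.can C.star ne hF
  have f := S.cf
  have pk : ∀ U ∈ L, ∃ U' ∈ sig T L F, U' = U ∨ U' = st T U := fun U u => by
    by_cases c : U ∈ sig T L F
    · exact ⟨U, c, .inl rfl⟩
    · exact ⟨_, by_contra fun q => c ((o.2 U u).2 q), .inr rfl⟩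
  have un : ∀ U ∈ L, ∀ V ∈ sig T L F, ∀ W ∈ sig T L F, (V = U ∨ V = st T U) →
      (W = U ∨ W = st T U) → V = W := by
    rintro U u V v W w (rfl | rfl) (rfl | rfl)
    · rfl
    · exact ((o.2 _ u).1 v w).elim
    · exact ((o.2 _ u).1 w v).elim
    · rfl
  have l1 : ∀ U V U', Can T U → Can T V → (U' = U ∨ U' = st T U) → Nst T U' V → Nst T U V := by
    rintro U V _ u v (rfl | rfl) n
    exacts [n, (f.nst_st_iff u v).1 n]
  intro A a
  have key : ∀ B, ReflTransGen (Stp T L) A B → ∀ B' ∈ sig T L F, (B' = B ∨ B' = st T B) →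
      ReflTransGen (fun U V => V ∈ sig T L F ∧ ¬ Nst T U V) A B' := fun B k => by
    induction k with
    | refl =>
      intro B' b e
      rw [un A a.1 B' b A a e (.inl rfl)]
    | @tail U V _ q ih =>
      intro V' v e
      have cU := C.can U q.1
      have cV := C.can V q.2.1
      rcases q.2.2 with n | rfl
      · obtain ⟨U', u, e'⟩ := pk U q.1
        exact (ih U' u e').tail ⟨v, fun m => n (f.nst_symm cV cU (l1 V U V' cV cU e
          (f.nst_symm cU (C.can V' v.1) (l1 U V' U' cU (C.can V' v.1) e' m))))⟩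
      · rw [f.inv U cU] at e
        exact ih V' v e.symm
  exact fun B b => key B (C.conn A a.1 B b.1) B b (.inl rfl)

theorem Fib.root (S : Std T) (f : Fib L h) : ∀ A ∈ L, ∀ (s : G) (k : ℤ), s • A = A → k ≠ 0 →
    s ^ k ∈ Subgroup.zpowers h → s ∈ Subgroup.zpowers h := fun A a s k e k0 ⟨m, q⟩ =>
  (f.rt A a s e).resolve_left fun z => k0 (z.2 (-m) k (by
    rw [← q, ← zpow_add, neg_add_cancel, zpow_zero])).2

/-- FRONTIER -/
theorem front (S : Std T) (C : Cls T L) (ne : L.Nonempty) (f : Fib L h) (cF : Can T F)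
    (hF : ∀ A ∈ L, F ⊆ A ∨ F ⊆ st T A) : ∃ B, Can T B ∧ h • B = B ∧ F ⊆ st T B ∧
      (∃ A ∈ L, A ⊆ B) ∧ (∀ A ∈ L, Nst T B A) ∧
      ∀ D, Can T D → ¬ Nst T B D → D ∈ L ∨ ∃ A ∈ L, ¬ Nst T D A := by
  obtain ⟨s, -, i, cm, -, mv⟩ := C.bc S (ft_one S) ne f.ne f.fix f.nm (f.root S) cF hF
  have o := sig_ori S C.can C.star (fw_ne cF) hF
  have d : Fd T h s (sig T L F) F := ⟨f.ne, cm, fun A a => C.can A a.1, fun A a => f.fix A a.1,
    fw_zp i, cF, fun _ a => a.2, fun A a => mv A a.1, ft_conn S C (fw_ne cF) hF, by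
      obtain ⟨A, a⟩ := ne
      by_cases c : A ∈ sig T L F
      · exact ⟨A, c⟩
      · exact ⟨_, by_contra fun q => c ((o.2 A a).2 q)⟩⟩
  obtain ⟨B, cB, -, hB, -, FB, ⟨A, a, AB⟩, n, k⟩ := d.wall S (ft_cov S) (ft_one S)
  refine ⟨B, cB, hB, FB, ⟨A, a.1, AB⟩, fun D m => ?_, fun D cD q =>
    .inr ((k D cD q).imp fun _ e => ⟨e.1.1, e.2⟩)⟩
  by_cases c : D ∈ sig T L F
  · exact n D c
  · have cD := C.can D m
    exact S.cf.nst_symm cD cB ((S.cf.nst_st_iff cD cB).1 (S.cf.nst_symm cB (cD.star S)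
      (n _ (by_contra fun q => c ((o.2 D m).2 q)))))

/-- a crossed wall lies in a class with a fibre and with uncrossed frontier walls -/
theorem fr (S : Std T) (hb : Bound T) (fa : ∀ L, Cls T L → L.Nonempty → ∃ h : G, Fib L h)
    {A : Set X0} (c : Can T A) (u : ¬ Unc T A) : ∃ (L : Set (Set X0)) (h : G), Fib L h ∧
      Cls T L ∧ A ∈ L ∧ ∀ F, Can T F → (∀ A ∈ L, F ⊆ A ∨ F ⊆ st T A) →
        ∃ B, Unc T B ∧ h • B = B ∧ F ⊆ st T B ∧ ∃ A ∈ L, A ⊆ B := by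
  obtain ⟨L, C, a, mx⟩ := S.cf.exists_cls S.mfd hb c u
  obtain ⟨h, f⟩ := fa L C ⟨A, a⟩
  refine ⟨L, h, f, C, a, fun F cF hF => ?_⟩
  obtain ⟨B, cB, hB, FB, AB, n, k⟩ := front S C ⟨A, a⟩ f cF hF
  exact ⟨B, mx B cB n k, hB, FB, AB⟩

end Pool.Agent.Work.MP_3d425c_gt.Fr
end

-- merged part: Pool.Agent.Work.MP_3d425c_gt.Cw.Klein
section
/-! A torsion free group with a rank two lattice of index two is the Klein bottle group. -/

namespace Pool.Agent.Work.MP_3d425c_gt.Kl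
open Set Subgroup MulAction

variable {G : Type} [Group G]

theorem pw (tf : ∀ a : G, a ≠ 1 → ¬ IsOfFinOrder a) {a : G} {n : ℤ} (hn : n ≠ 0)
    (h : a ^ n = 1) : a = 1 :=
  by_contra fun k => tf a k (isOfFinOrder_iff_zpow_eq_one.2 ⟨n, hn, h⟩)

theorem cm {S : Subgroup G} (e : S ≃* Multiplicative (ℤ × ℤ)) {x y : G} (hx : x ∈ S)
    (hy : y ∈ S) : Commute x y := by
  have : (⟨x, hx⟩ * ⟨y, hy⟩ : S) = ⟨y, hy⟩ * ⟨x, hx⟩ :=
    e.injective (by rw [map_mul, map_mul, mul_comm])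
  exact congrArg Subtype.val this

/-- a proper subgroup of the lattice that is closed under roots is cyclic -/
theorem cyc {S H : Subgroup G} (e : S ≃* Multiplicative (ℤ × ℤ)) (le : H ≤ S)
    (sat : ∀ x ∈ S, ∀ n : ℤ, n ≠ 0 → x ^ n ∈ H → x ∈ H) (ne : ∃ x ∈ S, x ∉ H) :
    ∃ q, H = zpowers q := by
  have key : ∀ (π : ℤ × ℤ →+ ℤ) (b : ℤ × ℤ), (∀ z, π z = 0 → ∃ n : ℤ, z = n • b) →
      (e.symm (.ofAdd b)).1 ∉ H → ∃ q, H = zpowers q := fun π b hb nb => by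
    have : IsCyclic H := isCyclic_of_injective
      ((AddMonoidHom.toMultiplicative π).comp (e.toMonoidHom.comp (Subgroup.inclusion le))) (by
        refine (injective_iff_map_eq_one _).2 fun x hx => ?_
        obtain ⟨n, hn⟩ := hb (e (Subgroup.inclusion le x)).toAdd hx
        have k : Subgroup.inclusion le x = e.symm (.ofAdd b) ^ n := e.injective (by
          rw [map_zpow, e.apply_symm_apply, ← ofAdd_zsmul, ← hn, ofAdd_toAdd])
        have k' : x.1 = (e.symm (.ofAdd b)).1 ^ n := congrArg Subtype.val k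
        by_cases z : n = 0
        · exact Subtype.ext (by rw [k', z, zpow_zero]; rfl)
        · exact (nb (sat _ (e.symm (.ofAdd b)).2 n z (k' ▸ x.2))).elim)
    obtain ⟨q, hq⟩ := (isCyclic_iff_exists_zpowers_eq_top).1 this
    refine ⟨q.1, le_antisymm (fun x hx => ?_) (zpowers_le_of_mem q.2)⟩
    obtain ⟨n, hn⟩ : (⟨x, hx⟩ : H) ∈ zpowers q := hq ▸ mem_top _
    exact ⟨n, congrArg Subtype.val hn⟩
  by_cases b : (e.symm (.ofAdd (0, 1))).1 ∈ H
  · refine key (AddMonoidHom.snd ℤ ℤ) (1, 0) (fun z hz => ⟨z.1, Prod.ext (by simp) (by simpa using hz)⟩)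
      fun a => ?_
    obtain ⟨x, hx, nx⟩ := ne
    have k : (⟨x, hx⟩ : S) = e.symm (.ofAdd (1, 0)) ^ (e ⟨x, hx⟩).toAdd.1 *
        e.symm (.ofAdd (0, 1)) ^ (e ⟨x, hx⟩).toAdd.2 := e.injective (by
      rw [map_mul, map_zpow, map_zpow, e.apply_symm_apply, e.apply_symm_apply, ← ofAdd_zsmul,
        ← ofAdd_zsmul, ← ofAdd_add]
      simp)
    have k' : x = (e.symm (.ofAdd (1, 0))).1 ^ (e ⟨x, hx⟩).toAdd.1 *
        (e.symm (.ofAdd (0, 1))).1 ^ (e ⟨x, hx⟩).toAdd.2 := congrArg Subtype.val k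
    exact nx (k' ▸ mul_mem (zpow_mem a _) (zpow_mem b _))
  · exact key (AddMonoidHom.fst ℤ ℤ) (0, 1)
      (fun z hz => ⟨z.2, Prod.ext (by simpa using hz) (by simp)⟩) b

/-- `K` is generated by `p` and `g`, the subgroup `S` by `p` and `g ^ 2`, and `g` inverts `p` -/
structure Kb (K S : Subgroup G) (p g : G) : Prop where
  ne : p ≠ 1
  ns : g ∉ S
  cj : g * p * g⁻¹ = p⁻¹
  eS : S = closure {p, g * g}
  eK : K = closure {p, g}

theorem klein (tf : ∀ a : G, a ≠ 1 → ¬ IsOfFinOrder a) {K S : Subgroup G}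
    (e : S ≃* Multiplicative (ℤ × ℤ)) (le : S ≤ K) {g : G} (gK : g ∈ K) (gS : g ∉ S)
    (two : ∀ k ∈ K, k ∈ S ∨ g⁻¹ * k ∈ S) (nc : ∃ x ∈ S, g * x ≠ x * g) :
    ∃ p g', Kb K S p g' ∧ g⁻¹ * g' ∈ S := by
  have g2 : g * g ∈ S := (two _ (mul_mem gK gK)).resolve_right (by simpa using gS)
  have cS : ∀ x ∈ S, g * x * g⁻¹ ∈ S := fun x hx =>
    (two _ (mul_mem (mul_mem gK (le hx)) (inv_mem gK))).resolve_right fun k => gS (by
      have : g = (g⁻¹ * (g * x * g⁻¹))⁻¹ * x := by group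
      exact this ▸ mul_mem (inv_mem k) hx)
  have cc : ∀ x ∈ S, g * (g * x * g⁻¹) * g⁻¹ = x := fun x hx => by
    have := (cm e g2 hx).eq
    calc g * (g * x * g⁻¹) * g⁻¹ = (g * g * x) * g⁻¹ * g⁻¹ := by group
      _ = x := by rw [this]; group
  let Pp : Subgroup G := S ⊓ centralizer {g}
  have mp : ∀ x, x ∈ Pp ↔ x ∈ S ∧ g * x * g⁻¹ = x := fun x => by
    simp only [Pp, mem_inf, mem_centralizer_singleton_iff, mul_inv_eq_iff_eq_mul]
    exact and_congr_right fun _ => eq_comm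
  let Pm : Subgroup G :=
    { carrier := {x | x ∈ S ∧ g * x * g⁻¹ = x⁻¹}
      one_mem' := ⟨one_mem _, by simp⟩
      mul_mem' := fun {x y} a b => ⟨mul_mem a.1 b.1, by
        rw [(cm e a.1 b.1).eq, mul_inv_rev, ← a.2, ← b.2, ← (cm e a.1 b.1).eq]
        group⟩
      inv_mem' := fun {x} a => ⟨inv_mem a.1, by rw [← conj_inv, a.2]⟩ }
  have mm : ∀ x, x ∈ Pm ↔ x ∈ S ∧ g * x * g⁻¹ = x⁻¹ := fun x => Iff.rfl
  have rt : ∀ x ∈ S, ∀ y ∈ S, ∀ n : ℤ, n ≠ 0 → x ^ n = y ^ n → x = y := fun x hx y hy n hn k =>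
    mul_inv_eq_one.1 (pw tf hn (by
      rw [(cm e hx (inv_mem hy)).mul_zpow, k, inv_zpow, mul_inv_cancel]))
  have g1 : ∀ x ∈ S, (g * x * g⁻¹) * x * (g * g) = (g * x) * (g * x) := fun x hx => by
    rw [mul_assoc, ← (cm e g2 hx).eq]
    group
  have nz : ∀ x ∈ S, (g * x * g⁻¹) * x * (g * g) ≠ 1 := fun x hx k => by
    have : g * x = 1 := pw tf two_ne_zero (by rw [zpow_two, ← g1 x hx, k])
    exact gS (eq_inv_of_mul_eq_one_left this ▸ inv_mem hx)
  obtain ⟨q, hq⟩ := cyc e (H := Pp) inf_le_left (fun x hx n hn k => (mp x).2 ⟨hx,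
    rt _ (cS x hx) _ hx n hn (by rw [conj_zpow]; exact ((mp _).1 k).2)⟩) (by
      obtain ⟨x, hx, k⟩ := nc
      exact ⟨x, hx, fun a => k (mul_inv_eq_iff_eq_mul.1 ((mp x).1 a).2)⟩)
  obtain ⟨p, hp⟩ := cyc e (H := Pm) (fun x a => a.1) (fun x hx n hn k => ⟨hx,
    rt _ (cS x hx) _ (inv_mem hx) n hn (by rw [conj_zpow, inv_zpow]; exact k.2)⟩)
    ⟨g * g, g2, fun a => nz (g * g) g2 (by
      have k := a.2
      have k' : g * (g * g) * g⁻¹ = g * g := by group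
      have k2 : g * g = 1 := pw tf two_ne_zero (by
        rw [zpow_two]
        exact mul_eq_one_iff_eq_inv.2 (k'.symm.trans k))
      simp [k2])⟩
  have q1 := (mp q).1 (hq ▸ mem_zpowers q)
  have p1 := (mm p).1 (hp ▸ mem_zpowers p)
  have qz : ∀ t : ℤ, g * q ^ t * g⁻¹ = q ^ t := fun t => by rw [← conj_zpow, q1.2]
  have N : ∀ x ∈ S, ∃ j : ℤ, q ^ j = g * x * g⁻¹ * x := fun x hx => by
    have : g * x * g⁻¹ * x ∈ Pp := (mp _).2 ⟨mul_mem (cS x hx) hx, by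
      calc g * (g * x * g⁻¹ * x) * g⁻¹ = (g * (g * x * g⁻¹) * g⁻¹) * (g * x * g⁻¹) := by group
        _ = _ := by rw [cc x hx, (cm e hx (cS x hx)).eq]⟩
    rw [hq] at this
    exact this
  obtain ⟨k, hk⟩ : g * g ∈ zpowers q := hq ▸ (mp _).2 ⟨g2, by group⟩
  replace hk : q ^ k = g * g := hk
  have sh : ∀ x ∈ S, ∀ j t : ℤ, q ^ j = g * x * g⁻¹ * x →
      g * (x * q ^ t) * g⁻¹ * (x * q ^ t) = q ^ (j + 2 * t) := fun x hx j t h => by
    calc g * (x * q ^ t) * g⁻¹ * (x * q ^ t)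
        = g * x * g⁻¹ * ((g * q ^ t * g⁻¹) * x) * q ^ t := by group
      _ = (g * x * g⁻¹ * x) * q ^ t * q ^ t := by
        rw [qz, (cm e (zpow_mem q1.1 t) hx).eq]
        group
      _ = _ := by
        rw [← h]
        group
  have par : ∀ x ∈ S, ∀ j : ℤ, q ^ j = g * x * g⁻¹ * x → ∀ t : ℤ, j + 2 * t + k ≠ 0 :=
    fun x hx j h t z => nz _ (mul_mem hx (zpow_mem q1.1 t)) (by
      rw [sh x hx j t h, ← hk, ← zpow_add, z, zpow_zero])
  obtain ⟨m, hm⟩ : ∃ m : ℤ, k = 2 * m + 1 := by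
    have := par 1 (one_mem _) 0 (by simp) (-(k / 2))
    exact ⟨k / 2, by omega⟩
  have e2 : (g * q ^ (-m)) * (g * q ^ (-m)) = q := by
    have := sh 1 (one_mem _) 0 (-m) (by simp)
    rw [one_mul] at this
    rw [← g1 _ (zpow_mem q1.1 _), this, ← hk, ← zpow_add, hm]
    ring_nf
    exact zpow_one q
  have sub : S ≤ closure {p, q} := fun x hx => by
    obtain ⟨j, hj⟩ := N x hx
    have := par x hx j hj (-((j + k) / 2))
    have k0 := sh x hx j (-(j / 2)) hj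
    rw [show j + 2 * -(j / 2) = 0 by omega, zpow_zero] at k0
    have : x * q ^ (-(j / 2)) ∈ zpowers p :=
      hp ▸ (mm _).2 ⟨mul_mem hx (zpow_mem q1.1 _), eq_inv_of_mul_eq_one_left k0⟩
    exact (mul_mem_cancel_right (zpow_mem (subset_closure (by simp)) _)).1
      (zpowers_le_of_mem (subset_closure (by simp)) this)
  have gq : g * q ^ (-m) ∈ closure {p, g * q ^ (-m)} := subset_closure (.inr rfl)
  have qc : q ∈ closure {p, g * q ^ (-m)} := by simpa only [e2] using mul_mem gq gq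
  have sub' : S ≤ closure {p, g * q ^ (-m)} := sub.trans ((closure_le _).2 (by
    rintro _ (rfl | rfl)
    exacts [subset_closure (by simp), qc]))
  have gc : g ∈ closure {p, g * q ^ (-m)} :=
    (mul_mem_cancel_right (zpow_mem qc (-m))).1 gq
  refine ⟨p, g * q ^ (-m), ⟨fun z => ?_, fun a => gS ((mul_mem_cancel_right (zpow_mem q1.1 _)).1 a),
    ?_, ?_, le_antisymm (fun x hx => ?_) ((closure_le _).2 ?_)⟩, by
      simpa using zpow_mem q1.1 m⟩
  · obtain ⟨x, hx, nx⟩ := nc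
    have : x * (g * x * g⁻¹)⁻¹ ∈ zpowers p := hp ▸ (mm _).2 ⟨mul_mem hx (inv_mem (cS x hx)), by
      calc g * (x * (g * x * g⁻¹)⁻¹) * g⁻¹
          = (g * x * g⁻¹) * (g * (g * x * g⁻¹) * g⁻¹)⁻¹ := by group
        _ = _ := by
          rw [cc x hx]
          group⟩
    rw [z, zpowers_one_eq_bot, mem_bot, mul_inv_eq_one] at this
    exact nx (mul_inv_eq_iff_eq_mul.1 this.symm)
  · calc g * q ^ (-m) * p * (g * q ^ (-m))⁻¹ = g * (q ^ (-m) * p) * (q ^ (-m))⁻¹ * g⁻¹ := by group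
      _ = _ := by
        rw [(cm e (zpow_mem q1.1 _) p1.1).eq, ← p1.2]
        group
  · rw [e2]
    refine le_antisymm sub ((closure_le _).2 ?_)
    rintro _ (rfl | rfl)
    exacts [p1.1, q1.1]
  · rcases two x hx with a | a
    · exact sub' a
    · exact (mul_mem_cancel_left (inv_mem gc)).1 (sub' a)
  · rintro _ (rfl | rfl)
    exacts [le p1.1, mul_mem gK (le (zpow_mem q1.1 _))]

variable {K S : Subgroup G} {p g : G}

theorem Kb.twi (tf : ∀ a : G, a ≠ 1 → ¬ IsOfFinOrder a) (k : Kb K S p g) (n : ℤ)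
    (h : g ^ n ∈ zpowers p) : n = 0 := by
  obtain ⟨m, hm⟩ := h
  replace hm : p ^ m = g ^ n := hm
  have e : p ^ m = (p ^ m)⁻¹ := by
    rw [← inv_zpow, ← k.cj, conj_zpow, hm]
    group
  have z : p ^ m = 1 := pw tf two_ne_zero (by rw [zpow_two]; exact mul_eq_one_iff_eq_inv.2 e)
  exact by_contra fun n0 => k.ns (pw tf n0 (hm ▸ z) ▸ one_mem _)

theorem nrm {H : Type} [Group H] {p g : H} (cj : g * p * g⁻¹ = p⁻¹) :
    ∀ x ∈ closure {p, g}, x * p * x⁻¹ = p ∨ x * p * x⁻¹ = p⁻¹ := by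
  intro x hx
  have iv : ∀ y : H, y * p * y⁻¹ = p⁻¹ → y * p⁻¹ * y⁻¹ = p := fun y h => by
    rw [← conj_inv, h, inv_inv]
  induction hx using closure_induction with
  | mem x hx =>
    rcases hx with rfl | rfl
    exacts [.inl (by group), .inr cj]
  | one => exact .inl (by simp)
  | mul x y _ _ a b =>
    rw [show x * y * p * (x * y)⁻¹ = x * (y * p * y⁻¹) * x⁻¹ by group]
    rcases b with b | b <;> rw [b]
    · exact a
    · exact a.symm.imp (iv x) fun a => by rw [← conj_inv, a]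
  | inv x _ a =>
    refine a.imp (fun a => ?_) fun a => ?_
    · calc x⁻¹ * p * x⁻¹⁻¹ = x⁻¹ * (x * p * x⁻¹) * x⁻¹⁻¹ := by rw [a]
        _ = p := by group
    · calc x⁻¹ * p * x⁻¹⁻¹ = x⁻¹ * (x * p⁻¹ * x⁻¹) * x⁻¹⁻¹ := by rw [iv x a]
        _ = p⁻¹ := by group

theorem Kb.nrm (k : Kb K S p g) : ∀ x ∈ K, x * p * x⁻¹ = p ∨ x * p * x⁻¹ = p⁻¹ :=
  k.eK ▸ Kl.nrm k.cj

/-- the curves: the core of the cross cap and the boundary -/
def cv (g : G) (i : ℕ) : G := if i = 0 then g else (g * g)⁻¹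

theorem Kb.eS' (k : Kb K S p g) : S = closure {p, cv g 1} := by
  rw [k.eS]
  refine le_antisymm ((closure_le _).2 ?_) ((closure_le _).2 ?_) <;> rintro _ (rfl | rfl)
  exacts [subset_closure (.inl rfl), inv_mem_iff.1 (subset_closure (.inr rfl)),
    subset_closure (.inl rfl), inv_mem (subset_closure (.inr rfl))]

theorem Kb.seif (tf : ∀ a : G, a ≠ 1 → ¬ IsOfFinOrder a) (k : Kb K S p g) :
    To.Sf.Seif K p 1 (cv g) true where
  inf := tf p k.ne
  pos := one_pos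
  gen := by
    have : Iio 1 = {0} := Set.ext fun i => by simp
    rw [this, image_singleton]
    exact k.eK
  cj i hi := by
    obtain rfl : i = 0 := by omega
    simpa [cv] using k.cj
  twi _ := k.twi tf
  pr := by simp [cv, List.range_succ]
  nf l ne hl ch := by
    rcases l with _ | ⟨x, _ | ⟨y, l⟩⟩
    · exact (ne rfl).elim
    · simpa using (hl x (by simp)).2
    · have a := (hl x (by simp)).1
      have b := (hl y (by simp)).1
      exact ((List.isChain_cons_cons.1 ch).1 (by omega)).elim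

theorem Kb.pres (tf : ∀ a : G, a ≠ 1 → ¬ IsOfFinOrder a) (k : Kb K S p g) :
    Sp.Pres K p 1 (cv g) true (fun _ => 0) fun _ => 0 := by
  have pK : p ∈ K := k.eK ▸ subset_closure (.inl rfl)
  have gK : g ∈ K := k.eK ▸ subset_closure (.inr rfl)
  let f : Option (Fin 1) → K := fun o => o.elim ⟨p, pK⟩ fun _ => ⟨g, gK⟩
  have hf : ∀ r ∈ Sp.rels 1 true (fun _ => 0) fun _ => 0, FreeGroup.lift f r = 1 := by
    intro r hr
    obtain ⟨i, rfl | rfl⟩ := mem_iUnion.1 hr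
    · rw [if_pos ⟨rfl, by omega⟩]
      simp only [map_mul, map_inv, FreeGroup.lift_apply_of, f, Option.elim]
      exact Subtype.ext (mul_eq_one_iff_eq_inv.2 k.cj)
    · simp
  let a : PresentedGroup (Sp.rels 1 true (fun _ => 0) fun _ => 0) := .of none
  let b : PresentedGroup (Sp.rels 1 true (fun _ => 0) fun _ => 0) := .of (some 0)
  have fa : (PresentedGroup.toGroup hf a).1 = p := congrArg Subtype.val (PresentedGroup.toGroup.of hf)
  have fb : (PresentedGroup.toGroup hf b).1 = g := congrArg Subtype.val (PresentedGroup.toGroup.of hf)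
  have cj : b * a * b⁻¹ = a⁻¹ := by
    have := PresentedGroup.one_of_mem (rels := Sp.rels 1 true (fun _ => 0) fun _ => 0)
      (mem_iUnion.2 ⟨0, .inl rfl⟩)
    rw [if_pos ⟨rfl, rfl⟩] at this
    simp only [map_mul, map_inv] at this
    exact mul_eq_one_iff_eq_inv.1 this
  have top : ∀ y, y ∈ closure {a, b} := PresentedGroup.generated_by _ _ (by
    rintro (_ | i)
    · exact subset_closure (.inl rfl)
    · exact subset_closure (.inr (by rw [Subsingleton.elim i 0]; rfl)))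
  have nm : (zpowers a).Normal := ⟨by
    rintro _ ⟨n, rfl⟩ y
    rw [← conj_zpow]
    rcases Kl.nrm cj y (top y) with h | h <;> rw [h]
    exacts [zpow_mem (mem_zpowers a) n, zpow_mem (inv_mem (mem_zpowers a)) n]⟩
  refine ⟨MulEquiv.ofBijective (PresentedGroup.toGroup hf) ⟨(injective_iff_map_eq_one _).2
    fun y hy => ?_, fun x => ?_⟩, fa, fun i => by rw [Subsingleton.elim i 0]; exact fb⟩
  · have : y ∈ zpowers a ⊔ zpowers b := (closure_le _).2 (by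
      rintro _ (rfl | rfl)
      exacts [mem_sup_left (mem_zpowers _), mem_sup_right (mem_zpowers _)]) (top y)
    obtain ⟨_, ⟨m, rfl⟩, _, ⟨n, rfl⟩, rfl⟩ := mem_sup_of_normal_left.1 this
    have e : p ^ m * g ^ n = 1 := by
      have := congrArg Subtype.val hy
      simpa only [map_mul, map_zpow, coe_mul, SubgroupClass.coe_zpow, fa, fb, coe_one] using this
    obtain rfl : n = 0 := k.twi tf n
      (eq_inv_of_mul_eq_one_right e ▸ inv_mem (zpow_mem (mem_zpowers p) m))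
    obtain rfl : m = 0 := by_contra fun z => k.ne (pw tf z (by simpa using e))
    simp
  · have : closure {p, g} ≤ (K.subtype.comp (PresentedGroup.toGroup hf)).range :=
      (closure_le _).2 (by
        rintro _ (rfl | rfl)
        exacts [⟨a, fa⟩, ⟨b, fb⟩])
    obtain ⟨y, hy⟩ := this (k.eK.le x.2)
    exact ⟨y, Subtype.ext hy⟩

variable {V : Type} [MulAction G V] {T : SimpleGraph V} {v w : V}

theorem Kb.sv (tf : ∀ a : G, a ≠ 1 → ¬ IsOfFinOrder a)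
    (k : Kb (stabilizer G v) (stabilizer G v ⊓ stabilizer G w) p g) (ad : T.Adj v w)
    (all : ∀ u, T.Adj v u → ∃ x : G, x • v = v ∧ x • w = u) :
    To.Top.Sv T v p 1 (cv g) true {1} fun _ => w where
  sf := k.seif tf
  last := rfl
  bd i hi := by
    obtain rfl : i = 1 := hi
    exact ⟨le_rfl, by simp, ad, k.eS'⟩
  cone i hi _ h := (h ⟨rfl, by omega⟩).elim
  all u a := ⟨1, rfl, all u a⟩
  inj i hi j hj _ _ _ := hi.trans hj.symm

theorem Kb.sei (tf : ∀ a : G, a ≠ 1 → ¬ IsOfFinOrder a)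
    (k : Kb (stabilizer G v) (stabilizer G v ⊓ stabilizer G w) p g) (ad : T.Adj v w)
    (all : ∀ u, T.Adj v u → ∃ x : G, x • v = v ∧ x • w = u) : Jt.Sei G T v :=
  ⟨p, 1, cv g, true, fun _ => 0, fun _ => 0, fun _ => w, k.pres tf, one_pos, rfl, fun _ => rfl,
    (k.seif tf).pr, fun i hi _ h => by
      obtain rfl : i = 1 := by
        have : i ≠ 0 := fun z => h ⟨rfl, z⟩
        omega
      exact ⟨ad, k.eS'⟩,
    fun u a => ⟨1, ⟨le_rfl, rfl, by simp, all u a⟩, fun i h => by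
      have : i ≠ 0 := fun z => h.2.2.1 ⟨rfl, z⟩
      have := h.1
      omega⟩⟩

/-- the Klein vertex: two edges, exchanged by `g` -/
theorem klein_sv (tf : ∀ a : G, a ≠ 1 → ¬ IsOfFinOrder a)
    (act : ∀ (x : G) a b, T.Adj a b → T.Adj (x • a) (x • b)) (ad : T.Adj v w)
    (e : ↥(stabilizer G v ⊓ stabilizer G w) ≃* Multiplicative (ℤ × ℤ)) (gv : g • v = v)
    (gw : g • w ≠ w) (all : ∀ u, T.Adj v u → u = w ∨ u = g • w)
    (nc : ∃ x : G, x • v = v ∧ x • w = w ∧ g * x ≠ x * g) :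
    ∃ p g', Kb (stabilizer G v) (stabilizer G v ⊓ stabilizer G w) p g' ∧
      (To.Top.Sv T v p 1 (cv g') true {1} fun _ => w) ∧ Jt.Sei G T v := by
  obtain ⟨x, x1, x2, x3⟩ := nc
  obtain ⟨p, g', k, -⟩ := klein tf e inf_le_left (g := g) gv (fun a => gw a.2)
    (fun y (hy : y • v = v) => (all (y • w) (hy ▸ act y v w ad)).imp (fun a => ⟨hy, a⟩) fun a =>
      ⟨(stabilizer G v).mul_mem ((stabilizer G v).inv_mem gv) hy,
        show (g⁻¹ * y) • w = w by rw [mul_smul, a, inv_smul_smul]⟩) ⟨x, ⟨x1, x2⟩, x3⟩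
  have al : ∀ u, T.Adj v u → ∃ x : G, x • v = v ∧ x • w = u := fun u a =>
    (all u a).elim (fun h => ⟨1, one_smul _ _, by simp [h]⟩) fun h => ⟨g, gv, h.symm⟩
  exact ⟨p, g', k, k.sv tf ad al, k.sei tf ad al⟩

end Pool.Agent.Work.MP_3d425c_gt.Kl
end

-- merged part: Pool.Agent.Work.MP_3d425c_gt.Cw.Mid
section
/-! The midpoint of a reversed wall is a Klein bottle vertex. -/

namespace Pool.Agent.Work.MP_3d425c_gt.Kl
open Set Subgroup MulAction Pool.Agent.Work.MP_3d425c_gt.Md Pool.Agent.Work.MP_3d425c_gt.Cw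
open scoped Pointwise

variable {G : Type} [Group G]

theorem z2_or (tf : ∀ a : G, a ≠ 1 → ¬ IsOfFinOrder a) {a b g : G} (z : Z2 a b) (g1 : g ≠ 1)
    (ha : Commute a g) (hb : Commute b g) : Z2 a g ∨ Z2 b g := by
  by_contra k
  simp only [Z2, ha, hb, true_and, not_or, not_forall] at k
  obtain ⟨⟨m, n, e, ne⟩, m', n', e', ne'⟩ := k
  have f : ∀ {x : G} {i j : ℤ}, x ^ i * g ^ j = 1 → ¬ (i = 0 ∧ j = 0) → i ≠ 0 := fun {x i j} e ne i0 =>
    g1 (pw tf (fun j0 => ne ⟨i0, j0⟩) (by simpa [i0] using e))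
  have n0 : n' ≠ 0 := fun j0 => f e' ne' (z.2 0 m' (by simpa [j0] using e')).2
  refine mul_ne_zero (f e ne) n0 (z.2 (m * n') (-(m' * n)) ?_).1
  rw [zpow_neg, zpow_mul, zpow_mul, eq_inv_of_mul_eq_one_left e, eq_inv_of_mul_eq_one_left e']
  group

theorem Z2.sq {a g : G} (z : Z2 a g) : Z2 a (g * g) :=
  ⟨z.1.mul_right z.1, fun m n e => by
    have := z.2 m (2 * n) (by rwa [zpow_mul, zpow_two])
    omega⟩

section
variable {X0 X1 X2 X3 : Type} [MulAction G X0] [MulAction G X1] [MulAction G X2]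
  [MulAction G X3] {T : Tri G X0 X1 X2 X3} {A : Set X0} {g : G}

theorem can_ne (S : Std T) (h : Can T A) : st T A ≠ A := fun e => h.big S.mfd (by
  have : A = ∅ := eq_empty_of_forall_notMem fun x hx => h.st_sub S (e.symm ▸ hx) hx
  exact ⟨∅, finite_empty, fun x hx => (this ▸ hx : x ∈ (∅ : Set X0)).elim⟩)

/-- an element that reverses a wall does not centralise its group -/
theorem can_nc (S : Std T) (h : Can T A) (hg : g • A = st T A) :
    ∃ x : G, x • A = A ∧ g * x ≠ x * g := by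
  by_contra k
  simp only [not_exists, not_and, not_not] at k
  obtain ⟨a, b, z, -, -, le, -⟩ := h.idx S.mfd
  have ha : a • A = A := le (subset_closure (.inl rfl))
  have hb : b • A = A := le (subset_closure (.inr rfl))
  have g1 : g ≠ 1 := fun e => can_ne S h (by rw [← hg, e, one_smul])
  have gs : g • st T A = A := by rw [← h.st_smul S, hg, h.st_st S]
  have g2 : (g * g) • A = A := by rw [mul_smul, hg, gs]
  have key : ∀ c : G, c • A = A → ¬ Z2 c g := fun c hc zc => by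
    obtain ⟨B, hB, b1, b2⟩ := exists_can S zc
    rcases h.comm S hB (Z2.sq zc) hc g2 b1 (by rw [mul_smul, b2, b2]) with e | e <;> rw [e] at b2
    exacts [can_ne S h (hg.symm.trans b2), can_ne S h (b2.symm.trans gs)]
  exact (z2_or S.tf z g1 (k a ha).symm (k b hb).symm).elim (key a ha) (key b hb)

end

variable {E V : Type} [MulAction G E] [MulAction G V] {lt : E → E → Prop} {s : E → E}
  {Γ : SimpleGraph V} {hd tl : E → V} {e : E} {g : G}

theorem mid_eg (R : Nh.Tr G lt s Γ hd tl) (e : E) :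
    stabilizer G (tl e) ⊓ stabilizer G (hd e) = stabilizer G e :=
  Subgroup.ext fun x => and_comm.trans (R.stab x e)

/-- the midpoint of a reversed wall -/
theorem mid (tf : ∀ a : G, a ≠ 1 → ¬ IsOfFinOrder a) (R : Nh.Tr G lt s Γ hd tl)
    (z : Nonempty (stabilizer G e ≃* Multiplicative (ℤ × ℤ))) (hg : g • e = s e)
    (nc : ∃ x : G, x • e = e ∧ g * x ≠ x * g) :
    ∃ p g', (To.Top.Sv Γ (tl e) p 1 (cv g') true {1} fun _ => hd e) ∧ Jt.Sei G Γ (tl e) ∧ p ≠ 1 ∧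
      (∀ x : G, x • tl e = tl e → x * p * x⁻¹ = p ∨ x * p * x⁻¹ = p⁻¹) ∧ p • tl e = tl e ∧
      ∀ u, Γ.Adj (tl e) u → p • u = u := by
  have i : Nh.Iv G s e := ⟨g, hg⟩
  obtain ⟨x, x1, x2⟩ := nc
  obtain ⟨z⟩ := z
  have gv : g • tl e = tl e := (R.stabm i g).2 (.inr hg)
  have gh : g • hd e = hd (s e) := by rw [← R.hde, hg]
  have all : ∀ u, Γ.Adj (tl e) u → u = hd e ∨ u = g • hd e := fun u a => gh ▸ (R.nbm i u).1 a
  obtain ⟨p, g', k, a, b⟩ := klein_sv tf R.act (R.adj e).symm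
    ((MulEquiv.subgroupCongr (mid_eg R e)).trans z) gv
    (fun q => x2 (cm z ((R.stab g e).1 ⟨q, gv⟩) x1).eq) all
    ⟨x, ((R.stab x e).2 x1).2, ((R.stab x e).2 x1).1, x2⟩
  have pS : p ∈ stabilizer G (tl e) ⊓ stabilizer G (hd e) := k.eS.ge (subset_closure (.inl rfl))
  refine ⟨p, g', a, b, k.ne, k.nrm, pS.1, fun u a => ?_⟩
  rcases all u a with rfl | rfl
  · exact pS.2
  · have q : (g⁻¹ * p * g⁻¹⁻¹) • hd e = hd e := by
      rcases k.nrm g⁻¹ ((stabilizer G (tl e)).inv_mem gv) with q | q <;> rw [q]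
      exacts [pS.2, (stabilizer G (hd e)).inv_mem pS.2]
    rwa [inv_inv, mul_smul, mul_smul, inv_smul_eq_iff] at q

end Pool.Agent.Work.MP_3d425c_gt.Kl
end

-- merged part: Pool.Agent.Work.MP_3d425c_gt.Fl.Top
section
/-! The two goals from the frontier lemma and the two edge lemma. -/

namespace Pool.Agent.Work.MP_3d425c_gt.Fr
open Set MulAction Pool.Agent.Work.MP_3d425c_gt.Md Pool.Agent.Work.MP_3d425c_gt.Bg
  Pool.Agent.Work.MP_3d425c_gt.Bq Pool.Agent.Work.MP_3d425c_gt.Jw Pool.Agent.Work.MP_3d425c_gt.Nh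
  Pool.Agent.Work.MP_3d425c_gt.Cw
open scoped Pointwise

variable {G X0 X1 X2 X3 : Type} [Group G] [MulAction G X0] [MulAction G X1] [MulAction G X2]
  [MulAction G X3] {T : Tri G X0 X1 X2 X3}

/-- the frontier wall of the class `L` towards `F` -/
def Wall (T : Tri G X0 X1 X2 X3) (h : G) (L : Set (Set X0)) (F B : Set X0) : Prop :=
  Can T B ∧ h • B = B ∧ F ⊆ st T B ∧ (∃ A ∈ L, A ⊆ B) ∧ (∀ A ∈ L, Nst T B A) ∧
    ∀ C, Can T C → ¬ Nst T B C → C ∈ L ∨ ∃ A ∈ L, ¬ Nst T C A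

/-- every class of crossing walls has a fibre and frontier walls -/
def Fron (T : Tri G X0 X1 X2 X3) : Prop := ∀ L, Cls T L → L.Nonempty → ∃ h : G, h ≠ 1 ∧
  (∀ g : G, g • L = L → g * h * g⁻¹ = h ∨ g * h * g⁻¹ = h⁻¹) ∧
  ∀ F, Can T F → (∀ A ∈ L, F ⊆ A ∨ F ⊆ st T A) → ∃ B, Wall T h L F B

theorem frt_of_fron (S : Std T) (hb : Bound T) (fr : Fron T) (P : Set X0) (hP : Can T P)
    (nu : ¬ Unc T P) : ∃ h : G, h ≠ 1 ∧ Frt T P h := by
  obtain ⟨L, c, p, u⟩ := S.cf.exists_cls S.mfd hb hP nu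
  obtain ⟨h, h1, -, f⟩ := fr L c ⟨P, p⟩
  refine ⟨h, h1, frt_of S.cf hP (L := L) (fun A a => ?_) fun F hF k => ?_⟩
  · have q := c.conn P p A a
    clear a
    induction q with
    | refl => exact .refl
    | tail _ k ih => exact ih.tail ⟨c.can _ k.1, c.can _ k.2.1, k.2.2⟩
  · obtain ⟨B, b1, b2, b3, b4, b5, b6⟩ := f F hF k
    exact ⟨B, u B b1 b5 b6, b2, b3, b4⟩

/-- a midpoint has a fibre -/
theorem mid_sei {S : Std T} {V : Type} [MulAction G V] {Γ : SimpleGraph V} {hd tl : S.cf.U → V}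
    (J : Jw0 S Γ hd tl) {e : S.cf.U} (i : Iv G S.cf.ust e) : Sv.Sei G Γ (tl e) := by
  obtain ⟨g, hg⟩ := i
  obtain ⟨x, x1, x2⟩ := Kl.can_nc S e.2.1 (congrArg Subtype.val hg)
  obtain ⟨p, -, -, -, p1, n, pv, pw⟩ := Kl.mid S.tf J.tr (S.cf.u_stab e ▸ e.2.1.z2 S) hg
    ⟨x, Subtype.ext x1, x2⟩
  refine ⟨p, p1, pv, pw, fun y hy => ?_⟩
  rcases n y hy with q | q <;> rw [q]
  exacts [Subgroup.mem_zpowers p, inv_mem (Subgroup.mem_zpowers p)]

theorem goalV_of (fr : Std T → ¬ Ab G → Fron T)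
    (s2 : ∀ (S : Std T), ¬ Ab G → ∀ (V : Type) [MulAction G V] (Γ : SimpleGraph V)
      (hd tl : S.cf.U → V), Jw0 S Γ hd tl → ∀ e, ¬ S1 T (hd e) → ¬ S2 G Γ (hd e)) :
    GoalV T := fun S _ ab V _ Γ hd tl J v k => by
  by_cases a : S1 T v
  · exact s1_sei J (frt_of_fron S (bound S.mfd S.tf) (fr S ab)) a
  obtain ⟨e, rfl | ⟨i, rfl⟩⟩ := J.tr.all v
  · exact absurd (k.resolve_left a) (s2 S ab V Γ hd tl J e a)
  · exact mid_sei J i

theorem goalU_of (fr : Std T → ¬ Ab G → Fron T) : GoalU T := fun S _ ab a b z => by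
  by_contra n
  obtain ⟨P, hP, -⟩ := exists_can S z
  obtain ⟨L, c, p, u⟩ := S.cf.exists_cls S.mfd (bound S.mfd S.tf) hP fun k => n ⟨P, k⟩
  obtain ⟨h, h1, nm, f⟩ := fr S ab L c ⟨P, p⟩
  have all : ∀ g : G, g • L = L := fun g => (c.or g).resolve_right fun k => by
    have d := S.cf.smul g P hP
    obtain ⟨F, e, s⟩ := c.far S.cf d p (k P p).2
    obtain ⟨B, b1, -, -, -, b5, b6⟩ := f F (e.elim (fun q => q ▸ d) fun q => q ▸ S.cf.mst _ d) s
    exact n ⟨B, u B b1 b5 b6⟩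
  refine ab ⟨Subgroup.zpowers h, by rwa [Ne, Subgroup.zpowers_eq_bot], ⟨?_⟩,
    ⟨{h}, by rw [Finset.coe_singleton, Subgroup.zpowers_eq_closure]⟩, ?_⟩
  · rintro _ ⟨k, rfl⟩ g
    show g * h ^ k * g⁻¹ ∈ _
    rw [← conj_zpow]
    refine zpow_mem ?_ k
    rcases nm g (all g) with q | q <;> rw [q]
    exacts [Subgroup.mem_zpowers h, inv_mem (Subgroup.mem_zpowers h)]
  · rintro _ ⟨i, rfl⟩ _ ⟨j, rfl⟩
    exact (Commute.zpow_zpow_self h i j).eq

end Pool.Agent.Work.MP_3d425c_gt.Fr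
end
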