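import Pool.Agent.Work.MP_3d425c_gt.Rv.Main
import Pool.Agent.Work.MP_3d425c_gt.Cw.X
import Pool.Agent.Work.MP_3d425c_gt.Fl.Cover
import Pool.Agent.Work.MP_3d425c_gt.Fl.Top
import Pool.Agent.Work.MP_3d425c_gt.Cw.AB
import Pool.Agent.Work.MP_3d425c_gt.Sv.Line
import Pool.Agent.Work.MP_3d425c_gt.Sv.Wall
import Pool.Agent.Work.MP_3d425c_gt.Nz.Big

-- merged part: Pool.Agent.Work.MP_3d425c_gt.Sv.Main
section
/-! Taut foliations and decompositions into atoroidal pieces and pieces with a fibre. -/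

namespace Pool.Agent.Work.MP_3d425c_gt.Sv
open MulAction Subgroup Relation Pool.Agent.Work.MP_3d425c_gt.To
  Pool.Agent.Work.MP_3d425c_gt.Md
open scoped Manifold ContDiff

section Grp
variable {G : Type} [Group G] {V : Type} [MulAction G V] {T : SimpleGraph V} {v : V}

theorem Jsj.top (J : Jsj G T) : Top.Jsj G T :=
  ⟨J.tree, J.act, J.ninv, fun v w a => let ⟨e⟩ := J.edge v w a; Js.z2_basis e⟩

theorem Jsj.tre (J : Jsj G T) : Tre G T := ⟨J.top, J.edge, J.red⟩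

/-- The centralisers of a simple vertex group. -/
theorem Jsj.hz (J : Jsj G T) (S : Rv.Sim G T v) (tf : ∀ a : G, a ≠ 1 → ¬ IsOfFinOrder a)
    (cyc : ∀ E : Subgroup (stabilizer G v), E.FG → (∀ a ∈ E, ∀ b ∈ E, a * b = b * a → Dep a b) →
      ∀ k : E, (∀ φ : E →* Multiplicative ℝ, φ k = 1 → φ = 1) → IsCyclic E) :
    Rv.Hz (stabilizer G v) := by
  let _ := Top.nbAct J.top v
  refine Rv.hz_of (I := T.neighborSet v) (fun a n f => tf a.1 (fun e => n (Subtype.ext e))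
    ((stabilizer G v).subtype.isOfFinOrder f)) (J.top.per S.mal) (fun a b c n => ?_)
    (fun i => ?_) cyc
  · obtain ⟨w, k, x, y⟩ := S.cusp a.1 b.1 a.2 b.2 (congrArg Subtype.val c)
      fun ⟨i, j, k, e⟩ => n ⟨i, j, k, Subtype.ext e⟩
    exact ⟨⟨w, k⟩, Subtype.ext x, Subtype.ext y⟩
  · obtain ⟨e⟩ := J.edge v i i.2
    refine ⟨MulEquiv.trans ⟨⟨fun a => ⟨a.1.1, a.1.2, congrArg Subtype.val a.2⟩,
      fun a => ⟨⟨a.1, a.2.1⟩, Subtype.ext a.2.2⟩, fun _ => rfl, fun _ => rfl⟩, fun _ _ => rfl⟩ e⟩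

/-- The earlier class of groups is contained in the present one. -/
theorem geo_of_rv (g : Rv.Geo G) : Geo G := by
  refine g.imp_right <| Or.imp_right fun ⟨V, i, T, J⟩ => ⟨V, i, T, J.tree, J.act, J.ninv, J.edge,
    J.red, J.min, fun v => (J.vert v).imp_right fun S => ?_⟩
  obtain ⟨h, _, _, _, _, _, s⟩ := J.sv S
  refine ⟨h, fun e => s.sf.inf (e ▸ IsOfFinOrder.one), s.sf.h_V, fun w a => (s.h_mem a).2,
    fun g hg => ?_⟩
  rcases Ph.seif_cj s.sf (g := g) hg with e | e <;> rw [e]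
  exacts [mem_zpowers h, inv_mem (mem_zpowers h)]

end Grp

theorem geo_tri {G X0 X1 X2 X3 : Type} [Group G] [MulAction G X0] [MulAction G X1]
    [MulAction G X2] [MulAction G X3] (T : Tri G X0 X1 X2 X3) (h0 : NoHom G) (g : Geo G)
    (hD : Nv.Disc T) (mid : ∀ v, ∃ f, T.d1 (T.d2 f 2) 0 = v) (φ : X2 → ℝ ≃o ℝ) (hf : T.Fol φ)
    (ht : T.Taut φ) : Nontrivial G ∧ Md.LO G := by
  by_cases nz : ∀ f : Multiplicative (ℤ × ℤ) →* G, ¬ Function.Injective f
  · exact Nz.geo_tri T h0 (.inl nz) hD mid φ hf ht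
  by_cases nc : ∃ h : G, h ≠ 1 ∧ (zpowers h).Normal
  · exact Nz.geo_tri T h0 (.inr (.inl nc)) hD mid φ hf ht
  obtain ⟨V, _, Γ, J⟩ := (g.resolve_left nz).resolve_left nc
  have z : ∃ a b : G, a * b = b * a ∧ ¬ Dep a b := by
    push Not at nz
    obtain ⟨f, i⟩ := nz
    obtain ⟨a, b, c, n, -⟩ := Js.z2_basis (MonoidHom.ofInjective i).symm
    exact ⟨a, b, c, n⟩
  obtain ⟨ρ, hρ, hb⟩ := Tri.ball h0 hf ht mid
  obtain ⟨y, hy⟩ := hb φ hf fun f t => by rw [sub_self, abs_zero]; exact hρ.le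
  have := Bg.inf_of_nc (Nv.fw_nov hD hy hf.1) (hy.inf hf)
  have hM := Bg.mfd_taut hD mid (Or.inr h0) hf ht
  have tf := Bg.tf_disc hM hD
  have := objB_countG T
  refine ⟨inferInstance, ?_⟩
  obtain ⟨Y, _, x₀, C, up, h, cyc, E, e1, -, e2⟩ := T.model_taut tf h0 hD mid φ hf ht
  have cy : Cv.Cyc G Y := fun x => by
    obtain ⟨k, hk⟩ := (cyc x).exists_zpow_surjective
    exact ⟨k.1, fun a ha => (hk ⟨a, ha⟩).imp fun n e => congrArg Subtype.val e⟩
  refine Rv.phase2R tf J.top (fun v w τ a k n h1 h2 => n (J.min v w a τ k.1 k.2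
    fun g d => d.elim (h1 g) (h2 g))) ⟨om_of_OM h, cy, E, e1, e2⟩ x₀ fun σ S N v => ?_
  rcases J.vert v with p | ⟨f, f1, f2, f3, f4⟩
  · have hz := J.hz p tf (Rv.cyc_sub hM tf z _)
    refine .inl ⟨hz, fun _ _ _ _ _ a b c d e f => Rv.thmR hz (Rv.bg2_of_dual hM tf
      (fun E _ _ => Bq.dual_of hM hD h0 E) J.tree J.act v (fun w hw => ?_) hz
      (fun w hw a b a1 a2 b1 b2 => J.top.comm hw a ⟨a1, a2⟩ b ⟨b1, b2⟩) (J.edge v) p.mal p.cusp)
      a b c d e f, p.mal⟩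
    obtain ⟨g, e, n⟩ := J.red w v hw.symm
    refine ⟨g, ReflTransGen.single ⟨by simpa only [e] using J.act g _ _ hw.symm, fun k => ?_⟩⟩
    rcases Sym2.eq_iff.1 k with k | k
    · exact hw.ne k.1.symm
    · exact n k.2
  · refine .inr (sf_out hM tf (fun E _ _ => Bq.dual_of hM hD h0 E) J.tre (om_of_OM h) cy S N
      ⟨f, f1, f2, f3, f4⟩ (by_contra fun n => nc ⟨f, f1, ⟨?_⟩⟩))
    rintro _ ⟨i, rfl⟩ g
    obtain ⟨p⟩ := J.tree.connected v (g • v)
    have e : g • v = v := by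
      generalize g • v = u at p
      cases p with
      | nil => rfl
      | cons a _ => exact (n ⟨_, a⟩).elim
    simp only [← conj_zpow]
    exact zpow_mem (f4 g e) i

variable {M : Type} [TopologicalSpace M] [ChartedSpace (EuclideanSpace ℝ (Fin 3)) M]
  [IsManifold 𝓘(ℝ, EuclideanSpace ℝ (Fin 3)) ∞ M] [CompactSpace M] [T2Space M] [ConnectedSpace M]

theorem main_geo (m : M) (h0 : ∀ χ : FundamentalGroup M m →* Multiplicative ℝ, χ = 1)
    (g : Geo (FundamentalGroup M m))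
    {A : Set (OpenPartialHomeomorph M ((ℝ × ℝ) × ℝ))} (hA : Sm.Foliation A) (hT : Sm.Taut A) :
    Nontrivial (FundamentalGroup M m) ∧ Md.LO (FundamentalGroup M m) := by
  obtain ⟨Y, _, _, p, hp, _⟩ := Tp.exists_universal_cover_manifold Sm.E3 m
  obtain ⟨X0, X1, X2, X3, _, _, _, _, T, φ, a, b, c, d⟩ := Sm.normal_form p hp hA hT
  exact geo_tri T h0 g a b φ c d

end Pool.Agent.Work.MP_3d425c_gt.Sv
end

-- merged part: Pool.Agent.Work.MP_3d425c_gt.Fl.Glue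
section
/-! From the two statements on walls to the order. -/

namespace Pool.Agent.Work.MP_3d425c_gt.Fl
open MulAction Pool.Agent.Work.MP_3d425c_gt.Md Pool.Agent.Work.MP_3d425c_gt.Cw
open scoped Manifold ContDiff

theorem tri_lo {G X0 X1 X2 X3 : Type} [Group G] [MulAction G X0] [MulAction G X1]
    [MulAction G X2] [MulAction G X3] (T : Tri G X0 X1 X2 X3) (gv : GoalV T) (gu : GoalU T)
    (h0 : NoHom G) (hD : Nv.Disc T) (mid : ∀ v, ∃ f, T.d1 (T.d2 f 2) 0 = v)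
    (φ : X2 → ℝ ≃o ℝ) (hf : T.Fol φ) (ht : T.Taut φ) : Nontrivial G ∧ Md.LO G := by
  obtain ⟨ρ, hρ, hb⟩ := Tri.ball h0 hf ht mid
  obtain ⟨y, hy⟩ := hb φ hf fun f t => by rw [sub_self, abs_zero]; exact hρ.le
  have := Bg.inf_of_nc (Nv.fw_nov hD hy hf.1) (hy.inf hf)
  have hM := Bg.mfd_taut hD mid (Or.inr h0) hf ht
  have tf := Bg.tf_disc hM hD
  rcases ab_or_geo gv gu hM hD tf h0 with ⟨Y, a, b, c, d⟩ | g
  · exact ⟨inferInstance, T.lo_ab tf h0 hD mid φ hf ht b c d a⟩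
  · exact Sv.geo_tri T h0 g hD mid φ hf ht

variable {M : Type} [TopologicalSpace M] [ChartedSpace (EuclideanSpace ℝ (Fin 3)) M]
  [IsManifold 𝓘(ℝ, EuclideanSpace ℝ (Fin 3)) ∞ M] [CompactSpace M] [T2Space M] [ConnectedSpace M]

theorem main_of (g : ∀ {G X0 X1 X2 X3 : Type} [Group G] [MulAction G X0] [MulAction G X1]
      [MulAction G X2] [MulAction G X3] (T : Tri G X0 X1 X2 X3), GoalV T ∧ GoalU T)
    (m : M) (h0 : ∀ χ : FundamentalGroup M m →* Multiplicative ℝ, χ = 1)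
    {A : Set (OpenPartialHomeomorph M ((ℝ × ℝ) × ℝ))} (hA : Sm.Foliation A) (hT : Sm.Taut A) :
    Nontrivial (FundamentalGroup M m) ∧ Md.LO (FundamentalGroup M m) := by
  obtain ⟨Y, _, _, p, hp, _⟩ := Tp.exists_universal_cover_manifold Sm.E3 m
  obtain ⟨X0, X1, X2, X3, _, _, _, _, T, φ, a, b, c, d⟩ := Sm.normal_form p hp hA hT
  exact tri_lo T (g T).1 (g T).2 h0 a b φ c d

end Pool.Agent.Work.MP_3d425c_gt.Fl
end

-- merged part: Pool.Agent.Work.MP_3d425c_gt.Fl.DefsB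
section
/-! Crossing walls with a common fibre: definitions. -/

namespace Pool.Agent.Work.MP_3d425c_gt.Fs
open Set MulAction Relation Pool.Agent.Work.MP_3d425c_gt.Md Pool.Agent.Work.MP_3d425c_gt.Bg
  Pool.Agent.Work.MP_3d425c_gt.Bq Pool.Agent.Work.MP_3d425c_gt.Cw
open scoped Pointwise

variable {G X0 X1 X2 X3 : Type} [Group G] [MulAction G X0] [MulAction G X1] [MulAction G X2]
  [MulAction G X3] (T : Tri G X0 X1 X2 X3)

/-- the standing hypotheses -/
structure Sd : Prop where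
  std : Std T
  dual : ∀ E : Subgroup G, ¬ E.FiniteIndex → E.FG → Dual T E
  bound : Bound T

/-- two crossing walls whose common group is generated by `h` -/
structure Fib (h : G) (B₀ B₁ : Set X0) : Prop where
  c0 : Can T B₀
  c1 : Can T B₁
  cr : ¬ Nst T B₀ B₁
  ne : h ≠ 1
  gen : ∀ g : G, g • B₀ = B₀ ∧ g • B₁ = B₁ ↔ g ∈ Subgroup.zpowers h

/-- a family of walls fixed by `h` that is connected under crossing -/
structure Stage (h : G) (L : Set (Set X0)) : Prop where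
  ne : h ≠ 1
  nonempty : L.Nonempty
  can : ∀ l ∈ L, Can T l
  fix : ∀ l ∈ L, h • l = l
  star : ∀ l ∈ L, st T l ∈ L
  crs : ∀ l ∈ L, ∃ l' ∈ L, ¬ Nst T l l'
  con : ∀ l ∈ L, ∀ l' ∈ L, ReflTransGen (fun A B => B ∈ L ∧ ¬ Nst T A B) l l'
  orb : SmP (stabilizer G L) L
  nrm : ∀ g ∈ stabilizer G L, g * h * g⁻¹ = h ∨ g * h * g⁻¹ = h⁻¹
  le : ∀ l ∈ L, stabilizer G l ≤ stabilizer G L

/-- the frontier wall of the family `L` towards `W` -/
structure Frt (h : G) (L : Set (Set X0)) (W D : Set X0) : Prop where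
  can : Can T D
  fix : h • D = D
  sub : W ⊆ D
  ins : ∀ l ∈ L, W ⊆ l → D ⊆ l
  nst : ∀ B, Can T B → (∀ l ∈ L, Nst T B l) → Nst T B D

end Pool.Agent.Work.MP_3d425c_gt.Fs
end

-- merged part: Pool.Agent.Work.MP_3d425c_gt.Fs.PPG
section
/-! A group generated by a central element and two peripheral elements of different walls. -/

namespace Pool.Agent.Work.MP_3d425c_gt.Fs
open Set Subgroup Pool.Agent.Work.MP_3d425c_gt.Cw Pool.Agent.Work.MP_3d425c_gt.Bq
  Pool.Agent.Work.MP_3d425c_gt.Md Pool.Agent.Work.MP_3d425c_gt.Bg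

variable {G F : Type} [Group G] [MulAction G F]

theorem pg_pw (tf : ∀ a : G, a ≠ 1 → ¬ IsOfFinOrder a) {a : G} {n : ℤ} (hn : n ≠ 0)
    (h : a ^ n = 1) : a = 1 :=
  by_contra fun k => tf a k (isOfFinOrder_iff_zpow_eq_one.2 ⟨n, hn, h⟩)

/-- three elements of a lattice of rank two are dependent -/
theorem pg_rank {Q : Subgroup G} (e : Q ≃* Multiplicative (ℤ × ℤ)) {h u v : G} (hh : h ∈ Q)
    (hu : u ∈ Q) (hv : v ∈ Q) (z : Z2 h u) : ∃ m b c : ℤ, m ≠ 0 ∧ v ^ m = u ^ b * h ^ c := by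
  obtain ⟨⟨h1, h2⟩, eh⟩ : ∃ x, e ⟨h, hh⟩ = .ofAdd x := ⟨_, (ofAdd_toAdd _).symm⟩
  obtain ⟨⟨u1, u2⟩, eu⟩ : ∃ x, e ⟨u, hu⟩ = .ofAdd x := ⟨_, (ofAdd_toAdd _).symm⟩
  obtain ⟨⟨v1, v2⟩, ev⟩ : ∃ x, e ⟨v, hv⟩ = .ofAdd x := ⟨_, (ofAdd_toAdd _).symm⟩
  have k : ∀ m n : ℤ, m * h1 + n * u1 = 0 → m * h2 + n * u2 = 0 → m = 0 ∧ n = 0 :=
    fun m n a b => z.2 m n (congrArg Subtype.val (e.injective (show e (⟨h, hh⟩ ^ m * ⟨u, hu⟩ ^ n) =
      e 1 by
        rw [map_mul, map_zpow, map_zpow, eh, eu, map_one, ← ofAdd_zsmul, ← ofAdd_zsmul, ← ofAdd_add]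
        exact congrArg Multiplicative.ofAdd (Prod.ext a b))))
  refine ⟨h1 * u2 - h2 * u1, h1 * v2 - h2 * v1, v1 * u2 - v2 * u1, fun d => ?_,
    congrArg Subtype.val (e.injective (show e (⟨v, hv⟩ ^ (h1 * u2 - h2 * u1)) =
      e (⟨u, hu⟩ ^ (h1 * v2 - h2 * v1) * ⟨h, hh⟩ ^ (v1 * u2 - v2 * u1)) by
      rw [map_mul, map_zpow, map_zpow, map_zpow, eh, eu, ev, ← ofAdd_zsmul, ← ofAdd_zsmul,
        ← ofAdd_zsmul, ← ofAdd_add]
      refine congrArg Multiplicative.ofAdd (Prod.ext ?_ ?_) <;> simp <;> ring))⟩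
  have a := k u1 (-h1) (by ring) (by linear_combination -d)
  have b := k u2 (-h2) (by linear_combination d) (by ring)
  exact one_ne_zero (k 1 0 (by omega) (by omega)).1

theorem pg_dep (tf : ∀ a : G, a ≠ 1 → ¬ IsOfFinOrder a) {h u : G} (h1 : h ≠ 1) (c : Commute h u)
    (n : ¬ Z2 h u) : ∃ i j : ℤ, i ≠ 0 ∧ u ^ i = h ^ j := by
  simp only [Z2, c, true_and, not_forall] at n
  obtain ⟨j, i, e, ne⟩ := n
  refine ⟨i, -j, fun i0 => h1 (pg_pw tf (fun j0 => ne ⟨j0, i0⟩) (by simpa [i0] using e)), ?_⟩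
  rw [zpow_neg]
  exact eq_inv_of_mul_eq_one_right e

theorem pg_ne {h u : G} (z : Z2 h u) : h ≠ 1 := fun e =>
  one_ne_zero (z.2 1 0 (by simp [e])).1

theorem pg_zpow {h u : G} (z : Z2 h u) {m : ℤ} (hm : m ≠ 0) : Z2 h (u ^ m) :=
  ⟨z.1.zpow_right m, fun i j e => by
    have := z.2 i (m * j) (by rwa [zpow_mul])
    exact ⟨this.1, (mul_eq_zero.1 this.2).resolve_left hm⟩⟩

theorem pg_conj {h u g : G} (z : Z2 h u) (c : Commute h g) : Z2 h (g * u * g⁻¹) :=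
  ⟨(c.mul_right z.1).mul_right c.inv_right, fun i j e => z.2 i j (by
    rw [conj_zpow, ← mul_assoc, ← mul_assoc, (c.zpow_left i).eq, mul_inv_eq_one, mul_assoc,
      mul_eq_left] at e
    exact e)⟩

theorem pg_root {x : Multiplicative ℝ} {m : ℤ} (hm : m ≠ 0) (e : x ^ m = 1) : x = 1 := by
  have : m • x.toAdd = 0 := congrArg Multiplicative.toAdd e
  exact (smul_eq_zero.1 this).resolve_left hm

/-- the hypotheses, for the whole group -/
structure Pp (h : G) (p : F → Prop) : Prop where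
  tf : ∀ a : G, a ≠ 1 → ¬ IsOfFinOrder a
  cen : ∀ g, Commute h g
  inv : ∀ (g : G) x, p x → p (g • x)
  rk : ∀ x, p x → ∀ u v : G, u • x = x → v • x = x → Z2 h u →
    ∃ m b c : ℤ, m ≠ 0 ∧ v ^ m = u ^ b * h ^ c
  two : ∀ x y, p x → p y → x ≠ y → ∀ u : G, u • x = x → u • y = y → ¬ Z2 h u
  per : ∀ u : G, Z2 h u → ∃ x, p x ∧ u • x = x
  cyc : ∀ a b : G, (∀ u ∈ closure {h, a, b}, ¬ Z2 h u) → Commute a b
  cnt : ∀ (k : ℕ) (x : Fin k → F) (κ : Fin k → G), (∀ i, p (x i) ∧ ∃ u, Z2 h u ∧ u • x i = x i) →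
    (∀ i j (g : G), g • x i = x j → i = j) → ¬ Det κ

variable {h s t : G} {p : F → Prop} {x y : F}

theorem Pp.O (P : Pp h p) {φ : G →* Multiplicative ℝ} (φh : φ h = 1) (px : p x) {u v g : G}
    (ux : u • x = x) (vx : v • g • x = g • x) (z : Z2 h u) (φu : φ u = 1) : φ v = 1 := by
  obtain ⟨m, b, c, m0, e⟩ := P.rk x px u (g⁻¹ * v * g) ux
    (by rw [mul_smul, mul_smul, vx, inv_smul_smul]) z
  have := congrArg φ e
  rw [map_zpow, map_mul φ (u ^ b), map_zpow, map_zpow, φh, φu, one_zpow, one_zpow, one_mul] at this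
  simpa [mul_comm] using pg_root m0 this

theorem Pp.half (P : Pp h p) (zs : Z2 h s) (zt : Z2 h t) (px : p x) (py : p y) (sx : s • x = x)
    (ty : t • y = y) (ne : x ≠ y) : ¬ Det ![h, s] := fun d => by
  have eqv : ∀ w, p w → ∀ u, Z2 h u → u • w = w → ∃ g : G, g • w = x := fun w pw u zu uw => by
    by_contra n
    refine P.cnt 2 ![x, w] _ (Fin.forall_fin_two.2 ⟨⟨px, s, zs, sx⟩, pw, u, zu, uw⟩)
      (Fin.forall_fin_two.2 ⟨Fin.forall_fin_two.2 ⟨fun _ _ => rfl, fun g e => (n ⟨g⁻¹, ?_⟩).elim⟩,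
        Fin.forall_fin_two.2 ⟨fun g e => (n ⟨g, e⟩).elim, fun _ _ => rfl⟩⟩) d
    exact inv_smul_eq_iff.2 e.symm
  have n1 := P.cnt 1 ![x] ![h] (Fin.forall_fin_one.2 ⟨px, s, zs, sx⟩)
    fun i j _ _ => Subsingleton.elim i j
  simp only [Det, not_forall] at n1
  obtain ⟨χ, c1, c2⟩ := n1
  have ch : χ h = 1 := c1 0
  have cs : χ s ≠ 1 := fun e => c2 (d χ (Fin.forall_fin_two.2 ⟨ch, e⟩))
  have ker : ∀ u, χ u = 1 → ¬ Z2 h u := fun u cu zu => by
    obtain ⟨w, pw, uw⟩ := P.per u zu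
    obtain ⟨g, rfl⟩ := eqv w pw u zu uw
    exact cs (P.O ch pw uw sx zu cu)
  obtain ⟨g, hg⟩ := eqv y py t zt ty
  obtain ⟨m, b, c, m0, e⟩ := P.rk x px s (g * t * g⁻¹) sx
    (by rw [← hg, mul_smul, mul_smul, inv_smul_smul, ty]) zs
  have cu : χ (s ^ b * (t ^ m)⁻¹) = 1 := by
    have := congrArg χ e
    rw [conj_zpow, map_mul, map_mul, map_mul, map_zpow χ h, ch, one_zpow, mul_one, map_inv,
      mul_comm (χ g), mul_inv_cancel_right] at this
    rw [map_mul, map_inv, this, mul_inv_cancel]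
  generalize hu : s ^ b * (t ^ m)⁻¹ = u at cu
  have cm : Commute u (s * u * s⁻¹) := P.cyc _ _ fun v hv => ker v ((closure_le χ.ker).2 (by
    rintro _ (rfl | rfl | rfl)
    exacts [ch, cu, by simp [MonoidHom.mem_ker, cu]]) hv)
  obtain ⟨i, j, i0, ei⟩ := pg_dep P.tf (pg_ne zs) (P.cen u) (ker u cu)
  have e2 : u = s * u * s⁻¹ := mul_inv_eq_one.1 (pg_pw P.tf i0 (by
    rw [cm.inv_right.mul_zpow, inv_zpow, conj_zpow, ei, ← ((P.cen s).zpow_left j).eq]
    group))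
  have su : Commute s u := (eq_mul_inv_iff_mul_eq.1 e2).symm
  have st : Commute s (t ^ m) := by
    have : t ^ m = u⁻¹ * s ^ b := by
      rw [← hu]
      group
    rw [this]
    exact su.inv_right.mul_right ((Commute.refl s).zpow_right b)
  have fx : t ^ m • x = x := by_contra fun n => P.two _ _ (P.inv _ _ px) px n s
    (by rw [← mul_smul, st.eq, mul_smul, sx]) sx zs
  exact P.two x y px py ne _ fx ((MulAction.stabilizer G y).zpow_mem ty m) (pg_zpow zt m0)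

theorem Pp.no (P : Pp h p) (gen : closure {h, s, t} = ⊤) (zs : Z2 h s) (zt : Z2 h t) (px : p x)
    (py : p y) (sx : s • x = x) (ty : t • y = y) : x = y := by
  by_contra ne
  have d : ∀ φ : G →* Multiplicative ℝ, φ h = 1 → φ s = 1 → φ t = 1 → φ = 1 := fun φ a b c =>
    MonoidHom.eq_of_eqOn_dense gen (by
      rintro _ (rfl | rfl | rfl)
      exacts [a, b, c])
  have n1 := P.half zs zt px py sx ty ne
  have n2 := P.half zt zs py px ty sx (Ne.symm ne)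
  simp only [Det, not_forall] at n1 n2
  obtain ⟨χ, c1, c2⟩ := n1
  obtain ⟨ψ, d1, d2⟩ := n2
  have ch : χ h = 1 := c1 0
  have cs : χ s = 1 := c1 1
  have dh : ψ h = 1 := d1 0
  have dt : ψ t = 1 := d1 1
  have ct : χ t ≠ 1 := fun e => c2 (d χ ch cs e)
  have ds : ψ s ≠ 1 := fun e => d2 (d ψ dh e dt)
  have cst : χ (s * t) ≠ 1 := by rwa [map_mul, cs, one_mul]
  have dst : ψ (s * t) ≠ 1 := by rwa [map_mul, dt, mul_one]
  have zu : Z2 h (s * t) := by_contra fun n => by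
    obtain ⟨i, j, i0, e⟩ := pg_dep P.tf (pg_ne zs) (P.cen _) n
    refine cst (pg_root i0 ?_)
    rw [← map_zpow, e, map_zpow, ch, one_zpow]
  obtain ⟨w, pw, uw⟩ := P.per _ zu
  have a1 : ∀ g : G, g • x ≠ y := fun g e => ct (P.O ch px sx (e ▸ ty) zs cs)
  have a2 : ∀ g : G, g • x ≠ w := fun g e => cst (P.O ch px sx (e ▸ uw) zs cs)
  have a3 : ∀ g : G, g • y ≠ w := fun g e => dst (P.O dh py ty (e ▸ uw) zt dt)
  have sy : ∀ {a b : F}, (∀ g : G, g • a ≠ b) → ∀ g : G, g • b ≠ a := fun k g e =>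
    k g⁻¹ (inv_smul_eq_iff.2 e.symm)
  refine P.cnt 3 ![x, y, w] ![h, s, t] (fun i => ?_) (fun i j g e => ?_)
    fun φ k => d φ (k 0) (k 1) (k 2)
  · fin_cases i
    exacts [⟨px, s, zs, sx⟩, ⟨py, t, zt, ty⟩, ⟨pw, _, zu, uw⟩]
  · fin_cases i <;> fin_cases j
    exacts [rfl, (a1 g e).elim, (a2 g e).elim, (sy a1 g e).elim, rfl, (a3 g e).elim,
      (sy a2 g e).elim, (sy a3 g e).elim, rfl]

theorem pg_coe {E : Subgroup G} {a b : E} : Z2 a b ↔ Z2 a.1 b.1 :=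
  and_congr ⟨fun k => congrArg Subtype.val k, fun k => Subtype.ext k⟩
    (forall₂_congr fun _ _ => imp_congr_left ⟨fun k => congrArg Subtype.val k, fun k => Subtype.ext k⟩)

theorem pg_cen (zs : Commute h s) (zt : Commute h t) : ∀ g ∈ closure {h, s, t}, Commute h g :=
  fun _ hg => mem_centralizer_singleton_iff.1 ((closure_le (centralizer {h})).2 (by
    rintro _ (rfl | rfl | rfl) <;> refine mem_centralizer_singleton_iff.2 ?_
    exacts [rfl, zs.symm, zt.symm]) hg) |>.symm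

/-- the lemma for a subgroup -/
theorem ppg (tf : ∀ a : G, a ≠ 1 → ¬ IsOfFinOrder a) {E : Subgroup G} (hE : E = closure {h, s, t})
    (zs : Z2 h s) (zt : Z2 h t) (inv : ∀ g ∈ E, ∀ x, p x → p (g • x))
    (rk : ∀ x, p x → ∃ Q : Subgroup G, Nonempty (Q ≃* Multiplicative (ℤ × ℤ)) ∧ h ∈ Q ∧
      ∀ u ∈ E, u • x = x → u ∈ Q)
    (two : ∀ x y, p x → p y → x ≠ y → ∀ u ∈ E, u • x = x → u • y = y → ¬ Z2 h u)
    (per : ∀ u ∈ E, Z2 h u → ∃ x, p x ∧ u • x = x)
    (cyc : ∀ a ∈ E, ∀ b ∈ E, (∀ u ∈ closure {h, a, b}, ¬ Z2 h u) → Commute a b)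
    (cnt : ∀ (k : ℕ) (x : Fin k → F) (κ : Fin k → E),
      (∀ i, p (x i) ∧ ∃ u ∈ E, Z2 h u ∧ u • x i = x i) →
      (∀ i j, ∀ g ∈ E, g • x i = x j → i = j) → ¬ Det κ)
    (px : p x) (py : p y) (sx : s • x = x) (ty : t • y = y) : x = y := by
  have mh : h ∈ E := hE.ge (subset_closure (.inl rfl))
  have ms : s ∈ E := hE.ge (subset_closure (.inr (.inl rfl)))
  have mt : t ∈ E := hE.ge (subset_closure (.inr (.inr rfl)))
  have P : Pp (G := E) ⟨h, mh⟩ p :=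
    { tf := fun a ha k => tf a.1 (fun e => ha (Subtype.ext e)) (E.subtype.isOfFinOrder k)
      cen := fun g => Subtype.ext (pg_cen zs.1 zt.1 g.1 (hE.le g.2))
      inv := fun g => inv g.1 g.2
      rk := fun x px u v ux vx z => by
        obtain ⟨Q, ⟨e⟩, a, b⟩ := rk x px
        obtain ⟨m, i, j, m0, q⟩ := pg_rank e a (b _ u.2 ux) (b _ v.2 vx) (pg_coe.1 z)
        exact ⟨m, i, j, m0, Subtype.ext q⟩
      two := fun x y a b n u c d z => two x y a b n _ u.2 c d (pg_coe.1 z)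
      per := fun u z => per _ u.2 (pg_coe.1 z)
      cyc := fun a b k => Subtype.ext (cyc _ a.2 _ b.2 fun u hu z => by
        have : closure {h, a.1, b.1} ≤ (closure {⟨h, mh⟩, a, b}).map E.subtype :=
          (closure_le _).2 (by
            rintro _ (rfl | rfl | rfl)
            exacts [⟨_, subset_closure (.inl rfl), rfl⟩, ⟨_, subset_closure (.inr (.inl rfl)), rfl⟩,
              ⟨_, subset_closure (.inr (.inr rfl)), rfl⟩])
        obtain ⟨v, hv, rfl⟩ := this hu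
        exact k v hv (pg_coe.2 z))
      cnt := fun k x κ a b => cnt k x κ
        (fun i => ⟨(a i).1, let ⟨u, c, d⟩ := (a i).2; ⟨u.1, u.2, pg_coe.1 c, d⟩⟩)
        fun i j g hg => b i j ⟨g, hg⟩ }
  refine P.no (s := ⟨s, ms⟩) (t := ⟨t, mt⟩) ?_ (pg_coe.2 zs) (pg_coe.2 zt) px py sx ty
  refine map_injective E.subtype_injective ?_
  rw [MonoidHom.map_closure, ← MonoidHom.range_eq_map, range_subtype]
  simp only [image_insert_eq, image_singleton]
  exact hE.symm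

variable {X0 X1 X2 X3 : Type} [MulAction G X0] [MulAction G X1] [MulAction G X2]
  [MulAction G X3] {T : Tri G X0 X1 X2 X3}

/-- a finitely generated group of roots of powers of `h` is cyclic -/
theorem pg_cyc (hM : Mfd T) (tf : ∀ a : G, a ≠ 1 → ¬ IsOfFinOrder a) {a b : G} (z : Z2 a b)
    {E : Subgroup G} (fg : E.FG) (hE : h ∈ E) (dep : ∀ u ∈ E, ∃ i j : ℤ, i ≠ 0 ∧ u ^ i = h ^ j) :
    IsCyclic E := by
  have : Group.FG E := (Group.fg_iff_subgroup_fg E).2 fg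
  have := Rv.cyc_sub hM tf ⟨a, b, z.1, fun ⟨m, n, d, e⟩ => d (by
      have := z.2 m (-n) (by rw [e, zpow_neg, mul_inv_cancel])
      omega)⟩ E ⊤ Group.FG.out
    (fun x _ y _ _ => by
      obtain ⟨i, j, i0, e⟩ := dep _ x.2
      obtain ⟨k, l, k0, f⟩ := dep _ y.2
      by_cases l0 : l = 0
      · exact ⟨0, k, fun q => k0 q.2, Subtype.ext (by simpa [l0] using f.symm)⟩
      · refine ⟨i * l, k * j, fun q => mul_ne_zero i0 l0 q.1, Subtype.ext ?_⟩
        show x.1 ^ (i * l) = y.1 ^ (k * j)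
        rw [zpow_mul, zpow_mul, e, f, ← zpow_mul, ← zpow_mul, mul_comm])
    ⟨⟨h, hE⟩, trivial⟩ fun φ k => MonoidHom.ext fun x => by
      obtain ⟨i, j, i0, e⟩ := dep _ x.1.2
      have e' : x ^ i = ⟨⟨h, hE⟩, trivial⟩ ^ j := Subtype.ext (Subtype.ext e)
      exact pg_root i0 (by rw [← map_zpow, e', map_zpow, k, one_zpow])
  exact isCyclic_of_surjective _ topEquiv.surjective

/-- the hypothesis `cyc` of `ppg` -/
theorem pg_comm (hM : Mfd T) (tf : ∀ a : G, a ≠ 1 → ¬ IsOfFinOrder a) (zs : Z2 h s) {a b : G}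
    (ha : Commute h a) (hb : Commute h b) (n : ∀ u ∈ closure {h, a, b}, ¬ Z2 h u) :
    Commute a b := by
  have := pg_cyc hM tf zs (E := closure {h, a, b})
    ((fg_iff _).2 ⟨_, rfl, toFinite _⟩) (subset_closure (.inl rfl))
    fun u hu => pg_dep tf (pg_ne zs) (pg_cen ha hb u hu) (n u hu)
  let _ := IsCyclic.commGroup (α := closure {h, a, b})
  exact congrArg Subtype.val (mul_comm (⟨a, subset_closure (.inr (.inl rfl))⟩ : closure {h, a, b})
    ⟨b, subset_closure (.inr (.inr rfl))⟩)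

/-- the lemma in a manifold group -/
theorem ppg' (hM : Mfd T) (tf : ∀ a : G, a ≠ 1 → ¬ IsOfFinOrder a) {E : Subgroup G}
    (hE : E = closure {h, s, t}) (zs : Z2 h s) (zt : Z2 h t) (inv : ∀ g ∈ E, ∀ x, p x → p (g • x))
    (rk : ∀ x, p x → ∃ Q : Subgroup G, Nonempty (Q ≃* Multiplicative (ℤ × ℤ)) ∧ h ∈ Q ∧
      ∀ u ∈ E, u • x = x → u ∈ Q)
    (two : ∀ x y, p x → p y → x ≠ y → ∀ u ∈ E, u • x = x → u • y = y → ¬ Z2 h u)
    (per : ∀ u ∈ E, Z2 h u → ∃ x, p x ∧ u • x = x)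
    (cnt : ∀ (k : ℕ) (x : Fin k → F) (κ : Fin k → E),
      (∀ i, p (x i) ∧ ∃ u ∈ E, Z2 h u ∧ u • x i = x i) →
      (∀ i j, ∀ g ∈ E, g • x i = x j → i = j) → ¬ Det κ)
    (px : p x) (py : p y) (sx : s • x = x) (ty : t • y = y) : x = y :=
  ppg tf hE zs zt inv rk two per (fun a ha b hb => pg_comm hM tf zs
    (pg_cen zs.1 zt.1 a (hE.le ha)) (pg_cen zs.1 zt.1 b (hE.le hb))) cnt px py sx ty

end Pool.Agent.Work.MP_3d425c_gt.Fs
end

-- merged part: Pool.Agent.Work.MP_3d425c_gt.Fl.S2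
section
/-! A vertex with peripheral lattices and an element that fixes two edges has a fibre. -/

namespace Pool.Agent.Work.MP_3d425c_gt.Fs
open Set Subgroup MulAction Pool.Agent.Work.MP_3d425c_gt.Md Pool.Agent.Work.MP_3d425c_gt.Bg
  Pool.Agent.Work.MP_3d425c_gt.Bq Pool.Agent.Work.MP_3d425c_gt.Cw
open scoped Pointwise

variable {G X0 X1 X2 X3 : Type} [Group G] [MulAction G X0] [MulAction G X1] [MulAction G X2]
  [MulAction G X3] {T : Tri G X0 X1 X2 X3} {V : Type} [MulAction G V] {Γ : SimpleGraph V} {v : V}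

theorem s2_ray {Q : Subgroup G} (e : Q ≃* Multiplicative (ℤ × ℤ)) {h : G} (hh : h ∈ Q)
    (h1 : h ≠ 1) : ∃ s ∈ Q, Z2 h s := by
  obtain ⟨⟨i, j⟩, eh⟩ : ∃ x, e ⟨h, hh⟩ = .ofAdd x := ⟨_, (ofAdd_toAdd _).symm⟩
  have k : ∀ x y m n : ℤ, h ^ m * (e.symm (.ofAdd (x, y))).1 ^ n = 1 →
      m * i + n * x = 0 ∧ m * j + n * y = 0 := fun x y m n q => by
    have := congrArg e (Subtype.ext q : ⟨h, hh⟩ ^ m * e.symm (.ofAdd (x, y)) ^ n = 1)
    rw [map_mul, map_zpow, map_zpow, eh, e.apply_symm_apply, map_one, ← ofAdd_zsmul,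
      ← ofAdd_zsmul, ← ofAdd_add] at this
    exact Prod.ext_iff.1 (congrArg Multiplicative.toAdd this)
  by_cases i0 : i = 0
  · have j0 : j ≠ 0 := fun j0 => h1 (congrArg Subtype.val
      (e.injective (show e ⟨h, hh⟩ = e 1 by rw [eh, i0, j0, map_one]; rfl)))
    refine ⟨_, (e.symm (.ofAdd (1, 0))).2, Kl.cm e hh (Subtype.property _), fun m n q => ?_⟩
    obtain ⟨a, b⟩ := k _ _ m n q
    exact ⟨by simpa [j0] using b, by simpa [i0] using a⟩
  · refine ⟨_, (e.symm (.ofAdd (0, 1))).2, Kl.cm e hh (Subtype.property _), fun m n q => ?_⟩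
    obtain ⟨a, b⟩ := k _ _ m n q
    have m0 : m = 0 := by simpa [i0] using a
    exact ⟨m0, by simpa [m0] using b⟩

theorem s2_gen {C : Subgroup G} (c : IsCyclic C) : ∃ h, C = zpowers h := by
  obtain ⟨q, hq⟩ := c.exists_generator
  refine ⟨q.1, le_antisymm (fun x hx => ?_) (zpowers_le_of_mem q.2)⟩
  obtain ⟨n, hn⟩ := hq ⟨x, hx⟩
  exact ⟨n, congrArg Subtype.val hn⟩

theorem s2_nc {C : Subgroup G} {a b : G} (z : Z2 a b) (ha : a ∈ C) (hb : b ∈ C) :
    ¬ IsCyclic C := fun c => by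
  obtain ⟨h, rfl⟩ := s2_gen c
  obtain ⟨m, rfl⟩ := ha
  obtain ⟨n, rfl⟩ := hb
  have := z.2 n (-m) (by group)
  exact pg_ne z (by simp [show m = 0 by omega])

theorem s2_swap {a b : G} (z : Z2 a b) : Z2 b a :=
  ⟨z.1.symm, fun m n e => (z.2 n m (by rwa [(z.1.zpow_zpow n m).eq])).symm⟩

/-- the statement on the tree -/
theorem s2_core (hM : Mfd T) (tf : ∀ a : G, a ≠ 1 → ¬ IsOfFinOrder a)
    (hd : ∀ E : Subgroup G, ¬ E.FiniteIndex → E.FG → Dual T E) (hT : Γ.IsTree)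
    (act : ∀ (g : G) p q, Γ.Adj p q → Γ.Adj (g • p) (g • q))
    (red : ∀ p q, Γ.Adj p q → ∃ g : G, g • p = p ∧ g • q ≠ q)
    (iso : ∀ w, Γ.Adj v w → Nonempty
      ((stabilizer G v ⊓ stabilizer G w : Subgroup G) ≃* Multiplicative (ℤ × ℤ)))
    (rk : ∀ w w', Γ.Adj v w → Γ.Adj v w' → w ≠ w' →
      IsCyclic ↥(stabilizer G v ⊓ stabilizer G w ⊓ stabilizer G w'))
    (cusp : ∀ a b : G, Z2 a b → a • v = v → b • v = v → ∃ w, Γ.Adj v w ∧ a • w = w ∧ b • w = w)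
    (sq : ∀ w, Γ.Adj v w → ∀ a b g : G, Z2 a b → a ∈ stabilizer G v ⊓ stabilizer G w →
      b ∈ stabilizer G v ⊓ stabilizer G w → Commute g a → Commute g b → (g * g) • w = w)
    (s : S2 G Γ v) : Sv.Sei G Γ v := by
  obtain ⟨a, w, w', a1, av, ad, ad', ne, aw, aw'⟩ := s
  obtain ⟨h, hh⟩ := s2_gen (rk w w' ad ad' ne)
  have hm : h ∈ stabilizer G v ⊓ stabilizer G w ⊓ stabilizer G w' := hh.ge (mem_zpowers h)
  have h1 : h ≠ 1 := fun e => a1 (by
    have : a ∈ zpowers h := hh.le ⟨⟨av, aw⟩, aw'⟩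
    rwa [e, zpowers_one_eq_bot] at this)
  obtain ⟨s, hs, zs⟩ := s2_ray (iso w ad).some hm.1 h1
  obtain ⟨t, ht, zt⟩ := s2_ray (iso w' ad').some ⟨hm.1.1, hm.2⟩ h1
  have le : closure {h, s, t} ≤ stabilizer G v := (closure_le _).2 (by
    rintro _ (rfl | rfl | rfl)
    exacts [hm.1.1, hs.1, ht.1])
  have adj : ∀ g : G, g • v = v → ∀ u, Γ.Adj v u → Γ.Adj v (g • u) := fun g e u k => by
    simpa only [e] using act g _ _ k
  have cen := pg_cen zs.1 zt.1
  have mh : h ∈ closure {h, s, t} := subset_closure (.inl rfl)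
  by_cases fi : ((closure {h, s, t}).subgroupOf (stabilizer G v)).FiniteIndex
  swap
  · refine (ne (ppg' (p := fun u => Γ.Adj v u ∧ h • u = u) hM tf rfl zs zt
      (fun g hg u k => ⟨adj g (le hg) u k.1, by rw [← mul_smul, (cen g hg).eq, mul_smul, k.2]⟩)
      (fun u k => ⟨_, iso u k.1, ⟨hm.1.1, k.2⟩, fun x hx e => ⟨le hx, e⟩⟩)
      (fun x y p q n u hu e f z => s2_nc (C := stabilizer G v ⊓ stabilizer G x ⊓ stabilizer G y) z
        ⟨⟨hm.1.1, p.2⟩, q.2⟩ ⟨⟨le hu, e⟩, f⟩ (rk x y p.1 q.1 n))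
      (fun u hu z => let ⟨x, p, q, r⟩ := cusp h u z hm.1.1 (le hu); ⟨x, ⟨p, q⟩, r⟩)
      (fun k x κ p q d => s2_nc zs mh (subset_closure (.inr (.inl rfl)))
        (Sv.det_cyc' hM tf hd hT act red iso le fi ((fg_iff _).2 ⟨_, rfl, toFinite _⟩) x
          (fun i => (p i).1.1) q (fun i => let ⟨u, hu, z, e⟩ := (p i).2
            s2_nc z ⟨mh, (p i).1.2⟩ ⟨hu, e⟩) κ d le_rfl))
      ⟨ad, hm.1.2⟩ ⟨ad', hm.2⟩ hs.2 ht.2)).elim
  have pw : ∀ x ∈ stabilizer G v, ∃ n : ℤ, n ≠ 0 ∧ Commute h (x ^ n) := fun x hx => by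
    obtain ⟨n, n0, -, k⟩ := exists_pow_mem_of_index_ne_zero fi.index_ne_zero
      (⟨x, hx⟩ : stabilizer G v)
    exact ⟨n, by omega, by simpa using cen _ k⟩
  have all : ∀ u, Γ.Adj v u → (h * h) • u = u := fun u k => by
    obtain ⟨e⟩ := iso u k
    have x1 : (e.symm (.ofAdd (1, 0))).1 ≠ 1 := fun q => by
      have := congrArg e (Subtype.ext q : e.symm (.ofAdd (1, 0)) = 1)
      rw [e.apply_symm_apply, map_one] at this
      exact one_ne_zero (congrArg (fun x => x.toAdd.1) this)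
    have hx := (e.symm (.ofAdd (1, 0))).2
    obtain ⟨y, hy, z⟩ := s2_ray e hx x1
    obtain ⟨m, m0, cm⟩ := pw _ hx.1
    obtain ⟨n, n0, cn⟩ := pw _ hy.1
    exact sq u k _ _ h (s2_swap (pg_zpow (s2_swap (pg_zpow z n0)) m0)) (zpow_mem hx m)
      (zpow_mem hy n) cm cn
  let Y : Subgroup G := stabilizer G v ⊓ ⨅ u : {u // Γ.Adj v u}, stabilizer G u.1
  have mY : ∀ x, x ∈ Y ↔ x • v = v ∧ ∀ u, Γ.Adj v u → x • u = u := fun x => by
    simp [Y]
  have : IsCyclic ↥(stabilizer G v ⊓ stabilizer G w ⊓ stabilizer G w') := rk w w' ad ad' ne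
  obtain ⟨y, hy⟩ := s2_gen (isCyclic_of_le (H := Y)
    (H' := stabilizer G v ⊓ stabilizer G w ⊓ stabilizer G w') fun x k =>
      ⟨⟨k.1, ((mY x).1 k).2 w ad⟩, ((mY x).1 k).2 w' ad'⟩)
  have y1 := (mY y).1 (hy.ge (mem_zpowers y))
  refine ⟨y, fun e => h1 (pg_pw tf two_ne_zero ?_), y1.1, y1.2, fun g gv => hy.le ((mY _).2 ⟨?_,
    fun u k => ?_⟩)⟩
  · have : h * h ∈ zpowers y := hy.le ((mY _).2 ⟨mul_mem hm.1.1 hm.1.1, all⟩)
    rwa [e, zpowers_one_eq_bot, mem_bot, ← zpow_two] at this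
  · exact (stabilizer G v).mul_mem ((stabilizer G v).mul_mem gv y1.1) ((stabilizer G v).inv_mem gv)
  · rw [mul_smul, mul_smul, y1.2 _ (adj _ ((stabilizer G v).inv_mem gv) u k), smul_inv_smul]

/-- the midpoint of a reversed wall has a fibre -/
theorem mid_sei {S : Std T} {hd tl : S.cf.U → V} (J : Jw0 S Γ hd tl) {e : S.cf.U}
    (i : Nh.Iv G S.cf.ust e) : Sv.Sei G Γ (tl e) := by
  obtain ⟨g, hg⟩ := i
  obtain ⟨x, x1, x2⟩ := Kl.can_nc S e.2.1 (congrArg Subtype.val hg)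
  obtain ⟨p, -, -, -, a, b, c, d⟩ := Kl.mid S.tf J.tr (S.cf.u_stab e ▸ e.2.1.z2 S) hg
    ⟨x, Subtype.ext x1, x2⟩
  exact ⟨p, a, c, d, fun y k => (b y k).elim (fun q => q.symm ▸ mem_zpowers p)
    fun q => q.symm ▸ inv_mem (mem_zpowers p)⟩

/-- two edges at an ordinary vertex have a cyclic common group -/
theorem hd_rk {S : Std T} {hd tl : S.cf.U → V} (J : Jw0 S Γ hd tl) (e : S.cf.U) (w w' : V)
    (a : Γ.Adj (hd e) w) (a' : Γ.Adj (hd e) w') (n : w ≠ w') :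
    IsCyclic ↥(stabilizer G (hd e) ⊓ stabilizer G w ⊓ stabilizer G w') := by
  obtain ⟨f, q, rfl⟩ := (J.tr.nb J.sy.poc e w).1 a
  obtain ⟨f', q', rfl⟩ := (J.tr.nb J.sy.poc e w').1 a'
  have := J.sy.rk _ _ (((J.tr.hdq f f').1 (q.trans q'.symm)).resolve_left
    fun k => n (congrArg tl k)).1
  refine isCyclic_of_le (H' := stabilizer G (S.cf.ust f) ⊓ stabilizer G f') fun x k => ⟨?_, ?_⟩
  · show x • S.cf.ust f = _
    rw [← J.sy.poc.ast, (J.tr.stab x f).1 ⟨q ▸ k.1.1, k.1.2⟩]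
  · exact (J.tr.stab x f').1 ⟨q' ▸ k.1.1, k.2⟩

theorem s2_sq (S : Std T) {A : Set X0} {a b g : G} (hA : Can T A) (z : Z2 a b) (ha : a • A = A)
    (hb : b • A = A) (ca : Commute g a) (cb : Commute g b) : (g * g) • A = A := by
  rcases hA.comm S (hA.smul g) z ha hb (by rw [← mul_smul, ← ca.eq, mul_smul, ha])
    (by rw [← mul_smul, ← cb.eq, mul_smul, hb]) with e | e
  · rw [mul_smul, e, e]
  · rw [mul_smul, e, ← hA.st_smul S, e, hA.st_st S]

theorem s2_sei' (S : Std T) (du : ∀ E : Subgroup G, ¬ E.FiniteIndex → E.FG → Dual T E)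
    {hd tl : S.cf.U → V} (J : Jw0 S Γ hd tl) (v : V) (n1 : ¬ S1 T v) (s : S2 G Γ v) :
    Sv.Sei G Γ v := by
  obtain ⟨e, rfl | ⟨i, rfl⟩⟩ := J.tr.all v
  swap
  · exact mid_sei J i
  refine s2_core S.mfd S.tf du J.tr.tree J.tr.act J.red (J.edge _) (hd_rk J e)
    (fun a b z p q => (J.cusp _ a b z p q).resolve_right fun ⟨B, k⟩ => n1 ⟨a, b, B, z, p, q, k⟩)
    (fun w ad a b g z p q c d => ?_) s
  obtain ⟨f, k⟩ := J.grp _ w ad
  exact (k.ge (s2_sq S f.2.1 z (k.le p) (k.le q) c d)).2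

theorem s2_sei (S : Sd T) {hd tl : S.std.cf.U → V} (J : Jw0 S.std Γ hd tl) (v : V)
    (n1 : ¬ S1 T v) (s : S2 G Γ v) : Sv.Sei G Γ v := s2_sei' S.std S.dual J v n1 s

end Pool.Agent.Work.MP_3d425c_gt.Fs
end

-- merged part: Pool.Agent.Work.MP_3d425c_gt.Fl.VN
section
/-! Roots fix canonical walls; the direction of a crossing; vertical walls. -/

namespace Pool.Agent.Work.MP_3d425c_gt.Cw
open Set MulAction Pool.Agent.Work.MP_3d425c_gt.Md Pool.Agent.Work.MP_3d425c_gt.Bg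
  Pool.Agent.Work.MP_3d425c_gt.Bq Pool.Agent.Work.MP_3d425c_gt.Jw
open scoped Pointwise

variable {G X0 X1 X2 X3 : Type} [Group G] [MulAction G X0] [MulAction G X1] [MulAction G X2]
  [MulAction G X3] {T : Tri G X0 X1 X2 X3} {A B B' D : Set X0} {a b c g h : G}

theorem vn_pow (S : Std T) (c1 : c ≠ 1) {n : ℤ} (e : c ^ n = 1) : n = 0 :=
  (ori_pow S.tf e).resolve_right c1

theorem vn_ne (hM : Mfd T) (k : Can T A) : A.Nonempty :=
  nonempty_iff_ne_empty.2 fun e => k.big hM (by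
    have := SmP.empty (P := stabilizer G A) (A := X0)
    rwa [← e] at this)

theorem vn_mem (k : g • A = A) (x : X0) : g • x ∈ A ↔ x ∈ A := by
  conv_lhs => rw [← k]
  exact smul_mem_smul_set_iff

theorem vn_zpow (k : g • A = A) (n : ℤ) : g ^ n • A = A := (stabilizer G A).zpow_mem k n

/-- the group of a canonical wall is abelian -/
theorem Can.commute (S : Std T) (k : Can T A) (ha : a • A = A) (hb : b • A = A) : Commute a b := by
  obtain ⟨i⟩ := k.z2 S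
  exact congrArg Subtype.val (i.injective (by rw [map_mul, map_mul, mul_comm]) :
    (⟨a, ha⟩ * ⟨b, hb⟩ : stabilizer G A) = ⟨b, hb⟩ * ⟨a, ha⟩)

theorem Can.fix_st (S : Std T) (k : Can T A) : g • st T A = st T A ↔ g • A = A := by
  rw [← mem_stabilizer_iff, cn_st_eq S k, mem_stabilizer_iff]

/-- a nontrivial element of the group of a wall is part of a basis of a lattice in it -/
theorem Can.ray (S : Std T) (k : Can T A) (c1 : c ≠ 1) (hc : c • A = A) :
    ∃ p : G, p • A = A ∧ Z2 c p := by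
  obtain ⟨a, b, z, -, -, le, -⟩ := k.idx S.mfd
  have ha : a • A = A := le (Subgroup.subset_closure (.inl rfl))
  have hb : b • A = A := le (Subgroup.subset_closure (.inr rfl))
  by_contra n
  have dp : ∀ p : G, p • A = A → ∃ i j : ℤ, j ≠ 0 ∧ c ^ i * p ^ j = 1 := fun p hp => by
    by_contra q
    refine n ⟨p, hp, k.commute S hc hp, fun i j e => ?_⟩
    have j0 : j = 0 := by_contra fun l => q ⟨i, j, l, e⟩
    rw [j0, zpow_zero, mul_one] at e
    exact ⟨vn_pow S c1 e, j0⟩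
  obtain ⟨i, j, j0, e⟩ := dp a ha
  obtain ⟨i', j', j0', e'⟩ := dp b hb
  have f : a ^ j = c ^ (-i) := by rw [zpow_neg, eq_inv_iff_mul_eq_one, ← e]; exact
    ((k.commute S ha hc).zpow_zpow j i).eq
  have f' : b ^ j' = c ^ (-i') := by rw [zpow_neg, eq_inv_iff_mul_eq_one, ← e']; exact
    ((k.commute S hb hc).zpow_zpow j' i').eq
  have := z.2 (j * i') (-(j' * i)) (by
    rw [zpow_neg, zpow_mul, zpow_mul, f, f', ← zpow_mul, ← zpow_mul, mul_inv_eq_one]
    congr 1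
    ring)
  have i0 : i' = 0 := (mul_eq_zero.1 this.1).resolve_left j0
  rw [i0, zpow_zero, one_mul] at e'
  exact j0' (z.2 0 j' (by rw [zpow_zero, one_mul, e'])).2

/-- a root, in the group of some wall, of an element that fixes `B` fixes `B` -/
theorem root2 (S : Std T) (hA : Can T A) (hB : Can T B) (cA : c • A = A) {k : ℤ} (k0 : k ≠ 0)
    (cB : c ^ k • B = B) : c • B = B := by
  by_cases c1 : c = 1
  · rw [c1, one_smul]
  obtain ⟨n, n0, cB⟩ : ∃ n : ℕ, 0 < n ∧ c ^ n • B = B := ⟨k.natAbs, Int.natAbs_pos.2 k0, by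
    rw [← zpow_natCast]
    rcases Int.natAbs_eq k with q | q
    · rwa [← q]
    · rw [q, zpow_neg, inv_smul_eq_iff] at cB
      exact cB.symm⟩
  obtain ⟨p, -, zp⟩ := hA.ray S c1 cA
  obtain ⟨q, hq, zq⟩ := hB.ray S (c := c ^ n) (fun e => n0.ne' (by
    exact_mod_cast vn_pow S c1 (n := n) (by rw [zpow_natCast, e]))) cB
  obtain ⟨l, l0, cm⟩ := root S.mfd S.nh n0 zp.1 zp.2 zq.1 zq.2
  have z : Z2 (c ^ n) (q ^ l) := ⟨zq.1.pow_right l, fun i j e => by
    have := zq.2 i (l * j) (by rwa [zpow_mul, zpow_natCast])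
    exact ⟨this.1, (mul_eq_zero.1 this.2).resolve_left (by exact_mod_cast l0.ne')⟩⟩
  have n1 : (n : ℤ) ≠ 0 := by exact_mod_cast n0.ne'
  obtain ⟨D, hD, d1, d2⟩ := exists_can S (a := c) (b := q ^ l) ⟨cm, fun i j e => by
    have := z.2 i (j * n) (by
      rw [← zpow_natCast c, ← zpow_mul, mul_comm (n : ℤ), zpow_mul, zpow_mul,
        ← (cm.zpow_zpow i j).mul_zpow, e, one_zpow])
    exact ⟨this.1, (mul_eq_zero.1 this.2).resolve_right n1⟩⟩
  rcases hB.comm S hD z cB ((stabilizer G B).pow_mem hq l) ((stabilizer G D).pow_mem d1 n) d2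
    with e | e
  · rwa [e] at d1
  · rwa [e, hB.fix_st S] at d1

theorem Nst.symm (S : Std T) (hA : Can T A) (hB : Can T B) (n : Nst T A B) : Nst T B A := by
  rcases n with n | n | n | n
  · exact .inr (.inr (.inr n))
  · exact .inr (.inl (hB.st_st S ▸ hA.st_anti S (hB.star S) n :))
  · exact .inr (.inr (.inl (hA.st_st S ▸ (hA.star S).st_anti S hB n :)))
  · exact .inl n

theorem Nst.of_st (S : Std T) (hA : Can T A) (hB : Can T B) (n : Nst T A (st T B)) :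
    Nst T A B := by
  rcases n with n | n | n | n
  · exact .inr (.inl n)
  · exact .inl (hB.st_st S ▸ n)
  · have := (hA.star S).st_anti S (hB.star S) n
    rw [hA.st_st S, hB.st_st S] at this
    exact .inr (.inr (.inr this))
  · have := (hB.star S).st_anti S hA n
    rw [hB.st_st S] at this
    exact .inr (.inr (.inl this))

theorem Nst.to_st (S : Std T) (hA : Can T A) (hB : Can T B) (n : Nst T A B) :
    Nst T A (st T B) := Nst.of_st S hA (hB.star S) (by rwa [hB.st_st S])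

/-- nested walls: a side of the second one lies in a side of the first one -/
theorem Nst.sides (S : Std T) (hA : Can T A) (hB : Can T B) (n : Nst T A B) :
    ∃ A' B', (A' = A ∨ A' = st T A) ∧ (B' = B ∨ B' = st T B) ∧ B' ⊆ A' := by
  rcases n with n | n | n | n
  · exact ⟨_, _, .inr rfl, .inr rfl, hA.st_anti S hB n⟩
  · exact ⟨_, _, .inr rfl, .inl rfl, (hB.st_st S ▸ hA.st_anti S (hB.star S) n :)⟩
  · exact ⟨_, _, .inl rfl, .inr rfl, (hA.st_st S ▸ (hA.star S).st_anti S hB n :)⟩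
  · exact ⟨_, _, .inl rfl, .inl rfl, n⟩

/-- walls with a common lattice are nested -/
theorem nst_of_z2 (S : Std T) (hA : Can T A) (hB : Can T B) (z : Z2 a b) (h1 : a • A = A)
    (h2 : b • A = A) (k1 : a • B = B) (k2 : b • B = B) : Nst T A B :=
  (hA.comm S hB z h1 h2 k1 k2).elim (fun e => .inl e.ge) fun e => .inr (.inr (.inl e.ge))

/-- the common group of two walls that cross is infinite cyclic -/
theorem vn_gen (S : Std T) (hA : Can T A) (hB : Can T B) (n : ¬ Nst T A B) :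
    ∃ h : G, h ≠ 1 ∧ ∀ g : G, g • A = A ∧ g • B = B ↔ g ∈ Subgroup.zpowers h := by
  obtain ⟨i⟩ := hA.z2 S
  have : IsCyclic ↥(stabilizer G A ⊓ stabilizer G B) := by
    by_contra q
    obtain ⟨a, b, cm, ind, e⟩ := d1_basis _ _ inf_le_left i q
    have ma := (e a).2 ⟨1, 0, by rw [zpow_one, zpow_zero, mul_one]⟩
    have mb := (e b).2 ⟨0, 1, by rw [zpow_one, zpow_zero, one_mul]⟩
    exact n (nst_of_z2 S hA hB ⟨cm, ind⟩ ma.1 mb.1 ma.2 mb.2)
  obtain ⟨⟨h, hh⟩, e⟩ := IsCyclic.exists_generator (α := ↥(stabilizer G A ⊓ stabilizer G B))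
  have k : ∀ g : G, g • A = A ∧ g • B = B ↔ g ∈ Subgroup.zpowers h := fun g =>
    ⟨fun q => (e ⟨g, q⟩).imp fun _ r => congrArg Subtype.val r,
      fun ⟨j, r⟩ => r ▸ (stabilizer G A ⊓ stabilizer G B).zpow_mem hh j⟩
  refine ⟨h, fun q => n (x1 S hA hB fun g u v => ?_), k⟩
  simpa [q] using (k g).1 ⟨u, v⟩

/-- an element that commensurates the direction of a crossing normalises it -/
theorem comm_norm (S : Std T) (hA : Can T A) (hB : Can T B) (h1 : h ≠ 1)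
    (e : ∀ g : G, g • A = A ∧ g • B = B ↔ g ∈ Subgroup.zpowers h) {m n : ℤ}
    (mn : ¬ (m = 0 ∧ n = 0)) (d : (g * h * g⁻¹) ^ m = h ^ n) :
    g * h * g⁻¹ = h ∨ g * h * g⁻¹ = h⁻¹ := by
  have hh := (e h).2 (Subgroup.mem_zpowers h)
  have key : ∀ (g : G) (m n : ℤ), m ≠ 0 → (g * h * g⁻¹) ^ m = h ^ n →
      ∃ i : ℤ, h ^ i = g * h * g⁻¹ := fun g m n m0 d => by
    have f : (g * h * g⁻¹) • g • A = g • A := by rw [mul_smul, inv_smul_smul, mul_smul, hh.1]
    exact (e _).1 ⟨root2 S (hA.smul g) hA f m0 (d ▸ vn_zpow hh.1 n),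
      root2 S (hA.smul g) hB f m0 (d ▸ vn_zpow hh.2 n)⟩
  have m0 : m ≠ 0 := fun q => mn ⟨q, vn_pow S h1 (by rw [← d, q, zpow_zero])⟩
  have n0 : n ≠ 0 := fun q => m0 (vn_pow S h1 (by
    rwa [q, zpow_zero, conj_zpow, conj_eq_one_iff] at d))
  obtain ⟨i, hi⟩ := key g m n m0 d
  obtain ⟨j, hj⟩ := key g⁻¹ n m n0 (by
    rw [conj_zpow] at d ⊢
    rw [← d]
    group)
  have e1 : h ^ (i * j) = h ^ (1 : ℤ) := by
    rw [zpow_mul, hi, conj_zpow, hj]
    group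
  rcases Int.eq_one_or_neg_one_of_mul_eq_one
    (injective_zpow_iff_not_isOfFinOrder.2 (S.tf h h1) e1) with q | q
  · exact .inl (by rw [← hi, q, zpow_one])
  · exact .inr (by rw [← hi, q, zpow_neg_one])

/-- a wall that crosses one of two crossing walls contains their direction -/
theorem vert_one (S : Std T) (hA : Can T A) (hB : Can T B) (n : ¬ Nst T A B) (hA' : h • A = A)
    (hB' : h • B = B) (hD : Can T D) (k : ¬ Nst T A D) : h • D = D := by
  by_cases h1 : h = 1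
  · rw [h1, one_smul]
  obtain ⟨c, c1, e⟩ := vn_gen S hA hD k
  have hc := (e c).2 (Subgroup.mem_zpowers c)
  obtain ⟨i, j, i0, -, q⟩ := x2 S hA hB hD n k h1 c1 hA' hB' hc.1 hc.2
  exact root2 S hA hD hA' i0 (q ▸ vn_zpow hc.2 j)

/-- V: a wall that crosses a vertical wall is vertical -/
theorem vert (S : Std T) (hA : Can T A) (hB : Can T B) (n : ¬ Nst T A B) (hA' : h • A = A)
    (hB' : h • B = B) (hD : Can T D) (hD' : h • D = D) (hW : Can T B') (k : ¬ Nst T D B') :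
    h • B' = B' := by
  by_contra nv
  have h1 : h ≠ 1 := fun q => nv (by rw [q, one_smul])
  obtain ⟨A', W, a1, w1, s⟩ := Nst.sides S hA hW (by_contra fun q =>
    nv (vert_one S hA hB n hA' hB' hW q))
  have cA : Can T A' := by
    rcases a1 with rfl | rfl
    exacts [hA, hA.star S]
  have fA : h • st T A' = st T A' := by
    rcases a1 with rfl | rfl
    exacts [(hA.fix_st S).2 hA', ((hA.star S).fix_st S).2 ((hA.fix_st S).2 hA')]
  obtain ⟨d, d1, e⟩ := vn_gen S hD hW k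
  have hd := (e d).2 (Subgroup.mem_zpowers d)
  have fW : d • W = W := by
    rcases w1 with rfl | rfl
    exacts [hd.2, (hW.fix_st S).2 hd.2]
  have cW : Can T W := by
    rcases w1 with rfl | rfl
    exacts [hW, hW.star S]
  have cm := hD.commute S hd.1 hD'
  obtain ⟨y, hy⟩ := vn_ne S.mfd (cA.star S)
  have z : Z2 d h := ⟨cm, fun i j q => by
    have j0 : j = 0 := by_contra fun l => nv (root2 S hA hW hA' l (by
      rw [eq_inv_of_mul_eq_one_right q, ← zpow_neg]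
      exact vn_zpow hd.2 _))
    rw [j0, zpow_zero, mul_one] at q
    exact ⟨vn_pow S d1 q, j0⟩⟩
  have := x0 S hD cW z hd.1 hD' y (.inr fun q hq m => by
    obtain ⟨i, j, rfl⟩ := (mem_pp cm q).1 hq
    rw [mul_smul, vn_mem (vn_zpow fW i)] at m
    exact cA.st_sub S ((vn_mem (vn_zpow fA j) y).2 hy) (s m))
  rcases w1 with rfl | rfl
  exacts [k this, k (this.of_st S hD hW)]

end Pool.Agent.Work.MP_3d425c_gt.Cw

namespace Pool.Agent.Work.MP_3d425c_gt.Fs
open Set MulAction Pool.Agent.Work.MP_3d425c_gt.Md Pool.Agent.Work.MP_3d425c_gt.Cw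
open scoped Pointwise

variable {G X0 X1 X2 X3 : Type} [Group G] [MulAction G X0] [MulAction G X1] [MulAction G X2]
  [MulAction G X3] {T : Tri G X0 X1 X2 X3} {B D B₀ B₁ : Set X0} {g h : G}

theorem exists_fib (S : Std T) (h0 : Can T B₀) (h1 : Can T B₁) (c : ¬ Nst T B₀ B₁) :
    ∃ h, Fib T h B₀ B₁ :=
  let ⟨h, a, b⟩ := vn_gen S h0 h1 c
  ⟨h, h0, h1, c, a, b⟩

theorem Fib.f0 (F : Fib T h B₀ B₁) : h • B₀ = B₀ := ((F.gen h).2 (Subgroup.mem_zpowers h)).1

theorem Fib.f1 (F : Fib T h B₀ B₁) : h • B₁ = B₁ := ((F.gen h).2 (Subgroup.mem_zpowers h)).2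

theorem Fib.vert (S : Std T) (F : Fib T h B₀ B₁) (hD : Can T D) (f : h • D = D) (hB : Can T B)
    (c : ¬ Nst T D B) : h • B = B := Cw.vert S F.c0 F.c1 F.cr F.f0 F.f1 hD f hB c

/-- a wall fixed by a power of the fibre is fixed by the fibre -/
theorem Fib.root (S : Std T) (F : Fib T h B₀ B₁) (hD : Can T D) {k : ℤ} (k0 : k ≠ 0)
    (f : h ^ k • D = D) : h • D = D := root2 S F.c0 hD F.f0 k0 f

/-- an element that commensurates the fibre normalises it -/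
theorem Fib.norm (S : Std T) (F : Fib T h B₀ B₁) {m n : ℤ} (mn : ¬ (m = 0 ∧ n = 0))
    (d : (g * h * g⁻¹) ^ m = h ^ n) : g * h * g⁻¹ = h ∨ g * h * g⁻¹ = h⁻¹ :=
  comm_norm S F.c0 F.c1 F.ne F.gen mn d

/-- an element that keeps the first wall vertical normalises the fibre -/
theorem Fib.norm_of_vert (S : Std T) (F : Fib T h B₀ B₁) (f : h • g • B₀ = g • B₀) :
    g * h * g⁻¹ = h ∨ g * h * g⁻¹ = h⁻¹ := by
  have nc : ¬ Nst T (g • B₀) (g • B₁) := fun n => F.cr (by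
    simpa only [Nst, F.c0.st_smul S, F.c1.st_smul S, smul_set_subset_smul_set_iff] using n)
  have f' := F.vert S (F.c0.smul g) f (F.c1.smul g) nc
  obtain ⟨i, hi⟩ := (F.gen (g⁻¹ * h * g)).1
    ⟨by rw [mul_smul, mul_smul, f, inv_smul_smul], by rw [mul_smul, mul_smul, f', inv_smul_smul]⟩
  refine F.norm S (m := i) (n := 1) (fun q => one_ne_zero q.2) ?_
  rw [conj_zpow, show h ^ i = _ from hi]
  group

end Pool.Agent.Work.MP_3d425c_gt.Fs
end

-- merged part: Pool.Agent.Work.MP_3d425c_gt.Fl.Main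
section
/-! A taut foliation on a closed three-manifold with vanishing first Betti number makes the
fundamental group left orderable. -/

namespace Pool.Agent.Work.MP_3d425c_gt.Fl
open MulAction Pool.Agent.Work.MP_3d425c_gt.Md Pool.Agent.Work.MP_3d425c_gt.Cw
open scoped Manifold ContDiff Pointwise

section
variable {G X0 X1 X2 X3 : Type} [Group G] [MulAction G X0] [MulAction G X1] [MulAction G X2]
  [MulAction G X3] {T : Tri G X0 X1 X2 X3}

/-- A class of crossing walls has a fibre. -/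
theorem fib (S : Std T) (L : Set (Set X0)) (C : Cls T L) (ne : L.Nonempty) :
    ∃ h : G, Fr.Fib L h := by
  obtain ⟨A, a⟩ := ne
  obtain ⟨B, b, n⟩ := C.crs A a
  have cA := C.can A a
  have cB := C.can B b
  obtain ⟨h, h1, e⟩ := vn_gen S cA cB n
  have hh := (e h).2 (Subgroup.mem_zpowers h)
  have fix : ∀ D ∈ L, h • D = D := fun D d => by
    have q := C.conn A a D d
    clear d
    induction q with
    | refl => exact hh.1
    | tail _ k ih =>
      rcases k.2.2 with c | rfl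
      · exact vert S cA cB n hh.1 hh.2 (C.can _ k.1) ih (C.can _ k.2.1) c
      · exact ((C.can _ k.1).fix_st S).2 ih
  have cj : ∀ g : G, g • L = L → g * h * g⁻¹ ∈ Subgroup.zpowers h := fun g k => by
    have f : ∀ D ∈ L, (g * h * g⁻¹) • D = D := fun D d => by
      rw [mul_smul, mul_smul, fix _ (Set.mem_smul_set_iff_inv_smul_mem.1 (k.symm ▸ d)),
        smul_inv_smul]
    exact (e _).1 ⟨f A a, f B b⟩
  refine ⟨h, h1, fix, fun g k => ?_, fun D d s k => ?_⟩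
  · obtain ⟨i, q⟩ := cj g k
    exact comm_norm S cA cB h1 e (m := 1) (n := i) (by simp) (by simpa using q.symm)
  · refine or_iff_not_imp_right.2 fun m => ⟨(C.can D d).commute S (fix D d) k, fun i j q => ?_⟩
    have j0 : j = 0 := by_contra fun j0 => m <| by
      have f : ∀ E ∈ L, s • E = E := fun E c => root2 S (C.can D d) (C.can E c) k j0 (by
        rw [eq_inv_of_mul_eq_one_right q, ← zpow_neg]
        exact vn_zpow (fix E c) _)
      exact (e _).1 ⟨f A a, f B b⟩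
    rw [j0, zpow_zero, mul_one] at q
    exact ⟨vn_pow S h1 q, j0⟩

theorem fron (S : Std T) : Fr.Fron T := fun L C ne =>
  let ⟨h, f⟩ := fib S L C ne
  ⟨h, f.ne, f.nm, fun _ c k => Fr.front S C ne f c k⟩

theorem goals (T : Tri G X0 X1 X2 X3) : GoalV T ∧ GoalU T := by
  refine ⟨fun S hD _ _ _ _ _ _ J v k => ?_, Fr.goalU_of fun S _ => fron S⟩
  by_cases a : S1 T v
  · exact Fr.s1_sei J (Fr.frt_of_fron S (bound S.mfd S.tf) (fron S)) a
  · exact Fs.s2_sei' S (fun E _ _ => Bq.dual_of S.mfd hD S.nh E) J v a (k.resolve_left a)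

end

variable {M : Type} [TopologicalSpace M] [ChartedSpace (EuclideanSpace ℝ (Fin 3)) M]
  [IsManifold 𝓘(ℝ, EuclideanSpace ℝ (Fin 3)) ∞ M] [CompactSpace M] [T2Space M] [ConnectedSpace M]

theorem main (m : M) (h0 : ∀ χ : FundamentalGroup M m →* Multiplicative ℝ, χ = 1)
    {A : Set (OpenPartialHomeomorph M ((ℝ × ℝ) × ℝ))} (hA : Sm.Foliation A) (hT : Sm.Taut A) :
    Nontrivial (FundamentalGroup M m) ∧ Md.LO (FundamentalGroup M m) :=
  main_of (fun T => goals T) m h0 hA hT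

end Pool.Agent.Work.MP_3d425c_gt.Fl
end
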